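import Mathlib

set_option autoImplicit false

namespace Pool.Agent.Helper99.Perm

open Finset

/-- number of halving steps -/
def If (l : ℕ) : ℕ := 4 * (Nat.log 2 l + 1)
noncomputable def lamf (l i : ℕ) : ℝ := (l : ℝ) * (5 / 6) ^ i
noncomputable def Ef (l : ℕ) : ℕ := ⌈(l : ℝ) ^ (19 / 20 : ℝ)⌉₊
noncomputable def Df (l : ℕ) : ℕ := ⌈(l : ℝ) ^ (5 / 8 : ℝ)⌉₊
noncomputable def w0f (l : ℕ) : ℕ := ⌈(l : ℝ) ^ (3 / 8 : ℝ)⌉₊
noncomputable def sf (l i : ℕ) : ℕ := ⌈lamf l i / 4⌉₊ + Ef l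
noncomputable def mf (l i : ℕ) : ℕ := 16 * ⌈(lamf l i * sf l i) ^ (1 / 3 : ℝ)⌉₊ + 8 * Df l
noncomputable def bLf (l i : ℕ) : ℕ := ⌈4 * lamf l i / mf l i⌉₊
noncomputable def bSf (l i : ℕ) : ℕ := ⌈(sf l i : ℝ) / mf l i⌉₊
noncomputable def cf (l i : ℕ) : ℕ := ⌈36 * (mf l i : ℝ) ^ 2 / sf l i⌉₊
noncomputable def pf (l i : ℕ) : ℝ := 2 * (mf l i : ℝ) / (sf l i * bSf l i)

/-- The largeness condition. -/
def Large (l : ℕ) : Prop := 1 ≤ l ∧ 20000 * (If l : ℝ) ≤ (l : ℝ) ^ (1 / 30 : ℝ)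

lemma eventually_large : ∀ᶠ l : ℕ in Filter.atTop, Large l := by
  have h1 : ∀ᶠ x : ℝ in Filter.atTop, Real.log x ≤ (1 / 1000000 : ℝ) * x ^ (1 / 30 : ℝ) := by
    have h := (isLittleO_log_rpow_atTop (r := (1 / 30 : ℝ)) (by norm_num)).bound
      (c := 1 / 1000000) (by norm_num)
    filter_upwards [h, Filter.eventually_ge_atTop (1 : ℝ)] with x hx hx1
    rw [Real.norm_of_nonneg (Real.log_nonneg hx1), Real.norm_of_nonneg (by positivity)] at hx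
    exact hx
  have h2 : ∀ᶠ x : ℝ in Filter.atTop, (1000000 : ℝ) ≤ x ^ (1 / 30 : ℝ) :=
    (tendsto_rpow_atTop (by norm_num : (0 : ℝ) < 1 / 30)).eventually_ge_atTop _
  have h1' := (tendsto_natCast_atTop_atTop (R := ℝ)).eventually h1
  have h2' := (tendsto_natCast_atTop_atTop (R := ℝ)).eventually h2
  filter_upwards [h1', h2', Filter.eventually_ge_atTop 1] with l hl1 hl2 hl3
  refine ⟨hl3, ?_⟩
  have hlpos : (0 : ℝ) < l := by exact_mod_cast hl3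
  have h3 : ((Nat.log 2 l : ℕ) : ℝ) ≤ 2 * Real.log l := by
    have h4 : ((2 : ℝ)) ^ (Nat.log 2 l) ≤ l := by
      exact_mod_cast Nat.pow_log_le_self 2 (by omega)
    have h5 : (Nat.log 2 l : ℝ) * Real.log 2 ≤ Real.log l := by
      rw [← Real.log_pow]
      exact Real.log_le_log (by positivity) h4
    have h6 : (1 / 2 : ℝ) ≤ Real.log 2 := by
      have := Real.log_two_gt_d9
      linarith
    have h7 : (0 : ℝ) ≤ (Nat.log 2 l : ℝ) := by positivity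
    nlinarith
  have h8 : (If l : ℝ) = 4 * ((Nat.log 2 l : ℕ) : ℝ) + 4 := by
    unfold If; push_cast; ring
  rw [h8]
  linarith

section
variable {l : ℕ} (hl : Large l)
include hl

lemma l_one : (1 : ℝ) ≤ l := by exact_mod_cast hl.1
lemma l_pos : (0 : ℝ) < l := lt_of_lt_of_le one_pos (l_one hl)

lemma If_pos : 4 ≤ If l := by unfold If; omega

lemma rpow_mono {a b : ℝ} (h : a ≤ b) : (l : ℝ) ^ a ≤ (l : ℝ) ^ b :=
  Real.rpow_le_rpow_of_exponent_le (l_one hl) h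

lemma one_le_pow {a : ℝ} (h : 0 ≤ a) : 1 ≤ (l : ℝ) ^ a := Real.one_le_rpow (l_one hl) h

lemma big : (80000 : ℝ) ≤ (l : ℝ) ^ (1 / 30 : ℝ) := by
  have h1 : (4 : ℝ) ≤ If l := by exact_mod_cast If_pos hl
  have := hl.2
  linarith

lemma big' {a : ℝ} (h : 1 / 30 ≤ a) : (80000 : ℝ) ≤ (l : ℝ) ^ a := (big hl).trans (rpow_mono hl h)

lemma mulpow (a b : ℝ) : (l : ℝ) ^ a * (l : ℝ) ^ b = (l : ℝ) ^ (a + b) :=
  (Real.rpow_add (l_pos hl) a b).symm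

lemma lamf_pos (i : ℕ) : 0 < lamf l i := by
  unfold lamf
  have := l_pos hl
  positivity

lemma lamf_le (i : ℕ) : lamf l i ≤ l := by
  unfold lamf
  have h : ((5 : ℝ) / 6) ^ i ≤ 1 := pow_le_one₀ (by norm_num) (by norm_num)
  have := l_pos hl
  nlinarith

lemma lamf_succ (i : ℕ) : lamf l (i + 1) = 5 * lamf l i / 6 := by
  unfold lamf; rw [pow_succ]; ring

lemma Ef_ge : (l : ℝ) ^ (19 / 20 : ℝ) ≤ Ef l := Nat.le_ceil _
lemma Ef_le : (Ef l : ℝ) ≤ (l : ℝ) ^ (19 / 20 : ℝ) + 1 :=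
  (Nat.ceil_lt_add_one (by positivity)).le
lemma Df_ge : (l : ℝ) ^ (5 / 8 : ℝ) ≤ Df l := Nat.le_ceil _
lemma Df_le : (Df l : ℝ) ≤ (l : ℝ) ^ (5 / 8 : ℝ) + 1 :=
  (Nat.ceil_lt_add_one (by positivity)).le
lemma w0f_ge : (l : ℝ) ^ (3 / 8 : ℝ) ≤ w0f l := Nat.le_ceil _
lemma w0f_le : (w0f l : ℝ) ≤ (l : ℝ) ^ (3 / 8 : ℝ) + 1 :=
  (Nat.ceil_lt_add_one (by positivity)).le

lemma Df_one : 1 ≤ Df l := by
  have h1 := Df_ge hl
  have h2 := one_le_pow hl (a := 5 / 8) (by norm_num)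
  exact_mod_cast h2.trans h1

lemma w0f_one : 1 ≤ w0f l := by
  have h1 := w0f_ge hl
  have h2 := one_le_pow hl (a := 3 / 8) (by norm_num)
  exact_mod_cast h2.trans h1

lemma sf_ge (i : ℕ) : lamf l i / 4 + (l : ℝ) ^ (19 / 20 : ℝ) ≤ sf l i := by
  unfold sf
  push_cast
  exact add_le_add (Nat.le_ceil _) (Ef_ge hl)

lemma sf_le (i : ℕ) : (sf l i : ℝ) ≤ lamf l i / 4 + (l : ℝ) ^ (19 / 20 : ℝ) + 2 := by
  unfold sf
  push_cast
  have h1 := Nat.ceil_lt_add_one (a := lamf l i / 4) (by have := lamf_pos hl i; positivity)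
  have h2 := Ef_le hl
  linarith

lemma sf_pos (i : ℕ) : 0 < sf l i := by
  have h1 := sf_ge hl i
  have h2 := lamf_pos hl i
  have h3 : (0 : ℝ) < (l : ℝ) ^ (19 / 20 : ℝ) := by have := l_pos hl; positivity
  have : (0 : ℝ) < sf l i := by linarith
  exact_mod_cast this

/-- `I * (l^{19/20} + 2) ≤ l / 20` -/
lemma E1 : (If l : ℝ) * ((l : ℝ) ^ (19 / 20 : ℝ) + 2) ≤ l / 20 := by
  have h1 := one_le_pow hl (a := 19 / 20) (by norm_num)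
  have h2 : 20000 * (If l : ℝ) ≤ (l : ℝ) ^ (1 / 20 : ℝ) := hl.2.trans (rpow_mono hl (by norm_num))
  have h3 : (l : ℝ) ^ (1 / 20 : ℝ) * (l : ℝ) ^ (19 / 20 : ℝ) = l := by
    rw [mulpow hl]; norm_num
  have h4 : (0 : ℝ) ≤ If l := by positivity
  have h5 : 20000 * (If l : ℝ) * (l : ℝ) ^ (19 / 20 : ℝ) ≤ l := by
    calc 20000 * (If l : ℝ) * (l : ℝ) ^ (19 / 20 : ℝ)
        ≤ (l : ℝ) ^ (1 / 20 : ℝ) * (l : ℝ) ^ (19 / 20 : ℝ) :=
          mul_le_mul_of_nonneg_right h2 (by positivity)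
      _ = l := h3
  nlinarith

lemma sf_le_l (i : ℕ) : (sf l i : ℝ) ≤ l := by
  have h1 := sf_le hl i
  have h2 := lamf_le hl i
  have h3 := E1 hl
  have h4 : (4 : ℝ) ≤ If l := by exact_mod_cast If_pos hl
  have h5 : (0 : ℝ) ≤ (l : ℝ) ^ (19 / 20 : ℝ) := by positivity
  have h6 := l_pos hl
  nlinarith

lemma mf_ge1 (i : ℕ) : 16 * (lamf l i * sf l i) ^ (1 / 3 : ℝ) ≤ mf l i := by
  unfold mf
  push_cast
  have h1 := Nat.le_ceil ((lamf l i * sf l i) ^ (1 / 3 : ℝ))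
  have h2 : (0 : ℝ) ≤ Df l := by positivity
  linarith

lemma mf_ge2 (i : ℕ) : 8 * Df l ≤ mf l i := by unfold mf; omega

lemma mf_ge2' (i : ℕ) : 8 * (l : ℝ) ^ (5 / 8 : ℝ) ≤ mf l i := by
  have h1 : (8 : ℝ) * Df l ≤ mf l i := by exact_mod_cast mf_ge2 hl i
  have h2 := Df_ge hl
  linarith

lemma mf_pos (i : ℕ) : 0 < mf l i := by
  have := mf_ge2 hl i
  have := Df_one hl
  omega

lemma mf_le (i : ℕ) : (mf l i : ℝ) ≤
    16 * (lamf l i * sf l i) ^ (1 / 3 : ℝ) + 16 * (l : ℝ) ^ (5 / 8 : ℝ) := by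
  unfold mf
  push_cast
  have h0 : 0 ≤ lamf l i * sf l i := by
    have := lamf_pos hl i
    positivity
  have h1 := (Nat.ceil_lt_add_one (a := (lamf l i * sf l i) ^ (1 / 3 : ℝ))
    (Real.rpow_nonneg h0 _)).le
  have h2 := Df_le hl
  have h3 := big' hl (a := 5 / 8) (by norm_num)
  linarith

lemma lam_le_4s (i : ℕ) : lamf l i ≤ 4 * sf l i := by
  have h1 := sf_ge hl i
  have h3 : (0 : ℝ) < (l : ℝ) ^ (19 / 20 : ℝ) := by have := l_pos hl; positivity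
  linarith

lemma mf_le_l (i : ℕ) : (mf l i : ℝ) ≤ l := by
  have h1 := mf_le hl i
  have h2 : (lamf l i * sf l i) ^ (1 / 3 : ℝ) ≤ (l : ℝ) ^ (2 / 3 : ℝ) := by
    have h3 : lamf l i * sf l i ≤ (l : ℝ) ^ (2 : ℝ) := by
      rw [Real.rpow_two, sq]
      exact mul_le_mul (lamf_le hl i) (sf_le_l hl i) (by positivity) (l_pos hl).le
    calc (lamf l i * sf l i) ^ (1 / 3 : ℝ) ≤ ((l : ℝ) ^ (2 : ℝ)) ^ (1 / 3 : ℝ) :=
          Real.rpow_le_rpow (by have := lamf_pos hl i; positivity) h3 (by norm_num)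
      _ = (l : ℝ) ^ (2 / 3 : ℝ) := by
          rw [← Real.rpow_mul (l_pos hl).le]; norm_num
  have h4 : (l : ℝ) ^ (5 / 8 : ℝ) ≤ (l : ℝ) ^ (2 / 3 : ℝ) := rpow_mono hl (by norm_num)
  have h5 := big' hl (a := 1 / 3) (by norm_num)
  have h6 : (l : ℝ) ^ (1 / 3 : ℝ) * (l : ℝ) ^ (2 / 3 : ℝ) = l := by
    rw [mulpow hl]; norm_num
  have h7 : (0 : ℝ) ≤ (l : ℝ) ^ (2 / 3 : ℝ) := by positivity
  nlinarith

lemma bLf_pos (i : ℕ) : 0 < bLf l i := by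
  unfold bLf
  rw [Nat.ceil_pos]
  have h1 := lamf_pos hl i
  have h2 : (0 : ℝ) < mf l i := by exact_mod_cast mf_pos hl i
  positivity

lemma bSf_pos (i : ℕ) : 0 < bSf l i := by
  unfold bSf
  rw [Nat.ceil_pos]
  have h1 : (0 : ℝ) < sf l i := by exact_mod_cast sf_pos hl i
  have h2 : (0 : ℝ) < mf l i := by exact_mod_cast mf_pos hl i
  positivity

lemma lam_div_bL (i : ℕ) : lamf l i / bLf l i ≤ mf l i / 4 := by
  have h1 := lamf_pos hl i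
  have h2 : (0 : ℝ) < mf l i := by exact_mod_cast mf_pos hl i
  have h3 : (0 : ℝ) < bLf l i := by exact_mod_cast bLf_pos hl i
  have h4 : 4 * lamf l i / mf l i ≤ bLf l i := Nat.le_ceil _
  rw [div_le_iff₀ h3]
  rw [div_le_iff₀ h2] at h4
  linarith

lemma cond1 (i f : ℕ) (hf : f ≤ 3 * l) :
    (f : ℝ) / w0f l + lamf l i / bLf l i + 1 ≤ mf l i := by
  have h1 := lam_div_bL hl i
  have hw : (0 : ℝ) < w0f l := by exact_mod_cast w0f_one hl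
  have h2 : (f : ℝ) / w0f l ≤ 3 * Df l := by
    rw [div_le_iff₀ hw]
    have h3 : (f : ℝ) ≤ 3 * l := by exact_mod_cast hf
    have h4 : (l : ℝ) = (l : ℝ) ^ (5 / 8 : ℝ) * (l : ℝ) ^ (3 / 8 : ℝ) := by
      rw [mulpow hl]; norm_num
    have h5 : (l : ℝ) ^ (5 / 8 : ℝ) * (l : ℝ) ^ (3 / 8 : ℝ) ≤ Df l * w0f l :=
      mul_le_mul (Df_ge hl) (w0f_ge hl) (by positivity) (by positivity)
    calc (f : ℝ) ≤ 3 * l := h3
      _ = 3 * ((l : ℝ) ^ (5 / 8 : ℝ) * (l : ℝ) ^ (3 / 8 : ℝ)) := by rw [← h4]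
      _ ≤ 3 * (Df l * w0f l) := by linarith
      _ = 3 * Df l * w0f l := by ring
  have h6 : (8 : ℝ) * Df l ≤ mf l i := by exact_mod_cast mf_ge2 hl i
  have h7 : (1 : ℝ) ≤ Df l := by exact_mod_cast Df_one hl
  linarith

lemma cond2 (i : ℕ) : (Df l : ℝ) + lamf l i / bLf l i ≤ mf l i := by
  have h1 := lam_div_bL hl i
  have h6 : (8 : ℝ) * Df l ≤ mf l i := by exact_mod_cast mf_ge2 hl i
  have h7 : (1 : ℝ) ≤ Df l := by exact_mod_cast Df_one hl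
  linarith

lemma cond3 (i : ℕ) : sf l i ≤ mf l i * bSf l i := by
  have h2 : (0 : ℝ) < mf l i := by exact_mod_cast mf_pos hl i
  have h4 : (sf l i : ℝ) / mf l i ≤ bSf l i := Nat.le_ceil _
  rw [div_le_iff₀ h2] at h4
  have : (sf l i : ℝ) ≤ mf l i * bSf l i := by linarith
  exact_mod_cast this

lemma cube (i : ℕ) : 4096 * (lamf l i * sf l i) ≤ (mf l i : ℝ) ^ 3 := by
  have h1 := mf_ge1 hl i
  have h0 : 0 ≤ lamf l i * sf l i := by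
    have := lamf_pos hl i
    positivity
  have h2 : (16 * (lamf l i * sf l i) ^ (1 / 3 : ℝ)) ^ 3 ≤ (mf l i : ℝ) ^ 3 :=
    pow_le_pow_left₀ (by positivity) h1 3
  have h3 : ((lamf l i * sf l i) ^ (1 / 3 : ℝ)) ^ 3 = lamf l i * sf l i := by
    rw [← Real.rpow_natCast, ← Real.rpow_mul h0]; norm_num
  rw [mul_pow, h3] at h2
  linarith

lemma sqm (i : ℕ) : 64 * (l : ℝ) ^ (5 / 4 : ℝ) ≤ (mf l i : ℝ) ^ 2 := by
  have h1 := mf_ge2' hl i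
  have h2 : (8 * (l : ℝ) ^ (5 / 8 : ℝ)) ^ 2 ≤ (mf l i : ℝ) ^ 2 :=
    pow_le_pow_left₀ (by positivity) h1 2
  have h3 : ((l : ℝ) ^ (5 / 8 : ℝ)) ^ 2 = (l : ℝ) ^ (5 / 4 : ℝ) := by
    rw [sq, mulpow hl]; norm_num
  rw [mul_pow, h3] at h2
  linarith

lemma cond5 (i : ℕ) : 216 * (bLf l i * bSf l i) ≤ mf l i := by
  have hm : (0 : ℝ) < mf l i := by exact_mod_cast mf_pos hl i
  have hs : (0 : ℝ) < sf l i := by exact_mod_cast sf_pos hl i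
  have hlam := lamf_pos hl i
  have hlp := l_pos hl
  have hbL : (bLf l i : ℝ) ≤ 4 * lamf l i / mf l i + 1 :=
    (Nat.ceil_lt_add_one (by positivity)).le
  have hbS : (bSf l i : ℝ) ≤ sf l i / mf l i + 1 :=
    (Nat.ceil_lt_add_one (by positivity)).le
  have hA : (80000 : ℝ) ≤ (l : ℝ) ^ (1 / 4 : ℝ) := big' hl (by norm_num)
  have h54 : (l : ℝ) ^ (5 / 4 : ℝ) = l * (l : ℝ) ^ (1 / 4 : ℝ) := by
    have : (l : ℝ) ^ (5 / 4 : ℝ) = (l : ℝ) ^ (1 : ℝ) * (l : ℝ) ^ (1 / 4 : ℝ) := by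
      rw [mulpow hl]; norm_num
    rwa [Real.rpow_one] at this
  have hm2 : 5120000 * (l : ℝ) ≤ (mf l i : ℝ) ^ 2 := by
    have := sqm hl i
    rw [h54] at this
    nlinarith
  have hm3 := cube hl i
  have hml : 640000 ≤ (mf l i : ℝ) := by
    have h1 := mf_ge2' hl i
    have h2 := big' hl (a := 5 / 8) (by norm_num)
    linarith
  have key : 216 * ((4 * lamf l i / mf l i + 1) * (sf l i / mf l i + 1)) ≤ (mf l i : ℝ) := by
    have e : 216 * ((4 * lamf l i / mf l i + 1) * (sf l i / mf l i + 1)) =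
        (864 * (lamf l i * sf l i) + (864 * lamf l i + 216 * sf l i) * mf l i +
          216 * (mf l i : ℝ) ^ 2) / (mf l i : ℝ) ^ 2 := by
      field_simp
      ring
    rw [e, div_le_iff₀ (by positivity)]
    have h1 := lamf_le hl i
    have h2 := sf_le_l hl i
    have h3 : (864 * lamf l i + 216 * sf l i) * mf l i ≤ (1080 * (l : ℝ)) * mf l i := by
      apply mul_le_mul_of_nonneg_right _ hm.le
      linarith
    have h4 : (1080 * (l : ℝ)) * mf l i ≤ (mf l i : ℝ) ^ 3 / 4 := by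
      have : (mf l i : ℝ) ^ 3 = (mf l i : ℝ) ^ 2 * mf l i := by ring
      rw [this]
      nlinarith
    have h5 : 216 * (mf l i : ℝ) ^ 2 ≤ (mf l i : ℝ) ^ 3 / 4 := by
      have : (mf l i : ℝ) ^ 3 = (mf l i : ℝ) ^ 2 * mf l i := by ring
      rw [this]
      have : (0 : ℝ) ≤ (mf l i : ℝ) ^ 2 := by positivity
      nlinarith
    have h6 : (mf l i : ℝ) * (mf l i : ℝ) ^ 2 = (mf l i : ℝ) ^ 3 := by ring
    rw [h6]
    have h7 : (0 : ℝ) < (mf l i : ℝ) ^ 3 := by positivity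
    linarith
  have h8 : (216 : ℝ) * (bLf l i * bSf l i) ≤ mf l i := by
    refine le_trans ?_ key
    apply mul_le_mul_of_nonneg_left _ (by norm_num)
    exact mul_le_mul hbL hbS (by positivity) (by positivity)
  exact_mod_cast h8

lemma lam_final : lamf l (If l) < 1 := by
  unfold lamf If
  have h1 : ((5 : ℝ) / 6) ^ (4 * (Nat.log 2 l + 1)) ≤ (1 / 2) ^ (Nat.log 2 l + 1) := by
    rw [pow_mul]
    apply pow_le_pow_left₀ (by positivity)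
    norm_num
  have h2 : (l : ℝ) < 2 ^ (Nat.log 2 l + 1) := by
    exact_mod_cast Nat.lt_pow_succ_log_self (by norm_num) l
  have h3 : (0 : ℝ) < 2 ^ (Nat.log 2 l + 1) := by positivity
  have h4 := l_pos hl
  calc (l : ℝ) * ((5 : ℝ) / 6) ^ (4 * (Nat.log 2 l + 1))
      ≤ l * (1 / 2) ^ (Nat.log 2 l + 1) := mul_le_mul_of_nonneg_left h1 h4.le
    _ = l / 2 ^ (Nat.log 2 l + 1) := by rw [one_div, inv_pow]; ring
    _ < 1 := by rw [div_lt_one h3]; exact h2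

lemma sum_lam (k : ℕ) : ∑ i ∈ range k, lamf l i ≤ 6 * l := by
  unfold lamf
  rw [← Finset.mul_sum, geom_sum_eq (by norm_num)]
  have h : (0 : ℝ) < (5 / 6 : ℝ) ^ k := by positivity
  have h4 := l_pos hl
  have : ((5 / 6 : ℝ) ^ k - 1) / (5 / 6 - 1) ≤ 6 := by
    rw [div_le_iff_of_neg (by norm_num)]
    linarith
  nlinarith

lemma sum_sf : (∑ i ∈ range (If l), (sf l i : ℝ)) ≤ 1.55 * l := by
  have h1 : (∑ i ∈ range (If l), (sf l i : ℝ)) ≤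
      ∑ i ∈ range (If l), (lamf l i / 4 + ((l : ℝ) ^ (19 / 20 : ℝ) + 2)) := by
    apply Finset.sum_le_sum
    intro i _
    have := sf_le hl i
    linarith
  rw [Finset.sum_add_distrib, Finset.sum_const, Finset.card_range, nsmul_eq_mul,
    ← Finset.sum_div] at h1
  have h2 := sum_lam hl (If l)
  have h3 := E1 hl
  linarith

lemma lam_cuberoot (i : ℕ) : (lamf l i) ^ (1 / 3 : ℝ) ≤ (l : ℝ) ^ (1 / 3 : ℝ) * (19 / 20) ^ i := by
  unfold lamf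
  rw [Real.mul_rpow (l_pos hl).le (by positivity)]
  apply mul_le_mul_of_nonneg_left _ (by positivity)
  have h : ((5 : ℝ) / 6) ^ i ≤ ((19 / 20 : ℝ) ^ i) ^ 3 := by
    rw [← pow_mul, mul_comm, pow_mul]
    apply pow_le_pow_left₀ (by norm_num)
    norm_num
  calc (((5 : ℝ) / 6) ^ i) ^ (1 / 3 : ℝ) ≤ (((19 / 20 : ℝ) ^ i) ^ 3) ^ (1 / 3 : ℝ) :=
        Real.rpow_le_rpow (by positivity) h (by norm_num)
    _ = (19 / 20 : ℝ) ^ i := by
        rw [← Real.rpow_natCast, ← Real.rpow_mul (by positivity)]; norm_num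

lemma cf_le (i : ℕ) : (cf l i : ℝ) ≤
    36864 * ((l : ℝ) ^ (1 / 3 : ℝ) * (19 / 20) ^ i) + 18433 * (l : ℝ) ^ (3 / 10 : ℝ) := by
  have hm : (0 : ℝ) < mf l i := by exact_mod_cast mf_pos hl i
  have hs : (0 : ℝ) < sf l i := by exact_mod_cast sf_pos hl i
  have hlam := lamf_pos hl i
  have hlp := l_pos hl
  have h1 : (cf l i : ℝ) ≤ 36 * (mf l i : ℝ) ^ 2 / sf l i + 1 :=
    (Nat.ceil_lt_add_one (by positivity)).le
  set Z : ℝ := (lamf l i * sf l i) ^ (1 / 3 : ℝ) with hZ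
  have hZ0 : 0 ≤ Z := Real.rpow_nonneg (by positivity) _
  set W : ℝ := (l : ℝ) ^ (5 / 8 : ℝ) with hW
  have h2 : (mf l i : ℝ) ^ 2 ≤ 512 * Z ^ 2 + 512 * W ^ 2 := by
    have h3 := mf_le hl i
    have h4 : (mf l i : ℝ) ^ 2 ≤ (16 * Z + 16 * W) ^ 2 := pow_le_pow_left₀ hm.le h3 2
    nlinarith [sq_nonneg (Z - W)]
  have h5 : Z ^ 2 ≤ 2 * (lamf l i) ^ (1 / 3 : ℝ) * sf l i := by
    have e1 : Z = (lamf l i) ^ (1 / 3 : ℝ) * (sf l i : ℝ) ^ (1 / 3 : ℝ) := by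
      rw [hZ, Real.mul_rpow hlam.le hs.le]
    have e2 : (lamf l i) ^ (1 / 3 : ℝ) ≤ 2 * (sf l i : ℝ) ^ (1 / 3 : ℝ) := by
      have e3 : lamf l i ≤ 8 * sf l i := by have := lam_le_4s hl i; linarith
      calc (lamf l i) ^ (1 / 3 : ℝ) ≤ (8 * (sf l i : ℝ)) ^ (1 / 3 : ℝ) :=
            Real.rpow_le_rpow hlam.le e3 (by norm_num)
        _ = 2 * (sf l i : ℝ) ^ (1 / 3 : ℝ) := by
            rw [Real.mul_rpow (by norm_num) hs.le]
            congr 1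
            rw [show (8 : ℝ) = 2 ^ (3 : ℝ) by norm_num, ← Real.rpow_mul (by norm_num)]
            norm_num
    have e4 : ((sf l i : ℝ) ^ (1 / 3 : ℝ)) ^ 3 = sf l i := by
      rw [← Real.rpow_natCast, ← Real.rpow_mul hs.le]; norm_num
    set α := (lamf l i) ^ (1 / 3 : ℝ) with hα
    set β := (sf l i : ℝ) ^ (1 / 3 : ℝ) with hβ
    have hα0 : 0 ≤ α := Real.rpow_nonneg hlam.le _
    have hβ0 : 0 ≤ β := Real.rpow_nonneg hs.le _
    rw [e1, ← e4]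
    have : α * (α * β ^ 2) ≤ α * (2 * β * β ^ 2) := by
      apply mul_le_mul_of_nonneg_left _ hα0
      exact mul_le_mul_of_nonneg_right e2 (by positivity)
    nlinarith [this]
  have h6 : W ^ 2 ≤ (l : ℝ) ^ (3 / 10 : ℝ) * sf l i := by
    have e1 : W ^ 2 = (l : ℝ) ^ (3 / 10 : ℝ) * (l : ℝ) ^ (19 / 20 : ℝ) := by
      rw [hW, sq, mulpow hl, mulpow hl]; norm_num
    rw [e1]
    apply mul_le_mul_of_nonneg_left _ (by positivity)
    have := sf_ge hl i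
    linarith
  have h7 : 36 * (mf l i : ℝ) ^ 2 / sf l i ≤
      36864 * (lamf l i) ^ (1 / 3 : ℝ) + 18432 * (l : ℝ) ^ (3 / 10 : ℝ) := by
    rw [div_le_iff₀ hs]
    nlinarith
  have h8 := lam_cuberoot hl i
  have h9 := one_le_pow hl (a := 3 / 10) (by norm_num)
  linarith

lemma sum_cf : (∑ i ∈ range (If l), (cf l i : ℝ)) ≤ 900000 * (l : ℝ) ^ (1 / 3 : ℝ) := by
  have h1 : (∑ i ∈ range (If l), (cf l i : ℝ)) ≤ ∑ i ∈ range (If l),
      (36864 * ((l : ℝ) ^ (1 / 3 : ℝ) * (19 / 20) ^ i) + 18433 * (l : ℝ) ^ (3 / 10 : ℝ)) :=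
    Finset.sum_le_sum (fun i _ => cf_le hl i)
  rw [Finset.sum_add_distrib, Finset.sum_const, Finset.card_range, nsmul_eq_mul,
    ← Finset.mul_sum, ← Finset.mul_sum] at h1
  have h2 : ∑ i ∈ range (If l), ((19 : ℝ) / 20) ^ i ≤ 20 := by
    rw [geom_sum_eq (by norm_num)]
    have h : (0 : ℝ) < (19 / 20 : ℝ) ^ (If l) := by positivity
    rw [div_le_iff_of_neg (by norm_num)]
    linarith
  have h3 : 0 ≤ (l : ℝ) ^ (1 / 3 : ℝ) := by positivity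
  have h4 : (l : ℝ) ^ (1 / 3 : ℝ) * ∑ i ∈ range (If l), ((19 : ℝ) / 20) ^ i ≤
      (l : ℝ) ^ (1 / 3 : ℝ) * 20 := mul_le_mul_of_nonneg_left h2 h3
  have h5 : (If l : ℝ) * (18433 * (l : ℝ) ^ (3 / 10 : ℝ)) ≤ (l : ℝ) ^ (1 / 3 : ℝ) := by
    have e1 : (l : ℝ) ^ (1 / 3 : ℝ) = (l : ℝ) ^ (1 / 30 : ℝ) * (l : ℝ) ^ (3 / 10 : ℝ) := by
      rw [mulpow hl]; norm_num
    rw [e1]
    have e2 := hl.2
    have e3 : (0 : ℝ) ≤ (l : ℝ) ^ (3 / 10 : ℝ) := by positivity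
    have e4 : (0 : ℝ) ≤ If l := by positivity
    have e5 : 18433 * (If l : ℝ) ≤ (l : ℝ) ^ (1 / 30 : ℝ) := by linarith
    calc (If l : ℝ) * (18433 * (l : ℝ) ^ (3 / 10 : ℝ)) =
        (18433 * (If l : ℝ)) * (l : ℝ) ^ (3 / 10 : ℝ) := by ring
      _ ≤ _ := mul_le_mul_of_nonneg_right e5 e3
  linarith

lemma pf_le (i : ℕ) : pf l i ≤ 5120 * (l : ℝ) ^ (-(19 / 30) : ℝ) := by
  have hm : (0 : ℝ) < mf l i := by exact_mod_cast mf_pos hl i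
  have hs : (0 : ℝ) < sf l i := by exact_mod_cast sf_pos hl i
  have hb : (0 : ℝ) < bSf l i := by exact_mod_cast bSf_pos hl i
  have hlam := lamf_pos hl i
  have hlp := l_pos hl
  set Z : ℝ := (lamf l i * sf l i) ^ (1 / 3 : ℝ) with hZ
  have hZ0 : 0 ≤ Z := Real.rpow_nonneg (by positivity) _
  set W : ℝ := (l : ℝ) ^ (5 / 8 : ℝ) with hW
  have h2 : (mf l i : ℝ) ^ 2 ≤ 512 * Z ^ 2 + 512 * W ^ 2 := by
    have h3 := mf_le hl i
    have h4 : (mf l i : ℝ) ^ 2 ≤ (16 * Z + 16 * W) ^ 2 := pow_le_pow_left₀ hm.le h3 2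
    nlinarith [sq_nonneg (Z - W)]
  have h1 : pf l i ≤ 2 * (mf l i : ℝ) ^ 2 / (sf l i : ℝ) ^ 2 := by
    unfold pf
    have h4 : (sf l i : ℝ) / mf l i ≤ bSf l i := Nat.le_ceil _
    rw [div_le_div_iff₀ (by positivity) (by positivity)]
    rw [div_le_iff₀ hm] at h4
    have : 2 * (mf l i : ℝ) * sf l i * sf l i ≤ 2 * (mf l i : ℝ) * sf l i * (bSf l i * mf l i) :=
      mul_le_mul_of_nonneg_left h4 (by positivity)
    nlinarith [this]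
  -- main estimates
  set σ : ℝ := (sf l i : ℝ) with hσ
  have hσge : (l : ℝ) ^ (19 / 20 : ℝ) ≤ σ := by
    have := sf_ge hl i
    linarith
  have hσ23 : (l : ℝ) ^ (19 / 30 : ℝ) ≤ σ ^ (2 / 3 : ℝ) := by
    calc (l : ℝ) ^ (19 / 30 : ℝ) = ((l : ℝ) ^ (19 / 20 : ℝ)) ^ (2 / 3 : ℝ) := by
          rw [← Real.rpow_mul hlp.le]; norm_num
      _ ≤ σ ^ (2 / 3 : ℝ) := Real.rpow_le_rpow (by positivity) hσge (by norm_num)
  have hl1930 : (0 : ℝ) < (l : ℝ) ^ (19 / 30 : ℝ) := by positivity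
  have hZ2 : Z ^ 2 * (l : ℝ) ^ (19 / 30 : ℝ) ≤ 4 * σ ^ 2 := by
    have e1 : Z ^ 2 = (lamf l i * σ) ^ (2 / 3 : ℝ) := by
      rw [hZ, ← Real.rpow_natCast, ← Real.rpow_mul (by positivity)]; norm_num
    have e2 : (lamf l i * σ) ^ (2 / 3 : ℝ) ≤ (8 * σ ^ 2) ^ (2 / 3 : ℝ) := by
      apply Real.rpow_le_rpow (by positivity) _ (by norm_num)
      have := lam_le_4s hl i
      nlinarith
    have e3 : (8 * σ ^ 2) ^ (2 / 3 : ℝ) = 4 * σ ^ (4 / 3 : ℝ) := by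
      rw [Real.mul_rpow (by norm_num) (by positivity)]
      congr 1
      · rw [show (8 : ℝ) = 2 ^ (3 : ℝ) by norm_num, ← Real.rpow_mul (by norm_num)]
        norm_num
      · rw [← Real.rpow_natCast, ← Real.rpow_mul hs.le]; norm_num
    have e4 : σ ^ (4 / 3 : ℝ) * σ ^ (2 / 3 : ℝ) = σ ^ 2 := by
      rw [← Real.rpow_add hs, ← Real.rpow_natCast]; norm_num
    rw [e1]
    calc (lamf l i * σ) ^ (2 / 3 : ℝ) * (l : ℝ) ^ (19 / 30 : ℝ)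
        ≤ (4 * σ ^ (4 / 3 : ℝ)) * σ ^ (2 / 3 : ℝ) := by
          rw [← e3]
          exact mul_le_mul e2 hσ23 (by positivity) (by positivity)
      _ = 4 * σ ^ 2 := by rw [mul_assoc, e4]
  have hW2 : W ^ 2 * (l : ℝ) ^ (19 / 30 : ℝ) ≤ σ ^ 2 := by
    have e1 : W ^ 2 * (l : ℝ) ^ (19 / 30 : ℝ) = (l : ℝ) ^ (113 / 60 : ℝ) := by
      rw [hW, sq, mulpow hl, mulpow hl]; norm_num
    have e2 : (l : ℝ) ^ (113 / 60 : ℝ) ≤ (l : ℝ) ^ (19 / 10 : ℝ) := rpow_mono hl (by norm_num)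
    have e3 : (l : ℝ) ^ (19 / 10 : ℝ) = ((l : ℝ) ^ (19 / 20 : ℝ)) ^ 2 := by
      rw [sq, mulpow hl]; norm_num
    rw [e1]
    refine e2.trans ?_
    rw [e3]
    exact pow_le_pow_left₀ (by positivity) hσge 2
  have h5 : 2 * (mf l i : ℝ) ^ 2 / σ ^ 2 ≤ 5120 * ((l : ℝ) ^ (19 / 30 : ℝ))⁻¹ := by
    rw [div_le_iff₀ (by positivity)]
    have h6 : 2 * (mf l i : ℝ) ^ 2 * (l : ℝ) ^ (19 / 30 : ℝ) ≤ 5120 * σ ^ 2 := by
      have h7 : (mf l i : ℝ) ^ 2 * (l : ℝ) ^ (19 / 30 : ℝ) ≤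
          (512 * Z ^ 2 + 512 * W ^ 2) * (l : ℝ) ^ (19 / 30 : ℝ) :=
        mul_le_mul_of_nonneg_right h2 hl1930.le
      have h8 : (512 * Z ^ 2 + 512 * W ^ 2) * (l : ℝ) ^ (19 / 30 : ℝ) =
          512 * (Z ^ 2 * (l : ℝ) ^ (19 / 30 : ℝ)) + 512 * (W ^ 2 * (l : ℝ) ^ (19 / 30 : ℝ)) := by
        ring
      rw [h8] at h7
      linarith
    rw [← sub_nonneg]
    have e : 5120 * ((l : ℝ) ^ (19 / 30 : ℝ))⁻¹ * σ ^ 2 - 2 * (mf l i : ℝ) ^ 2 =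
        (5120 * σ ^ 2 - 2 * (mf l i : ℝ) ^ 2 * (l : ℝ) ^ (19 / 30 : ℝ)) *
          ((l : ℝ) ^ (19 / 30 : ℝ))⁻¹ := by
      field_simp
    rw [e]
    exact mul_nonneg (by linarith) (by positivity)
  rw [Real.rpow_neg hlp.le]
  exact h1.trans h5

lemma sum_pf : ∑ i ∈ range (If l), pf l i ≤ (l : ℝ) ^ (-(1 / 2) : ℝ) := by
  have h1 : ∑ i ∈ range (If l), pf l i ≤
      ∑ _i ∈ range (If l), 5120 * (l : ℝ) ^ (-(19 / 30) : ℝ) :=
    Finset.sum_le_sum (fun i _ => pf_le hl i)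
  rw [Finset.sum_const, Finset.card_range, nsmul_eq_mul] at h1
  refine h1.trans ?_
  have e1 : (l : ℝ) ^ (-(1 / 2) : ℝ) = (l : ℝ) ^ (2 / 15 : ℝ) * (l : ℝ) ^ (-(19 / 30) : ℝ) := by
    rw [mulpow hl]; norm_num
  rw [e1]
  have e2 : (5120 : ℝ) * If l ≤ (l : ℝ) ^ (2 / 15 : ℝ) := by
    have h2 := hl.2
    have h3 : (l : ℝ) ^ (1 / 30 : ℝ) ≤ (l : ℝ) ^ (2 / 15 : ℝ) := rpow_mono hl (by norm_num)
    have h4 : (0 : ℝ) ≤ If l := by positivity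
    linarith
  calc (If l : ℝ) * (5120 * (l : ℝ) ^ (-(19 / 30) : ℝ)) =
      (5120 * If l) * (l : ℝ) ^ (-(19 / 30) : ℝ) := by ring
    _ ≤ _ := mul_le_mul_of_nonneg_right e2 (by have := l_pos hl; positivity)

end

end Pool.Agent.Helper99.Perm
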