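import Mathlib

set_option autoImplicit false

namespace Pool.Agent.Helper99.Perm

open Finset

section
variable {W W' : Type*} [Fintype W] [Fintype W']

open Classical in
/-- proportion of the elements of `W` satisfying `P` -/
noncomputable def Pr (P : W → Prop) : ℝ :=
  ((Finset.univ.filter P).card : ℝ) / Fintype.card W

lemma Pr_nonneg (P : W → Prop) : 0 ≤ Pr P := by unfold Pr; positivity

lemma Pr_le_iff [Nonempty W] (P : W → Prop) [DecidablePred P] (p : ℝ) :
    Pr P ≤ p ↔ ((Finset.univ.filter P).card : ℝ) ≤ p * Fintype.card W := by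
  have hW : (0 : ℝ) < Fintype.card W := by exact_mod_cast Fintype.card_pos
  have : Pr P = ((Finset.univ.filter P).card : ℝ) / Fintype.card W := by
    unfold Pr
    congr!
  rw [this, div_le_iff₀ hW]

lemma Pr_eq (P : W → Prop) [DecidablePred P] :
    Pr P = ((Finset.univ.filter P).card : ℝ) / Fintype.card W := by
  unfold Pr
  congr!

lemma Pr_mono {P Q : W → Prop} (h : ∀ w, P w → Q w) : Pr P ≤ Pr Q := by
  classical
  rw [Pr_eq P, Pr_eq Q]
  apply div_le_div_of_nonneg_right _ (by positivity)
  apply Nat.cast_le.2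
  apply Finset.card_le_card
  intro w hw
  rw [Finset.mem_filter] at hw ⊢
  exact ⟨hw.1, h w hw.2⟩

lemma Pr_add {P Q R : W → Prop} (h : ∀ w, P w → Q w ∨ R w) : Pr P ≤ Pr Q + Pr R := by
  classical
  rw [Pr_eq P, Pr_eq Q, Pr_eq R, ← add_div]
  apply div_le_div_of_nonneg_right _ (by positivity)
  have : (Finset.univ.filter P) ⊆ (Finset.univ.filter Q) ∪ (Finset.univ.filter R) := by
    intro w hw
    rw [Finset.mem_filter] at hw
    rcases h w hw.2 with h' | h'
    · exact Finset.mem_union_left _ (Finset.mem_filter.2 ⟨hw.1, h'⟩)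
    · exact Finset.mem_union_right _ (Finset.mem_filter.2 ⟨hw.1, h'⟩)
  exact_mod_cast (Finset.card_le_card this).trans (Finset.card_union_le _ _)

lemma Pr_false {P : W → Prop} (h : ∀ w, ¬ P w) : Pr P = 0 := by
  classical
  rw [Pr_eq P, Finset.filter_false_of_mem (fun w _ => h w)]
  simp

lemma Pr_eq_sum (P : W → Prop) [DecidablePred P] :
    Pr P = (∑ w : W, (if P w then (1 : ℝ) else 0)) / Fintype.card W := by
  rw [Pr_eq P, ← Finset.sum_filter, Finset.sum_const, nsmul_eq_mul, mul_one]

lemma Pr_fst [Nonempty W'] (P : W → Prop) : Pr (fun q : W × W' => P q.1) = Pr P := by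
  classical
  have hW : (Fintype.card W' : ℝ) ≠ 0 := by exact_mod_cast Fintype.card_ne_zero
  rw [Pr_eq_sum, Pr_eq_sum, Fintype.sum_prod_type]
  have : ∀ x : W, ∑ _y : W', (if P x then (1 : ℝ) else 0) =
      Fintype.card W' * (if P x then (1 : ℝ) else 0) := by
    intro x
    rw [Finset.sum_const, Finset.card_univ, nsmul_eq_mul]
  rw [Finset.sum_congr rfl (fun x _ => this x), ← Finset.mul_sum, Fintype.card_prod]
  push_cast
  rw [mul_comm (Fintype.card W : ℝ), mul_div_mul_left _ _ hW]

lemma Pr_snd [Nonempty W] (P : W' → Prop) : Pr (fun q : W × W' => P q.2) = Pr P := by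
  classical
  have hW : (Fintype.card W : ℝ) ≠ 0 := by exact_mod_cast Fintype.card_ne_zero
  rw [Pr_eq_sum, Pr_eq_sum, Fintype.sum_prod_type]
  have : ∀ _x : W, ∑ y : W', (if P y then (1 : ℝ) else 0) =
      ∑ y : W', (if P y then (1 : ℝ) else 0) := fun _ => rfl
  rw [Finset.sum_congr rfl (fun x _ => this x), Finset.sum_const, Finset.card_univ, nsmul_eq_mul,
    Fintype.card_prod]
  push_cast
  rw [mul_div_mul_left _ _ hW]

/-- Fubini type bound. -/
lemma resample [Nonempty W] (mix : W → W → W)
    (hmix : Function.Injective (fun p : W × W => (mix p.1 p.2, mix p.2 p.1)))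
    (P : W → Prop) (p : ℝ) (h : ∀ w, Pr (fun w' => P (mix w w')) ≤ p) : Pr P ≤ p := by
  classical
  have hbij : Function.Bijective (fun p : W × W => (mix p.1 p.2, mix p.2 p.1)) :=
    Finite.injective_iff_bijective.1 hmix
  have hW : (0 : ℝ) < Fintype.card W := by exact_mod_cast Fintype.card_pos
  have e1 : ∑ w : W, ∑ w' : W, (if P (mix w w') then (1 : ℝ) else 0) =
      Fintype.card W * ∑ w : W, (if P w then (1 : ℝ) else 0) := by
    calc ∑ w : W, ∑ w' : W, (if P (mix w w') then (1 : ℝ) else 0)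
        = ∑ q : W × W, (if P (mix q.1 q.2) then (1 : ℝ) else 0) := by
          rw [Fintype.sum_prod_type]
      _ = ∑ q : W × W, (if P q.1 then (1 : ℝ) else 0) :=
          Fintype.sum_equiv (Equiv.ofBijective _ hbij) _ _ (fun q => rfl)
      _ = _ := by
          rw [Fintype.sum_prod_type]
          have : ∀ x : W, ∑ _y : W, (if P x then (1 : ℝ) else 0) =
              Fintype.card W * (if P x then (1 : ℝ) else 0) := by
            intro x
            rw [Finset.sum_const, Finset.card_univ, nsmul_eq_mul]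
          rw [Finset.sum_congr rfl (fun x _ => this x), ← Finset.mul_sum]
  have h2 : ∑ w : W, ∑ w' : W, (if P (mix w w') then (1 : ℝ) else 0) ≤
      ∑ _w : W, p * Fintype.card W := by
    apply Finset.sum_le_sum
    intro w _
    have := h w
    rw [Pr_eq_sum, div_le_iff₀ hW] at this
    exact this
  rw [e1, Finset.sum_const, Finset.card_univ, nsmul_eq_mul] at h2
  rw [Pr_eq_sum, div_le_iff₀ hW]
  exact le_of_mul_le_mul_left h2 hW

end

section
variable {n : ℕ} {K : Type*}

/-- Override `y` by `r` on `T`. -/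
def ov (T : Finset (Fin n)) (y r : Fin n → K) : Fin n → K := fun i => if i ∈ T then r i else y i

lemma ov_mem {T : Finset (Fin n)} {y r : Fin n → K} {i : Fin n} (h : i ∈ T) : ov T y r i = r i := by
  simp [ov, h]

lemma ov_notMem {T : Finset (Fin n)} {y r : Fin n → K} {i : Fin n} (h : i ∉ T) :
    ov T y r i = y i := by
  simp [ov, h]

lemma ov_mix_injective (T : Finset (Fin n)) :
    Function.Injective (fun p : (Fin n → K) × (Fin n → K) => (ov T p.1 p.2, ov T p.2 p.1)) := by
  rintro ⟨y, r⟩ ⟨y', r'⟩ h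
  have h1 : ov T y r = ov T y' r' := congrArg Prod.fst h
  have h2 : ov T r y = ov T r' y' := congrArg Prod.snd h
  apply Prod.ext
  · funext i
    by_cases hi : i ∈ T
    · have := congrFun h2 i
      rwa [ov_mem hi, ov_mem hi] at this
    · have := congrFun h1 i
      rwa [ov_notMem hi, ov_notMem hi] at this
  · funext i
    by_cases hi : i ∈ T
    · have := congrFun h1 i
      rwa [ov_mem hi, ov_mem hi] at this
    · have := congrFun h2 i
      rwa [ov_notMem hi, ov_notMem hi] at this

lemma ov_mix2_injective (T : Finset (Fin n)) :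
    Function.Injective (fun p : ((Fin n → K) × (Fin n → K)) × ((Fin n → K) × (Fin n → K)) =>
      ((ov T p.1.1 p.2.1, ov T p.1.2 p.2.2), (ov T p.2.1 p.1.1, ov T p.2.2 p.1.2))) := by
  rintro ⟨⟨x, y⟩, ⟨r, s⟩⟩ ⟨⟨x', y'⟩, ⟨r', s'⟩⟩ h
  have h1 : ov T x r = ov T x' r' := congrArg (fun z => z.1.1) h
  have h2 : ov T y s = ov T y' s' := congrArg (fun z => z.1.2) h
  have h3 : ov T r x = ov T r' x' := congrArg (fun z => z.2.1) h
  have h4 : ov T s y = ov T s' y' := congrArg (fun z => z.2.2) h
  have a1 := @ov_mix_injective n K T (x, r) (x', r') (Prod.ext h1 h3)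
  have a2 := @ov_mix_injective n K T (y, s) (y', s') (Prod.ext h2 h4)
  have b1 := Prod.ext_iff.1 a1
  have b2 := Prod.ext_iff.1 a2
  simp only at b1 b2
  rw [b1.1, b1.2, b2.1, b2.2]

end

end Pool.Agent.Helper99.Perm
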