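import Pool.Agent.Helper99.Perm.Step
import Pool.Agent.Helper99.Perm.Prob

set_option autoImplicit false

namespace Pool.Agent.Helper99.Perm

open Finset

variable {n : ℕ}

lemma card_row {M m q : ℕ} (hm : 0 < m) (hq : 0 < q) (hM : m * q = M) (k : ℕ) (hk : k < m) :
    ∑ v : Fin M, (if (v : ℕ) / q = k then (1 : ℝ) else 0) = q := by
  have : NeZero m := ⟨hm.ne'⟩
  have h := sum_row hM (fun δ : ZMod m => if δ = (k : ZMod m) then (1 : ℝ) else 0)
  rw [Finset.sum_ite_eq' Finset.univ, if_pos (Finset.mem_univ _), mul_one] at h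
  rw [← h]
  apply Finset.sum_congr rfl
  intro v _
  have hlt : (v : ℕ) / q < m := by
    rw [Nat.div_lt_iff_lt_mul hq, hM]; exact v.2
  have : ((v : ℕ) / q = k) ↔ ((((v : ℕ) / q : ℕ) : ZMod m) = (k : ZMod m)) := by
    rw [ZMod.natCast_eq_natCast_iff', Nat.mod_eq_of_lt hk, Nat.mod_eq_of_lt hlt]
  simp only [this]

lemma sum_row_eq {M m q : ℕ} (hm : 0 < m) (hq : 0 < q) (hM : m * q = M) (i j : Fin n)
    (hij : i ≠ j) (G : (Fin n → Fin M) → ℝ) (hG : ∀ x v, G (Function.update x j v) = G x) :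
    ∑ x : Fin n → Fin M, (if (x j : ℕ) / q = (x i : ℕ) / q then G x else 0) =
      (∑ x : Fin n → Fin M, G x) / m := by
  have hmr : (m : ℝ) ≠ 0 := by exact_mod_cast hm.ne'
  have hqr : (q : ℝ) ≠ 0 := by exact_mod_cast hq.ne'
  have h := sum_sum_update (fun x : Fin n → Fin M =>
    (if (x j : ℕ) / q = (x i : ℕ) / q then G x else 0)) j
  have h' : ∀ x : Fin n → Fin M, ∑ v : Fin M, (fun x : Fin n → Fin M =>
    (if (x j : ℕ) / q = (x i : ℕ) / q then G x else 0)) (Function.update x j v) = q * G x := by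
    intro x
    simp only [Function.update_self, Function.update_of_ne hij, hG]
    have hlt : (x i : ℕ) / q < m := by
      rw [Nat.div_lt_iff_lt_mul hq, hM]; exact (x i).2
    rw [← card_row hm hq hM ((x i : ℕ) / q) hlt, Finset.sum_mul]
    apply Finset.sum_congr rfl
    intro v _
    split_ifs <;> simp
  rw [Finset.sum_congr rfl (fun x _ => h' x), ← Finset.mul_sum, Fintype.card_fin] at h
  have hMr : (M : ℝ) = (m : ℝ) * q := by rw [← hM]; push_cast; ring
  rw [hMr] at h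
  rw [eq_div_iff hmr]
  have h2 : (q : ℝ) * (∑ x : Fin n → Fin M, (if (x j : ℕ) / q = (x i : ℕ) / q then G x else 0) * m) =
      q * ∑ x : Fin n → Fin M, G x := by
    rw [h, ← Finset.sum_mul]; ring
  rw [← Finset.sum_mul] at h2
  exact mul_left_cancel₀ hqr h2

/-- increasing quadruples of positions in the same block of length `w0` -/
def quadsPos (T : Finset (Fin n)) (t0 w0 : ℕ) : Finset (Fin n × Fin n × Fin n × Fin n) :=
  (T ×ˢ T ×ˢ T ×ˢ T).filter (fun p => (p.1 < p.2.1 ∧ p.2.1 < p.2.2.1 ∧ p.2.2.1 < p.2.2.2) ∧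
    (((p.2.1 : ℕ) - t0) / w0 = ((p.1 : ℕ) - t0) / w0 ∧
     ((p.2.2.1 : ℕ) - t0) / w0 = ((p.1 : ℕ) - t0) / w0 ∧
     ((p.2.2.2 : ℕ) - t0) / w0 = ((p.1 : ℕ) - t0) / w0))

def quads {M : ℕ} (T : Finset (Fin n)) (t0 w0 q : ℕ) (x : Fin n → Fin M) :
    Finset (Fin n × Fin n × Fin n × Fin n) :=
  (quadsPos T t0 w0).filter (fun p =>
    (x p.2.1 : ℕ) / q = (x p.1 : ℕ) / q ∧ (x p.2.2.1 : ℕ) / q = (x p.1 : ℕ) / q ∧
    (x p.2.2.2 : ℕ) / q = (x p.1 : ℕ) / q)

lemma card_quadsPos (T : Finset (Fin n)) (t0 w0 : ℕ) (hw0 : 0 < w0)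
    (hT : ∀ p ∈ T, t0 ≤ (p : ℕ)) : (quadsPos T t0 w0).card ≤ T.card * w0 ^ 3 := by
  classical
  have hmaps : ∀ p ∈ quadsPos T t0 w0, p.1 ∈ T := fun p hp =>
    (Finset.mem_product.1 (Finset.mem_filter.1 hp).1).1
  rw [Finset.card_eq_sum_card_fiberwise (f := Prod.fst) (t := T) hmaps]
  rw [← smul_eq_mul, ← Finset.sum_const]
  apply Finset.sum_le_sum
  intro e he
  set B : Finset (Fin n) := T.filter (fun p : Fin n => ((p : ℕ) - t0) / w0 = ((e : ℕ) - t0) / w0)
    with hB
  have hBc : B.card ≤ w0 := by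
    apply card_filter_div_le T (fun p : Fin n => (p : ℕ) - t0) _ w0 _ hw0
    intro p hp p' hp' h
    have h1 := hT p hp
    have h2 := hT p' hp'
    apply Fin.ext
    simp only at h
    omega
  calc ((quadsPos T t0 w0).filter (fun p => p.1 = e)).card
      ≤ (B ×ˢ B ×ˢ B).card := by
        apply Finset.card_le_card_of_injOn (fun p => p.2)
        · intro p hp
          obtain ⟨hp1, hp2⟩ := Finset.mem_filter.1 (Finset.mem_coe.1 hp)
          obtain ⟨hmem, -, hb1, hb2, hb3⟩ := Finset.mem_filter.1 hp1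
          rw [hp2] at hb1 hb2 hb3
          simp only [Finset.mem_product] at hmem
          simp only [Finset.coe_product, Set.mem_prod, Finset.mem_coe, hB, Finset.mem_filter]
          exact ⟨⟨hmem.2.1, hb1⟩, ⟨hmem.2.2.1, hb2⟩, ⟨hmem.2.2.2, hb3⟩⟩
        · intro p hp p' hp' h
          have h1 := (Finset.mem_filter.1 (Finset.mem_coe.1 hp)).2
          have h2 := (Finset.mem_filter.1 (Finset.mem_coe.1 hp')).2
          exact Prod.ext (h1.trans h2.symm) h
    _ = B.card * (B.card * B.card) := by rw [Finset.card_product, Finset.card_product]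
    _ ≤ w0 * (w0 * w0) := Nat.mul_le_mul hBc (Nat.mul_le_mul hBc hBc)
    _ = w0 ^ 3 := by ring

lemma sum_quads {M m q : ℕ} (hm : 0 < m) (hq : 0 < q) (hM : m * q = M) (T : Finset (Fin n))
    (t0 w0 : ℕ) : ∑ x : Fin n → Fin M, ((quads T t0 w0 q x).card : ℝ) =
      (quadsPos T t0 w0).card * (Fintype.card (Fin n → Fin M) / (m : ℝ) ^ 3) := by
  classical
  have e1 : ∀ x : Fin n → Fin M, ((quads T t0 w0 q x).card : ℝ) =
      ∑ p ∈ quadsPos T t0 w0, (if (x p.2.1 : ℕ) / q = (x p.1 : ℕ) / q ∧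
        (x p.2.2.1 : ℕ) / q = (x p.1 : ℕ) / q ∧
        (x p.2.2.2 : ℕ) / q = (x p.1 : ℕ) / q then (1 : ℝ) else 0) := by
    intro x
    unfold quads
    rw [← Finset.sum_filter, Finset.sum_const, nsmul_eq_mul, mul_one]
  simp only [e1]
  rw [Finset.sum_comm, ← nsmul_eq_mul, ← Finset.sum_const]
  apply Finset.sum_congr rfl
  rintro ⟨p1, p2, p3, p4⟩ hp
  obtain ⟨-, ⟨h12, h23, h34⟩, -⟩ := Finset.mem_filter.1 hp
  simp only at h12 h23 h34 ⊢
  have hsplit : ∀ x : Fin n → Fin M, (if (x p2 : ℕ) / q = (x p1 : ℕ) / q ∧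
        (x p3 : ℕ) / q = (x p1 : ℕ) / q ∧
        (x p4 : ℕ) / q = (x p1 : ℕ) / q then (1 : ℝ) else 0) =
      (if (x p4 : ℕ) / q = (x p1 : ℕ) / q then
        (if (x p3 : ℕ) / q = (x p1 : ℕ) / q then
          (if (x p2 : ℕ) / q = (x p1 : ℕ) / q then (1 : ℝ) else 0) else 0) else 0) := by
    intro x
    split_ifs <;> simp_all
  simp only [hsplit]
  have n14 : p1 ≠ p4 := (h12.trans (h23.trans h34)).ne
  have n24 : p2 ≠ p4 := (h23.trans h34).ne
  have n34 : p3 ≠ p4 := h34.ne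
  have n13 : p1 ≠ p3 := (h12.trans h23).ne
  have n23 : p2 ≠ p3 := h23.ne
  have n12 : p1 ≠ p2 := h12.ne
  rw [sum_row_eq hm hq hM p1 p4 n14 (fun x => (if (x p3 : ℕ) / q = (x p1 : ℕ) / q then
          (if (x p2 : ℕ) / q = (x p1 : ℕ) / q then (1 : ℝ) else 0) else 0))
      (by intro x v; simp only [Function.update_of_ne n34, Function.update_of_ne n14,
            Function.update_of_ne n24])]
  rw [sum_row_eq hm hq hM p1 p3 n13 (fun x =>
          (if (x p2 : ℕ) / q = (x p1 : ℕ) / q then (1 : ℝ) else 0))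
      (by intro x v; simp only [Function.update_of_ne n13, Function.update_of_ne n23])]
  rw [sum_row_eq hm hq hM p1 p2 n12 (fun _ => (1 : ℝ)) (by intro x v; rfl)]
  rw [Finset.sum_const, Finset.card_univ, nsmul_eq_mul, mul_one, div_div, div_div]
  congr 1
  ring

theorem quads_prob {M m q : ℕ} (hm : 0 < m) (hq : 0 < q) (hM : m * q = M) (T : Finset (Fin n))
    (t0 w0 : ℕ) (hw0 : 0 < w0) (hT : ∀ p ∈ T, t0 ≤ (p : ℕ)) (θ : ℝ) (hθ : 0 < θ) :
    Pr (fun x : Fin n → Fin M => θ < ((quads T t0 w0 q x).card : ℝ)) ≤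
      T.card * w0 ^ 3 / (m : ℝ) ^ 3 / θ := by
  classical
  have hMpos : 0 < M := by rw [← hM]; positivity
  have : Nonempty (Fin M) := ⟨⟨0, hMpos⟩⟩
  rw [Pr_le_iff]
  have h1 : ((Finset.univ.filter (fun x : Fin n → Fin M =>
      θ < ((quads T t0 w0 q x).card : ℝ))).card : ℝ) * θ ≤
      ∑ x : Fin n → Fin M, ((quads T t0 w0 q x).card : ℝ) := by
    rw [← nsmul_eq_mul, ← Finset.sum_const, Finset.sum_filter]
    apply Finset.sum_le_sum
    intro x _
    split_ifs with h
    · exact h.le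
    · positivity
  rw [sum_quads hm hq hM] at h1
  have h2 : ((quadsPos T t0 w0).card : ℝ) ≤ T.card * (w0 : ℝ) ^ 3 := by
    exact_mod_cast card_quadsPos T t0 w0 hw0 hT
  rw [← le_div_iff₀ hθ] at h1
  refine h1.trans ?_
  rw [div_le_iff₀ hθ]
  have h3 : (T.card : ℝ) * (w0 : ℝ) ^ 3 / (m : ℝ) ^ 3 / θ * (Fintype.card (Fin n → Fin M) : ℝ) * θ =
      (T.card * (w0 : ℝ) ^ 3) * (Fintype.card (Fin n → Fin M) / (m : ℝ) ^ 3) := by
    field_simp
  rw [h3]
  exact mul_le_mul_of_nonneg_right h2 (by positivity)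

/-- Removing few points one obtains multiplicity at most three. -/
theorem exists_mult {M : ℕ} (T L : Finset (Fin n)) (hLT : L ⊆ T) (t0 w0 q : ℕ)
    (x : Fin n → Fin M) : ∃ L' ⊆ L, (L.card ≤ L'.card + (quads T t0 w0 q x).card) ∧
      ∀ i j : ℕ, (L'.filter (fun p : Fin n => ((p : ℕ) - t0) / w0 = i ∧
        (x p : ℕ) / q = j)).card ≤ 3 := by
  classical
  set pre : Fin n → Finset (Fin n) := fun e => L.filter (fun e' : Fin n => e' < e ∧
    ((e' : ℕ) - t0) / w0 = ((e : ℕ) - t0) / w0 ∧ (x e' : ℕ) / q = (x e : ℕ) / q) with hpre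
  set L' : Finset (Fin n) := L.filter (fun e => (pre e).card < 3) with hL'
  refine ⟨L', Finset.filter_subset _ _, ?_, ?_⟩
  · -- count the removed points
    have hsplit : L.card = L'.card + (L.filter (fun e => ¬ (pre e).card < 3)).card := by
      rw [hL', Finset.card_filter_add_card_filter_not]
    rw [hsplit]
    apply Nat.add_le_add_left
    have hex : ∀ e ∈ L.filter (fun e => ¬ (pre e).card < 3), ∃ p ∈ quads T t0 w0 q x,
        p.2.2.2 = e := by
      intro e he
      obtain ⟨heL, he3⟩ := Finset.mem_filter.1 he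
      push Not at he3
      obtain ⟨s, hs1, hs2⟩ := Finset.exists_subset_card_eq he3
      -- order the three elements
      set o := s.orderEmbOfFin hs2 with ho
      have hmem : ∀ i, o i ∈ pre e := fun i => hs1 (Finset.orderEmbOfFin_mem s hs2 i)
      have h01 : o 0 < o 1 := o.strictMono (by decide)
      have h12 : o 1 < o 2 := o.strictMono (by decide)
      have m0 := Finset.mem_filter.1 (hmem 0)
      have m1 := Finset.mem_filter.1 (hmem 1)
      have m2 := Finset.mem_filter.1 (hmem 2)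
      refine ⟨(o 0, o 1, o 2, e), ?_, rfl⟩
      unfold quads quadsPos
      rw [Finset.mem_filter, Finset.mem_filter]
      simp only [Finset.mem_product]
      refine ⟨⟨⟨hLT m0.1, hLT m1.1, hLT m2.1, hLT heL⟩, ⟨h01, h12, m2.2.1⟩, ?_, ?_, ?_⟩, ?_, ?_, ?_⟩
      · rw [m1.2.2.1, m0.2.2.1]
      · rw [m2.2.2.1, m0.2.2.1]
      · rw [m0.2.2.1]
      · rw [m1.2.2.2, m0.2.2.2]
      · rw [m2.2.2.2, m0.2.2.2]
      · rw [m0.2.2.2]
    have hsub : L.filter (fun e => ¬ (pre e).card < 3) ⊆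
        (quads T t0 w0 q x).image (fun p => p.2.2.2) := by
      intro e he
      obtain ⟨p, hp, hpe⟩ := hex e he
      exact Finset.mem_image.2 ⟨p, hp, hpe⟩
    exact (Finset.card_le_card hsub).trans Finset.card_image_le
  · intro i j
    by_contra hcon
    push Not at hcon
    set F : Finset (Fin n) := L'.filter (fun p : Fin n => ((p : ℕ) - t0) / w0 = i ∧
        (x p : ℕ) / q = j) with hF
    have hne : F.Nonempty := Finset.card_pos.1 (by omega)
    set e := F.max' hne with he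
    have heF : e ∈ F := Finset.max'_mem F hne
    have heL' := (Finset.mem_filter.1 heF).1
    have hpre3 : (pre e).card < 3 := (Finset.mem_filter.1 heL').2
    have hsub : F.erase e ⊆ pre e := by
      intro e' he'
      obtain ⟨hne', he'F⟩ := Finset.mem_erase.1 he'
      have h1 := Finset.mem_filter.1 he'F
      have h2 := Finset.mem_filter.1 heF
      rw [hpre, Finset.mem_filter]
      refine ⟨(Finset.mem_filter.1 h1.1).1, ?_, ?_, ?_⟩
      · exact lt_of_le_of_ne (Finset.le_max' F e' he'F) hne'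
      · rw [h1.2.1, h2.2.1]
      · rw [h1.2.2, h2.2.2]
    have := Finset.card_le_card hsub
    rw [Finset.card_erase_of_mem heF] at this
    omega

end Pool.Agent.Helper99.Perm
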