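import Pool.Agent.Helper99.Perm.Chain
import Pool.Agent.Helper99.Perm.Quads
import Pool.Agent.Helper99.Perm.Params

set_option autoImplicit false

namespace Pool.Agent.Helper99.Perm

open Finset

variable {n : ℕ}

/-- positions `u ≤ p < u + g` -/
def Blk (u g : ℕ) : Finset (Fin n) := Finset.univ.filter (fun p : Fin n => u ≤ (p : ℕ) ∧ (p : ℕ) < u + g)

lemma mem_Blk {u g : ℕ} {p : Fin n} : p ∈ (Blk u g : Finset (Fin n)) ↔ u ≤ (p : ℕ) ∧ (p : ℕ) < u + g := by
  simp [Blk]

lemma card_Blk {u g : ℕ} (h : u + g ≤ n) : (Blk u g : Finset (Fin n)).card = g := by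
  have e : ((Blk u g : Finset (Fin n)).map Fin.valEmbedding) = Finset.Ico u (u + g) := by
    ext k
    simp only [Finset.mem_map, mem_Blk, Fin.valEmbedding_apply, Finset.mem_Ico]
    constructor
    · rintro ⟨p, hp, rfl⟩; exact hp
    · intro hk; exact ⟨⟨k, by omega⟩, hk, rfl⟩
  rw [← Finset.card_map Fin.valEmbedding, e]
  simp

theorem absorb {M l : ℕ} (hl : Large l) (hdiv : ∀ d, 0 < d → d ≤ n → d ∣ M) (hM : 0 < M)
    (x : Fin n → Fin M) (t0 f : ℕ) (hf : f ≤ 3 * l) (L : Finset (Fin n))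
    (hLT : L ⊆ Blk t0 f) (hLcard : L.card ≤ l) (hx : Set.InjOn x (L : Set (Fin n)))
    (hquads : ((quads (Blk t0 f) t0 (w0f l) (M / Df l) x).card : ℝ) ≤ (l : ℝ) ^ (1 / 3 : ℝ))
    (u0 g : ℕ) (hg : u0 + g ≤ n) (hgl : 1.55 * (l : ℝ) ≤ g) :
    Pr (fun r : Fin n → Fin M => ¬ ∃ V ⊆ (Blk u0 g : Finset (Fin n)),
      Sim x r L V ⌊1000000 * (l : ℝ) ^ (1 / 3 : ℝ)⌋₊) ≤ (l : ℝ) ^ (-(1 / 2) : ℝ) := by
  classical
  have hlp := l_pos hl
  have hne : Nonempty (Fin M) := ⟨⟨0, hM⟩⟩
  have hlg : (l : ℝ) ≤ g := by linarith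
  have hlg' : l ≤ g := by exact_mod_cast hlg
  have hln : l ≤ n := by omega
  have hmf_le : ∀ i, mf l i ≤ l := fun i => by exact_mod_cast mf_le_l hl i
  have hmf_dvd : ∀ i, mf l i ∣ M := fun i => hdiv _ (mf_pos hl i) ((hmf_le i).trans hln)
  have hDf_le : Df l ≤ n := by
    have h1 := mf_ge2 hl 0
    have h2 := hmf_le 0
    omega
  have hDf_dvd : Df l ∣ M := hdiv _ (Df_one hl) hDf_le
  obtain ⟨L', hL'L, hL'card, hmult⟩ := exists_mult (Blk t0 f) L hLT t0 (w0f l) (M / Df l) x
  -- blocks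
  set S : ℕ → Finset (Fin n) := fun i => Blk (u0 + ∑ j ∈ range i, sf l j) (sf l i) with hS
  have hsum_mono : ∀ i j : ℕ, i < j →
      ∑ k ∈ range i, sf l k + sf l i ≤ ∑ k ∈ range j, sf l k := by
    intro i j hij
    rw [← Finset.sum_range_succ]
    exact Finset.sum_le_sum_of_subset (Finset.range_mono hij)
  have hsum_tot : ∑ k ∈ range (If l), sf l k ≤ g := by
    have h1 := sum_sf hl
    have h2 : ((∑ k ∈ range (If l), sf l k : ℕ) : ℝ) ≤ g := by
      push_cast
      linarith
    exact_mod_cast h2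
  have hSdisj : ∀ i < If l, ∀ j < If l, i ≠ j → Disjoint (S i) (S j) := by
    intro i _ j _ hij
    rw [Finset.disjoint_left]
    intro p hp hp'
    simp only [hS, mem_Blk] at hp hp'
    rcases lt_or_gt_of_ne hij with h | h
    · have := hsum_mono i j h; omega
    · have := hsum_mono j i h; omega
  have hSsub : (Finset.range (If l)).biUnion S ⊆ (Blk u0 g : Finset (Fin n)) := by
    intro p hp
    obtain ⟨i, hi, hpi⟩ := Finset.mem_biUnion.1 hp
    have hi' := Finset.mem_range.1 hi
    simp only [hS, mem_Blk] at hpi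
    have := hsum_mono i (If l) hi'
    rw [mem_Blk]
    omega
  have hchain := chain (K := Fin M) x L' S (lamf l) (cf l) (pf l) (If l) hSdisj
    (fun i => by unfold pf; positivity)
    (by
      intro i hi L'' hL'' hcard''
      have hScard : (S i).card = sf l i := by
        apply card_Blk
        have := hsum_mono i (If l) hi
        omega
      have hst := step (n := n) (M := M) (m := mf l i) (q := M / mf l i) (mA := Df l)
        (qA := M / Df l) (mf_pos hl i)
        (Nat.div_pos (Nat.le_of_dvd hM (hmf_dvd i)) (mf_pos hl i))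
        (Nat.mul_div_cancel' (hmf_dvd i)) (Df_one hl)
        (Nat.div_pos (Nat.le_of_dvd hM hDf_dvd) (Df_one hl))
        (Nat.mul_div_cancel' hDf_dvd) x L''
        (hx.mono (Finset.coe_subset.2 (hL''.trans hL'L))) t0 (w0f l) f (w0f_one hl)
        (fun p hp => mem_Blk.1 (hLT (hL'L (hL'' hp))))
        (fun a b => (Finset.card_le_card (Finset.filter_subset_filter _ hL'')).trans (hmult a b))
        (lamf l i) (lamf_pos hl i) hcard'' (S i) (u0 + ∑ j ∈ range i, sf l j) (sf l i)
        (fun p hp => mem_Blk.1 hp) hScard (sf_pos hl i) (bLf l i) (bSf l i) (bLf_pos hl i)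
        (bSf_pos hl i) (cond1 hl i f hf) (cond2 hl i) (cond3 hl i) (lam_le_4s hl i) (cond5 hl i)
        (cf l i) (Nat.le_ceil _)
      rw [Pr_le_iff]
      refine le_trans (le_of_eq ?_) hst
      rw [lamf_succ hl])
    (by
      have h1 : lamf l 0 = l := by simp [lamf]
      rw [h1]
      exact_mod_cast (Finset.card_le_card hL'L).trans hLcard)
  refine le_trans (Pr_mono ?_) (hchain.trans (sum_pf hl))
  intro r hr
  rintro ⟨U, hU, V, hV, hsim, hcard⟩
  apply hr
  -- U = L'
  have hUL' : U = L' := by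
    apply Finset.eq_of_subset_of_card_le hU
    have h1 : (L'.card : ℝ) - U.card < 1 := lt_of_le_of_lt hcard (lam_final hl)
    have h2 : (L'.card : ℝ) < U.card + 1 := by linarith
    have h3 : L'.card < U.card + 1 := by exact_mod_cast h2
    omega
  subst hUL'
  have hVcard := hsim.card_eq
  have hVB : V ⊆ (Blk u0 g : Finset (Fin n)) := hV.trans hSsub
  have hBcard : (Blk u0 g : Finset (Fin n)).card = g := card_Blk hg
  have hrest : (L \ U).card ≤ ((Blk u0 g : Finset (Fin n)) \ V).card := by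
    rw [Finset.card_sdiff_of_subset hL'L, Finset.card_sdiff_of_subset hVB, hBcard]
    omega
  obtain ⟨V2, hV2, hV2card⟩ := Finset.exists_subset_card_eq hrest
  have hsim2 : Sim x r (L \ U) V2 (L \ U).card := Sim.of_card_eq x r hV2card.symm
  have hd2 : Disjoint V V2 := Finset.disjoint_sdiff.mono_right hV2
  have hun := hsim.union hsim2 Finset.disjoint_sdiff hd2
  rw [Finset.union_sdiff_of_subset hL'L] at hun
  refine ⟨V ∪ V2, Finset.union_subset hVB (hV2.trans Finset.sdiff_subset), hun.mono ?_⟩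
  apply Nat.le_floor
  push_cast
  have h1 := sum_cf hl
  have h2 : ((L \ U).card : ℝ) ≤ (l : ℝ) ^ (1 / 3 : ℝ) := by
    refine le_trans ?_ hquads
    have : (L \ U).card ≤ (quads (Blk t0 f) t0 (w0f l) (M / Df l) x).card := by
      rw [Finset.card_sdiff_of_subset hL'L]; omega
    exact_mod_cast this
  have h3 : 0 ≤ (l : ℝ) ^ (1 / 3 : ℝ) := by positivity
  linarith

end Pool.Agent.Helper99.Perm
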