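import Mathlib

set_option autoImplicit false

namespace Pool.Agent.Helper99.Perm

open Finset

variable {n : ℕ} {K : Type*} [LinearOrder K]

/-- `Sim x y A B c`: the points of the first sequence with positions in `A` and the points of the
second sequence with positions in `B` can be matched by a bijection (given by the set `G` of pairs)
whose pairs are coloured by `c` colours, so that on every colour class the bijection preserves the
order of positions and the order of the values. -/
def Sim (x y : Fin n → K) (A B : Finset (Fin n)) (c : ℕ) : Prop :=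
  ∃ (G : Finset (Fin n × Fin n)) (col : Fin n × Fin n → ℕ),
    G.image Prod.fst = A ∧ G.image Prod.snd = B ∧
    Set.InjOn Prod.fst (G : Set (Fin n × Fin n)) ∧ Set.InjOn Prod.snd (G : Set (Fin n × Fin n)) ∧
    (∀ p ∈ G, col p < c) ∧
    ∀ p ∈ G, ∀ q ∈ G, col p = col q →
      ((p.1 < q.1 ↔ p.2 < q.2) ∧ (x p.1 < x q.1 ↔ y p.2 < y q.2))

lemma Sim.mono {x y : Fin n → K} {A B : Finset (Fin n)} {c c' : ℕ} (h : Sim x y A B c)
    (hc : c ≤ c') : Sim x y A B c' := by
  obtain ⟨G, col, h1, h2, h3, h4, h5, h6⟩ := h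
  exact ⟨G, col, h1, h2, h3, h4, fun p hp => lt_of_lt_of_le (h5 p hp) hc, h6⟩

lemma Sim.card_eq {x y : Fin n → K} {A B : Finset (Fin n)} {c : ℕ} (h : Sim x y A B c) :
    A.card = B.card := by
  obtain ⟨G, col, h1, h2, h3, h4, h5, h6⟩ := h
  rw [← h1, ← h2, Finset.card_image_of_injOn h3, Finset.card_image_of_injOn h4]

lemma Sim.symm {x y : Fin n → K} {A B : Finset (Fin n)} {c : ℕ} (h : Sim x y A B c) :
    Sim y x B A c := by
  obtain ⟨G, col, h1, h2, h3, h4, h5, h6⟩ := h
  refine ⟨G.image Prod.swap, fun p => col p.swap, ?_, ?_, ?_, ?_, ?_, ?_⟩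
  · rw [Finset.image_image]; exact h2
  · rw [Finset.image_image]; exact h1
  · intro p hp q hq hpq
    simp only [Finset.coe_image, Set.mem_image, Finset.mem_coe] at hp hq
    obtain ⟨p', hp', rfl⟩ := hp
    obtain ⟨q', hq', rfl⟩ := hq
    have : p' = q' := h4 hp' hq' hpq
    rw [this]
  · intro p hp q hq hpq
    simp only [Finset.coe_image, Set.mem_image, Finset.mem_coe] at hp hq
    obtain ⟨p', hp', rfl⟩ := hp
    obtain ⟨q', hq', rfl⟩ := hq
    have : p' = q' := h3 hp' hq' hpq
    rw [this]
  · intro p hp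
    obtain ⟨p', hp', rfl⟩ := Finset.mem_image.1 hp
    simpa using h5 p' hp'
  · intro p hp q hq hpq
    obtain ⟨p', hp', rfl⟩ := Finset.mem_image.1 hp
    obtain ⟨q', hq', rfl⟩ := Finset.mem_image.1 hq
    have := h6 p' hp' q' hq' (by simpa using hpq)
    exact ⟨this.1.symm, this.2.symm⟩

lemma Sim.empty (x y : Fin n → K) : Sim x y ∅ ∅ 0 := by
  refine ⟨∅, fun _ => 0, by simp, by simp, by simp, by simp, by simp, by simp⟩

lemma Sim.union {x y : Fin n → K} {A B A' B' : Finset (Fin n)} {c c' : ℕ}
    (h : Sim x y A B c) (h' : Sim x y A' B' c') (hA : Disjoint A A') (hB : Disjoint B B') :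
    Sim x y (A ∪ A') (B ∪ B') (c + c') := by
  classical
  obtain ⟨G, col, h1, h2, h3, h4, h5, h6⟩ := h
  obtain ⟨G', col', h1', h2', h3', h4', h5', h6'⟩ := h'
  have hdis : ∀ p ∈ G, ∀ q ∈ G', p.1 ≠ q.1 := by
    intro p hp q hq hpq
    have hpA : p.1 ∈ A := by rw [← h1]; exact Finset.mem_image_of_mem _ hp
    have hqA : q.1 ∈ A' := by rw [← h1']; exact Finset.mem_image_of_mem _ hq
    exact (Finset.disjoint_left.1 hA) hpA (hpq ▸ hqA)
  have hdis2 : ∀ p ∈ G, ∀ q ∈ G', p.2 ≠ q.2 := by
    intro p hp q hq hpq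
    have hpA : p.2 ∈ B := by rw [← h2]; exact Finset.mem_image_of_mem _ hp
    have hqA : q.2 ∈ B' := by rw [← h2']; exact Finset.mem_image_of_mem _ hq
    exact (Finset.disjoint_left.1 hB) hpA (hpq ▸ hqA)
  refine ⟨G ∪ G', fun p => if p ∈ G then col p else c + col' p, ?_, ?_, ?_, ?_, ?_, ?_⟩
  · rw [Finset.image_union, h1, h1']
  · rw [Finset.image_union, h2, h2']
  · intro p hp q hq hpq
    rw [Finset.coe_union] at hp hq
    rcases hp with hp | hp <;> rcases hq with hq | hq
    · exact h3 hp hq hpq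
    · exact absurd hpq (hdis p hp q hq)
    · exact absurd hpq.symm (hdis q hq p hp)
    · exact h3' hp hq hpq
  · intro p hp q hq hpq
    rw [Finset.coe_union] at hp hq
    rcases hp with hp | hp <;> rcases hq with hq | hq
    · exact h4 hp hq hpq
    · exact absurd hpq (hdis2 p hp q hq)
    · exact absurd hpq.symm (hdis2 q hq p hp)
    · exact h4' hp hq hpq
  · intro p hp
    rcases Finset.mem_union.1 hp with hp' | hp'
    · simp only [hp', if_true]
      have := h5 p hp'
      omega
    · by_cases hpG : p ∈ G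
      · simp only [hpG, if_true]
        have := h5 p hpG
        omega
      · simp only [hpG, if_false]
        have := h5' p hp'
        omega
  · intro p hp q hq hpq
    have key : ∀ r ∈ G ∪ G', r ∉ G → r ∈ G' := by
      intro r hr hr'
      rcases Finset.mem_union.1 hr with h | h
      · exact absurd h hr'
      · exact h
    by_cases hpG : p ∈ G <;> by_cases hqG : q ∈ G
    · simp only [hpG, hqG, if_true] at hpq
      exact h6 p hpG q hqG hpq
    · simp only [hpG, hqG, if_true, if_false] at hpq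
      have := h5 p hpG
      omega
    · simp only [hpG, hqG, if_true, if_false] at hpq
      have := h5 q hqG
      omega
    · simp only [hpG, hqG, if_false] at hpq
      exact h6' p (key p hp hpG) q (key q hq hqG) (by omega)

lemma Sim.of_card_eq (x y : Fin n → K) {A B : Finset (Fin n)} (h : A.card = B.card) :
    Sim x y A B A.card := by
  classical
  let e : A ≃ Fin A.card := A.equivFin
  let e' : B ≃ Fin A.card := B.equivFinOfCardEq h.symm
  let φ : Fin A.card → Fin n × Fin n := fun i => ((e.symm i : Fin n), (e'.symm i : Fin n))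
  have hφ : Function.Injective φ := by
    intro i j hij
    have : (e.symm i : Fin n) = (e.symm j : Fin n) := (Prod.ext_iff.1 hij).1
    exact e.symm.injective (Subtype.ext this)
  refine ⟨Finset.univ.image φ, fun p => if hp : p.1 ∈ A then (e ⟨p.1, hp⟩ : ℕ) else 0,
    ?_, ?_, ?_, ?_, ?_, ?_⟩
  · rw [Finset.image_image]
    ext a
    simp only [Finset.mem_image, Finset.mem_univ, true_and, Function.comp]
    constructor
    · rintro ⟨i, rfl⟩; exact (e.symm i).2
    · intro ha; exact ⟨e ⟨a, ha⟩, by simp [φ]⟩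
  · rw [Finset.image_image]
    ext a
    simp only [Finset.mem_image, Finset.mem_univ, true_and, Function.comp]
    constructor
    · rintro ⟨i, rfl⟩; exact (e'.symm i).2
    · intro ha; exact ⟨e' ⟨a, ha⟩, by simp [φ]⟩
  · intro p hp q hq hpq
    simp only [Finset.coe_image, Finset.coe_univ, Set.image_univ, Set.mem_range] at hp hq
    obtain ⟨i, rfl⟩ := hp
    obtain ⟨j, rfl⟩ := hq
    have : i = j := e.symm.injective (Subtype.ext hpq)
    rw [this]
  · intro p hp q hq hpq
    simp only [Finset.coe_image, Finset.coe_univ, Set.image_univ, Set.mem_range] at hp hq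
    obtain ⟨i, rfl⟩ := hp
    obtain ⟨j, rfl⟩ := hq
    have : i = j := e'.symm.injective (Subtype.ext hpq)
    rw [this]
  · intro p hp
    obtain ⟨i, -, rfl⟩ := Finset.mem_image.1 hp
    have hm : (φ i).1 ∈ A := (e.symm i).2
    simp only [hm, dif_pos]
    exact (e ⟨(φ i).1, hm⟩).2
  · intro p hp q hq hpq
    obtain ⟨i, -, rfl⟩ := Finset.mem_image.1 hp
    obtain ⟨j, -, rfl⟩ := Finset.mem_image.1 hq
    have hm : (φ i).1 ∈ A := (e.symm i).2
    have hm' : (φ j).1 ∈ A := (e.symm j).2
    simp only [hm, hm', dif_pos] at hpq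
    have h1 : (⟨(φ i).1, hm⟩ : A) = ⟨(φ j).1, hm'⟩ := e.injective (Fin.ext hpq)
    have h2 : (φ i).1 = (φ j).1 := congrArg Subtype.val h1
    have h3 : i = j := e.symm.injective (Subtype.ext h2)
    subst h3
    simp

lemma Sim.congr {x y x' y' : Fin n → K} {A B : Finset (Fin n)} {c : ℕ} (h : Sim x y A B c)
    (hx : ∀ a ∈ A, x a = x' a) (hy : ∀ b ∈ B, y b = y' b) : Sim x' y' A B c := by
  obtain ⟨G, col, h1, h2, h3, h4, h5, h6⟩ := h
  refine ⟨G, col, h1, h2, h3, h4, h5, ?_⟩
  intro p hp q hq hpq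
  have h := h6 p hp q hq hpq
  have m1 : ∀ r ∈ G, r.1 ∈ A := fun r hr => by rw [← h1]; exact Finset.mem_image_of_mem _ hr
  have m2 : ∀ r ∈ G, r.2 ∈ B := fun r hr => by rw [← h2]; exact Finset.mem_image_of_mem _ hr
  rw [← hx p.1 (m1 p hp), ← hx q.1 (m1 q hq), ← hy p.2 (m2 p hp), ← hy q.2 (m2 q hq)]
  exact h

/-- From `Sim` on the whole space to a colouring and a permutation. -/
lemma Sim.exists_perm {x y : Fin n → K} {c : ℕ} (h : Sim x y Finset.univ Finset.univ c) :
    ∃ (col : Fin n → ℕ) (g : Equiv.Perm (Fin n)), (∀ a, col a < c) ∧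
      ∀ a a' : Fin n, col a = col a' →
        ((a < a' ↔ g a < g a') ∧ (x a < x a' ↔ y (g a) < y (g a'))) := by
  classical
  obtain ⟨G, col, h1, h2, h3, h4, h5, h6⟩ := h
  have hex : ∀ a : Fin n, ∃ p ∈ G, p.1 = a := by
    intro a
    have : a ∈ G.image Prod.fst := by rw [h1]; exact Finset.mem_univ a
    simpa using Finset.mem_image.1 this
  choose f hfG hf using hex
  have hinj : Function.Injective (fun a => (f a).2) := by
    intro a b hab
    have : f a = f b := h4 (hfG a) (hfG b) hab
    rw [← hf a, ← hf b, this]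
  let g : Equiv.Perm (Fin n) := Equiv.ofBijective _ (Finite.injective_iff_bijective.1 hinj)
  refine ⟨fun a => col (f a), g, fun a => h5 _ (hfG a), ?_⟩
  intro a a' haa'
  have := h6 (f a) (hfG a) (f a') (hfG a') haa'
  rw [hf a, hf a'] at this
  exact this

end Pool.Agent.Helper99.Perm
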