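import Pool.Agent.Helper99.Perm.Basic
import Pool.Agent.Helper99.Perm.Prob

set_option autoImplicit false

namespace Pool.Agent.Helper99.Perm

open Finset

variable {n : ℕ} {K : Type*}

theorem chain [LinearOrder K] [Fintype K] [Nonempty K] (x : Fin n → K) (L : Finset (Fin n))
    (S : ℕ → Finset (Fin n)) (lam : ℕ → ℝ) (c : ℕ → ℕ) (p : ℕ → ℝ) (I : ℕ)
    (hS : ∀ i < I, ∀ j < I, i ≠ j → Disjoint (S i) (S j)) (hp : ∀ i, 0 ≤ p i)
    (hstep : ∀ i < I, ∀ L' ⊆ L, (L'.card : ℝ) ≤ lam i →
      Pr (fun r : Fin n → K => ¬ ∃ U ⊆ L', ∃ V ⊆ S i, Sim x r U V (c i) ∧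
        (L'.card : ℝ) - U.card ≤ lam (i + 1)) ≤ p i)
    (hL : (L.card : ℝ) ≤ lam 0) :
    Pr (fun r : Fin n → K => ¬ ∃ U ⊆ L, ∃ V ⊆ (Finset.range I).biUnion S,
        Sim x r U V (∑ i ∈ Finset.range I, c i) ∧ (L.card : ℝ) - U.card ≤ lam I) ≤
      ∑ i ∈ Finset.range I, p i := by
  classical
  induction I with
  | zero =>
    rw [Pr_false]
    · simp
    · intro r
      rw [not_not]
      exact ⟨∅, by simp, ∅, by simp, by simpa using Sim.empty x r, by simpa using hL⟩
  | succ I ih =>
    have ih' := ih (fun i hi j hj => hS i (by omega) j (by omega))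
      (fun i hi => hstep i (by omega))
    set A : (Fin n → K) → Prop := fun r => ∃ U ⊆ L, ∃ V ⊆ (Finset.range I).biUnion S,
      Sim x r U V (∑ i ∈ Finset.range I, c i) ∧ (L.card : ℝ) - U.card ≤ lam I with hA
    set B : (Fin n → K) → Prop := fun r => ∃ U ⊆ L, ∃ V ⊆ (Finset.range (I + 1)).biUnion S,
      Sim x r U V (∑ i ∈ Finset.range (I + 1), c i) ∧ (L.card : ℝ) - U.card ≤ lam (I + 1) with hB
    have hdisj : ∀ V ⊆ (Finset.range I).biUnion S, ∀ v ∈ V, v ∉ S I := by
      intro V hV v hv hv'
      obtain ⟨i, hi, hvi⟩ := Finset.mem_biUnion.1 (hV hv)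
      have hi' := Finset.mem_range.1 hi
      exact (Finset.disjoint_left.1 (hS i (by omega) I (by omega) (by omega))) hvi hv'
    have hres : Pr (fun r : Fin n → K => A r ∧ ¬ B r) ≤ p I := by
      apply resample (ov (S I)) (ov_mix_injective (S I)) (fun r => A r ∧ ¬ B r)
      intro y
      by_cases hy : A y
      · obtain ⟨U, hU, V, hV, hsim, hcard⟩ := hy
        have hLU : ((L \ U).card : ℝ) ≤ lam I := by
          rw [Finset.card_sdiff_of_subset hU, Nat.cast_sub (Finset.card_le_card hU)]
          exact hcard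
        have hst := hstep I (Nat.lt_succ_self I) (L \ U) Finset.sdiff_subset hLU
        refine le_trans (Pr_mono ?_) hst
        rintro r ⟨-, hr⟩
        rintro ⟨U', hU', V', hV', hsim', hcard'⟩
        apply hr
        have h1 : Sim x (ov (S I) y r) U V (∑ i ∈ Finset.range I, c i) :=
          hsim.congr (fun _ _ => rfl) (fun v hv => (ov_notMem (hdisj V hV v hv)).symm)
        have h2 : Sim x (ov (S I) y r) U' V' (c I) :=
          hsim'.congr (fun _ _ => rfl) (fun v hv => (ov_mem (hV' hv)).symm)
        have hd1 : Disjoint U U' := Finset.disjoint_sdiff.mono_right hU'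
        have hd2 : Disjoint V V' := by
          rw [Finset.disjoint_left]
          intro v hv hv'
          exact hdisj V hV v hv (hV' hv')
        refine ⟨U ∪ U', Finset.union_subset hU (hU'.trans Finset.sdiff_subset), V ∪ V', ?_, ?_, ?_⟩
        · apply Finset.union_subset
          · refine hV.trans (Finset.biUnion_subset_biUnion_of_subset_left _ ?_)
            exact Finset.range_mono (Nat.le_succ I)
          · refine hV'.trans ?_
            exact Finset.subset_biUnion_of_mem S (Finset.mem_range.2 (Nat.lt_succ_self I))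
        · rw [Finset.sum_range_succ]
          exact h1.union h2 hd1 hd2
        · rw [Finset.card_union_of_disjoint hd1]
          rw [Finset.card_sdiff_of_subset hU, Nat.cast_sub (Finset.card_le_card hU)] at hcard'
          push_cast
          linarith
      · rw [Pr_false]
        · exact hp I
        · rintro r ⟨⟨U, hU, V, hV, hsim, hcard⟩, -⟩
          apply hy
          exact ⟨U, hU, V, hV, hsim.congr (fun _ _ => rfl)
            (fun v hv => ov_notMem (hdisj V hV v hv)), hcard⟩
    have hc : Pr (fun r : Fin n → K => ¬ B r) ≤ Pr (fun r : Fin n → K => ¬ A r) +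
        Pr (fun r : Fin n → K => A r ∧ ¬ B r) := by
      apply Pr_add
      intro r hr
      by_cases h : A r
      · exact Or.inr ⟨h, hr⟩
      · exact Or.inl h
    refine hc.trans ?_
    rw [Finset.sum_range_succ]
    exact add_le_add ih' hres

end Pool.Agent.Helper99.Perm
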