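import Mathlib

set_option autoImplicit false

namespace Pool.Agent.Helper99.Perm

open Finset

section
variable {ι K : Type*} [Fintype ι] [DecidableEq ι] [Fintype K]

lemma sum_sum_update (F : (ι → K) → ℝ) (i : ι) :
    ∑ r : ι → K, ∑ v : K, F (Function.update r i v) = Fintype.card K * ∑ r, F r := by
  classical
  let e : (ι → K) × K ≃ (ι → K) × K :=
    { toFun := fun p => (Function.update p.1 i p.2, p.1 i)
      invFun := fun p => (Function.update p.1 i p.2, p.1 i)
      left_inv := by
        rintro ⟨r, v⟩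
        simp
      right_inv := by
        rintro ⟨r, v⟩
        simp }
  rw [← Fintype.sum_prod_type']
  calc ∑ p : (ι → K) × K, F (Function.update p.1 i p.2)
      = ∑ p : (ι → K) × K, F p.1 :=
        Fintype.sum_equiv e _ _ (fun p => rfl)
    _ = Fintype.card K * ∑ r, F r := by
        rw [Fintype.sum_prod_type]
        simp only [Finset.sum_const, Finset.card_univ, nsmul_eq_mul]
        rw [Finset.mul_sum]

lemma sum_eq_zero_of_update [Nonempty K] (F : (ι → K) → ℝ) (i : ι)
    (h : ∀ r : ι → K, ∑ v : K, F (Function.update r i v) = 0) : ∑ r, F r = 0 := by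
  have h1 := sum_sum_update F i
  rw [Finset.sum_eq_zero (fun r _ => h r)] at h1
  have h2 : (Fintype.card K : ℝ) ≠ 0 := by exact_mod_cast Fintype.card_ne_zero
  rcases mul_eq_zero.1 h1.symm with h3 | h3
  · exact absurd h3 h2
  · exact h3

lemma sum_pair [Nonempty K] (f : K → K → ℝ) (μ : ℝ) (i j : ι) (hij : i ≠ j)
    (h1 : ∀ u, ∑ v, f u v = Fintype.card K * μ) :
    ∑ r : ι → K, f (r i) (r j) = Fintype.card (ι → K) * μ := by
  have h := sum_sum_update (fun r : ι → K => f (r i) (r j)) j
  have h' : ∀ r : ι → K, ∑ v : K, (fun r : ι → K => f (r i) (r j)) (Function.update r j v) =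
      Fintype.card K * μ := by
    intro r
    simp only [Function.update_self, Function.update_of_ne hij]
    exact h1 (r i)
  rw [Finset.sum_congr rfl (fun r _ => h' r)] at h
  have h2 : (Fintype.card K : ℝ) ≠ 0 := by exact_mod_cast Fintype.card_ne_zero
  rw [Finset.sum_const, Finset.card_univ, nsmul_eq_mul] at h
  apply mul_left_cancel₀ h2
  rw [← h]; ring

end

section
variable {ι K : Type*} [Fintype ι] [LinearOrder ι] [Fintype K] [Nonempty K]

theorem second_moment (J : Finset (ι × ι)) (hJ : ∀ p ∈ J, p.1 < p.2) (f : ι × ι → K → K → ℝ)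
    (μ : ι × ι → ℝ) (B : ℝ)
    (hf0 : ∀ p ∈ J, ∀ u v, 0 ≤ f p u v) (hfB : ∀ p ∈ J, ∀ u v, f p u v ≤ B)
    (h1 : ∀ p ∈ J, ∀ u, ∑ v, f p u v = Fintype.card K * μ p)
    (h2 : ∀ p ∈ J, ∀ v, ∑ u, f p u v = Fintype.card K * μ p) :
    ∑ r : ι → K, (∑ p ∈ J, f p (r p.1) (r p.2) - ∑ p ∈ J, μ p) ^ 2 ≤
      B * (∑ p ∈ J, μ p) * Fintype.card (ι → K) := by
  classical
  set h : ι × ι → (ι → K) → ℝ := fun p r => f p (r p.1) (r p.2) - μ p with hh
  have e1 : ∀ r : ι → K, (∑ p ∈ J, f p (r p.1) (r p.2) - ∑ p ∈ J, μ p) ^ 2 =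
      ∑ p ∈ J, ∑ q ∈ J, h p r * h q r := by
    intro r
    rw [← Finset.sum_sub_distrib, sq, Finset.sum_mul_sum]
  simp only [e1]
  rw [Finset.sum_comm]
  -- orthogonality
  have orth : ∀ p ∈ J, ∀ q ∈ J, q ≠ p → ∑ r : ι → K, h p r * h q r = 0 := by
    intro p hp q hq hqp
    by_cases hc : q.2 ≠ p.1 ∧ q.2 ≠ p.2
    · apply sum_eq_zero_of_update _ q.2
      intro r
      have a1 : ∀ v, h p (Function.update r q.2 v) = h p r := by
        intro v
        simp only [hh, Function.update_of_ne hc.1.symm, Function.update_of_ne hc.2.symm]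
      have a2 : ∀ v, h q (Function.update r q.2 v) = f q (r q.1) v - μ q := by
        intro v
        simp only [hh, Function.update_self, Function.update_of_ne (hJ q hq).ne]
      simp only [a1, a2]
      rw [← Finset.mul_sum, Finset.sum_sub_distrib, h1 q hq]
      simp
    · have hc' : q.1 ≠ p.1 ∧ q.1 ≠ p.2 := by
        have hp12 := hJ p hp
        have hq12 := hJ q hq
        by_contra hcon
        have hcc : q.2 = p.1 ∨ q.2 = p.2 := by
          by_contra h'
          push Not at h'
          exact hc h'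
        have hcc' : q.1 = p.1 ∨ q.1 = p.2 := by
          by_contra h'
          push Not at h'
          exact hcon h'
        rcases hcc with h' | h' <;> rcases hcc' with h'' | h''
        · rw [h', h''] at hq12; exact lt_irrefl _ hq12
        · rw [h', h''] at hq12; exact lt_asymm hq12 hp12
        · exact hqp (Prod.ext h'' h')
        · rw [h', h''] at hq12; exact lt_irrefl _ hq12
      apply sum_eq_zero_of_update _ q.1
      intro r
      have a1 : ∀ v, h p (Function.update r q.1 v) = h p r := by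
        intro v
        simp only [hh, Function.update_of_ne hc'.1.symm, Function.update_of_ne hc'.2.symm]
      have a2 : ∀ v, h q (Function.update r q.1 v) = f q v (r q.2) - μ q := by
        intro v
        simp only [hh, Function.update_self, Function.update_of_ne (hJ q hq).ne']
      simp only [a1, a2]
      rw [← Finset.mul_sum, Finset.sum_sub_distrib, h2 q hq]
      simp
  have main : ∀ p ∈ J, ∑ r : ι → K, ∑ q ∈ J, h p r * h q r ≤ B * μ p * Fintype.card (ι → K) := by
    intro p hp
    rw [Finset.sum_comm, Finset.sum_eq_single p (fun q hq hqp => orth p hp q hq hqp)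
      (fun hcon => absurd hp hcon)]
    have s1 : ∑ r : ι → K, f p (r p.1) (r p.2) = Fintype.card (ι → K) * μ p :=
      sum_pair (f p) (μ p) p.1 p.2 (hJ p hp).ne (h1 p hp)
    have s2 : ∑ r : ι → K, h p r * h p r =
        ∑ r : ι → K, f p (r p.1) (r p.2) * f p (r p.1) (r p.2) - μ p * (Fintype.card (ι → K) * μ p) := by
      have : ∀ r : ι → K, h p r * h p r = f p (r p.1) (r p.2) * f p (r p.1) (r p.2) -
          2 * μ p * f p (r p.1) (r p.2) + μ p * μ p := by intro r; simp only [hh]; ring
      rw [Finset.sum_congr rfl (fun r _ => this r), Finset.sum_add_distrib,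
        Finset.sum_sub_distrib, ← Finset.mul_sum, s1, Finset.sum_const, Finset.card_univ,
        nsmul_eq_mul]
      ring
    have s3 : ∑ r : ι → K, f p (r p.1) (r p.2) * f p (r p.1) (r p.2) ≤
        B * (Fintype.card (ι → K) * μ p) := by
      rw [← s1, Finset.mul_sum]
      apply Finset.sum_le_sum
      intro r _
      exact mul_le_mul_of_nonneg_right (hfB p hp _ _) (hf0 p hp _ _)
    rw [s2]
    have : 0 ≤ μ p * (Fintype.card (ι → K) * μ p) := by
      have : μ p * (Fintype.card (ι → K) * μ p) = Fintype.card (ι → K) * (μ p) ^ 2 := by ring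
      rw [this]; positivity
    nlinarith [s3]
  calc ∑ p ∈ J, ∑ r : ι → K, ∑ q ∈ J, h p r * h q r
      ≤ ∑ p ∈ J, B * μ p * Fintype.card (ι → K) := Finset.sum_le_sum main
    _ = _ := by rw [← Finset.sum_mul, ← Finset.mul_sum]

theorem chebyshev (J : Finset (ι × ι)) (hJ : ∀ p ∈ J, p.1 < p.2) (f : ι × ι → K → K → ℝ)
    (μ : ι × ι → ℝ) (B : ℝ)
    (hf0 : ∀ p ∈ J, ∀ u v, 0 ≤ f p u v) (hfB : ∀ p ∈ J, ∀ u v, f p u v ≤ B)
    (h1 : ∀ p ∈ J, ∀ u, ∑ v, f p u v = Fintype.card K * μ p)
    (h2 : ∀ p ∈ J, ∀ v, ∑ u, f p u v = Fintype.card K * μ p) (t : ℝ) (ht : 0 < t) :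
    ((Finset.univ.filter (fun r : ι → K =>
      (∑ p ∈ J, μ p) + t ≤ ∑ p ∈ J, f p (r p.1) (r p.2))).card : ℝ) * t ^ 2 ≤
      B * (∑ p ∈ J, μ p) * Fintype.card (ι → K) := by
  classical
  refine le_trans ?_ (second_moment J hJ f μ B hf0 hfB h1 h2)
  rw [← nsmul_eq_mul, ← Finset.sum_const, Finset.sum_filter]
  apply Finset.sum_le_sum
  intro r _
  split_ifs with hr
  · have : t ≤ ∑ p ∈ J, f p (r p.1) (r p.2) - ∑ p ∈ J, μ p := by linarith
    exact pow_le_pow_left₀ ht.le this 2
  · positivity

end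

end Pool.Agent.Helper99.Perm
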