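import Pool.Agent.Helper99.Perm.Extract
import Pool.Agent.Helper99.Perm.Moment

set_option autoImplicit false

namespace Pool.Agent.Helper99.Perm

open Finset

lemma sum_row {M m q : ℕ} [NeZero m] (hM : m * q = M) (g : ZMod m → ℝ) :
    ∑ v : Fin M, g (((v : ℕ) / q : ℕ) : ZMod m) = q * ∑ δ, g δ := by
  subst hM
  rw [← Equiv.sum_comp finProdFinEquiv]
  rw [Fintype.sum_prod_type]
  have h1 : ∀ (i : Fin m) (j : Fin q),
      ((((finProdFinEquiv (i, j) : Fin (m * q)) : ℕ) / q : ℕ) : ZMod m) = ((i : ℕ) : ZMod m) := by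
    intro i j
    have hq : 0 < q := Fin.pos j
    have : ((finProdFinEquiv (i, j) : Fin (m * q)) : ℕ) = (j : ℕ) + q * (i : ℕ) := by
      simp [finProdFinEquiv_apply_val]
    rw [this, Nat.add_mul_div_left _ _ hq, Nat.div_eq_of_lt j.2, zero_add]
  simp only [h1, Finset.sum_const, Finset.card_univ, Fintype.card_fin, nsmul_eq_mul]
  rw [← Finset.mul_sum]
  congr 1
  let e : Fin m ≃ ZMod m :=
    { toFun := fun i => ((i : ℕ) : ZMod m)
      invFun := fun δ => ⟨δ.val, ZMod.val_lt δ⟩
      left_inv := fun i => by ext; simp [ZMod.val_cast_of_lt i.2]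
      right_inv := fun δ => by simp }
  exact Fintype.sum_equiv e _ _ (fun i => rfl)

section
variable {n : ℕ}

/-- column type collisions with a given row difference modulo `m`. -/
def Ncol (m : ℕ) (L : Finset (Fin n)) (a b : Fin n → ℕ) (δ : ZMod m) : ℕ :=
  (L.offDiag.filter (fun w => a w.1 = a w.2 ∧ ((b w.2 : ZMod m) - (b w.1 : ZMod m)) = δ)).card

def Nrow (L : Finset (Fin n)) (a b : Fin n → ℕ) (s t : ℕ) : ℕ :=
  (L.offDiag.filter (fun w => b w.1 = b w.2 ∧ a w.2 + s = a w.1 + t)).card

def FF (m q : ℕ) (L : Finset (Fin n)) (a b c : Fin n → ℕ) (j k : Fin n) (u v : ℕ) : ℕ :=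
  (if u / q = v / q then ((if c j = c k then L.card else 0) + Nrow L a b (c j) (c k)) else 0) +
    (if c j = c k then Ncol m L a b (((v / q : ℕ) : ZMod m) - ((u / q : ℕ) : ZMod m)) else 0)

lemma conf_le (m q : ℕ) (L S : Finset (Fin n)) (a b c : Fin n → ℕ) (r : Fin n → ℕ)
    (hinj : ∀ e ∈ L, ∀ e' ∈ L, a e = a e' → b e = b e' → e = e') :
    (conf a b c (fun i => r i / q) L S).card ≤
      ∑ p ∈ S.offDiag, FF m q L a b c p.1 p.2 (r p.1) (r p.2) := by
  classical
  have hmaps : ∀ w ∈ conf a b c (fun i => r i / q) L S, (w.1.2, w.2.2) ∈ S.offDiag := by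
    intro w hw
    obtain ⟨hmem, hne, h1, h2, h3⟩ := Finset.mem_filter.1 hw
    obtain ⟨hm1, hm2⟩ := Finset.mem_product.1 hmem
    obtain ⟨hm11, hm12⟩ := Finset.mem_product.1 hm1
    obtain ⟨hm21, hm22⟩ := Finset.mem_product.1 hm2
    rw [Finset.mem_offDiag]
    refine ⟨hm12, hm22, ?_⟩
    intro heq
    simp only at heq h1 h2
    rw [heq] at h1 h2
    apply hne
    have e1 : w.1.1 = w.2.1 := hinj _ hm11 _ hm21 (by omega) (by omega)
    exact Prod.ext e1 heq
  rw [Finset.card_eq_sum_card_fiberwise hmaps]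
  apply Finset.sum_le_sum
  rintro ⟨j, k⟩ hjk
  simp only
  set W1 : Finset (Fin n × Fin n) :=
    if (r j / q = r k / q ∧ c j = c k) then L.image (fun e => (e, e)) else ∅ with hW1
  set W2 : Finset (Fin n × Fin n) := if c j = c k then
    L.offDiag.filter (fun w => a w.1 = a w.2 ∧ ((b w.2 : ZMod m) - (b w.1 : ZMod m)) =
      (((r k / q : ℕ) : ZMod m) - ((r j / q : ℕ) : ZMod m))) else ∅ with hW2
  set W3 : Finset (Fin n × Fin n) := if r j / q = r k / q then
    L.offDiag.filter (fun w => b w.1 = b w.2 ∧ a w.2 + c j = a w.1 + c k) else ∅ with hW3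
  have hsub : ((conf a b c (fun i => r i / q) L S).filter (fun w => (w.1.2, w.2.2) = (j, k))).card ≤
      (W1 ∪ W2 ∪ W3).card := by
    apply Finset.card_le_card_of_injOn (fun w => (w.1.1, w.2.1))
    · intro w hw
      obtain ⟨hw', hwjk⟩ := Finset.mem_filter.1 (Finset.mem_coe.1 hw)
      obtain ⟨hmem, hne, h1, h2, h3⟩ := Finset.mem_filter.1 hw'
      obtain ⟨hm1, hm2⟩ := Finset.mem_product.1 hmem
      obtain ⟨hm11, hm12⟩ := Finset.mem_product.1 hm1
      obtain ⟨hm21, hm22⟩ := Finset.mem_product.1 hm2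
      have ej : w.1.2 = j := (Prod.ext_iff.1 hwjk).1
      have ek : w.2.2 = k := (Prod.ext_iff.1 hwjk).2
      simp only [ej, ek] at h1 h2
      simp only [Finset.coe_union, Set.mem_union, Finset.mem_coe]
      by_cases he : w.1.1 = w.2.1
      · left; left
        rw [he] at h1 h2
        have c1 : c j = c k := by omega
        have c2 : r j / q = r k / q := by omega
        rw [hW1, if_pos ⟨c2, c1⟩]
        exact Finset.mem_image.2 ⟨w.1.1, hm11, by rw [← he]⟩
      · rcases h3 with h3 | h3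
        · left; right
          have c1 : c j = c k := by omega
          rw [hW2, if_pos c1, Finset.mem_filter, Finset.mem_offDiag]
          refine ⟨⟨hm11, hm21, he⟩, h3, ?_⟩
          have h2' : ((r k / q + b w.1.1 : ℕ) : ZMod m) = ((r j / q + b w.2.1 : ℕ) : ZMod m) := by
            rw [h2]
          push_cast at h2'
          linear_combination -h2'
        · right
          have c1 : r j / q = r k / q := by omega
          rw [hW3, if_pos c1, Finset.mem_filter, Finset.mem_offDiag]
          exact ⟨⟨hm11, hm21, he⟩, h3, by simp only; omega⟩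
    · intro w hw w' hw' heq
      obtain ⟨-, hwjk⟩ := Finset.mem_filter.1 (Finset.mem_coe.1 hw)
      obtain ⟨-, hwjk'⟩ := Finset.mem_filter.1 (Finset.mem_coe.1 hw')
      have e1 := Prod.ext_iff.1 hwjk
      have e2 := Prod.ext_iff.1 hwjk'
      have e3 := Prod.ext_iff.1 heq
      simp only at e1 e2 e3
      refine Prod.ext (Prod.ext e3.1 (e1.1.trans e2.1.symm)) (Prod.ext e3.2 (e1.2.trans e2.2.symm))
  have hc1 : W1.card ≤ (if (r j / q = r k / q ∧ c j = c k) then L.card else 0) := by
    rw [hW1]; split_ifs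
    · exact Finset.card_image_le
    · simp
  have hc2 : W2.card ≤ (if c j = c k then
      Ncol m L a b (((r k / q : ℕ) : ZMod m) - ((r j / q : ℕ) : ZMod m)) else 0) := by
    rw [hW2]; split_ifs
    · exact le_refl _
    · simp
  have hc3 : W3.card ≤ (if r j / q = r k / q then Nrow L a b (c j) (c k) else 0) := by
    rw [hW3]; split_ifs
    · exact le_refl _
    · simp
  have hun : (W1 ∪ W2 ∪ W3).card ≤ W1.card + W2.card + W3.card :=
    (Finset.card_union_le _ _).trans (Nat.add_le_add_right (Finset.card_union_le _ _) _)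
  refine hsub.trans (hun.trans ?_)
  unfold FF
  by_cases d1 : r j / q = r k / q <;> by_cases d2 : c j = c k
  · simp only [d1, d2, and_self, if_true] at hc1 hc2 hc3 ⊢
    rw [← d1] at hc2
    rw [← d1]
    omega
  · simp only [d1, d2, and_false, if_true, if_false] at hc1 hc2 hc3 ⊢
    omega
  · simp only [d1, d2, false_and, if_true, if_false] at hc1 hc2 hc3 ⊢
    omega
  · simp only [d1, d2, false_and, if_false] at hc1 hc2 hc3 ⊢
    omega

end

end Pool.Agent.Helper99.Perm
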