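import Pool.Agent.Helper99.Perm.ConfProb

set_option autoImplicit false

namespace Pool.Agent.Helper99.Perm

open Finset

section
variable {n : ℕ}

lemma sum_offDiag_eq (S : Finset (Fin n)) (g : Fin n × Fin n → ℝ) :
    ∑ p ∈ S.offDiag, g p = ∑ p ∈ S.offDiag.filter (fun p => p.1 < p.2), (g p + g p.swap) := by
  classical
  rw [Finset.sum_add_distrib, ← Finset.sum_filter_add_sum_filter_not S.offDiag (fun p => p.1 < p.2)]
  congr 1
  apply Finset.sum_nbij' Prod.swap Prod.swap
  · intro p hp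
    simp only [Finset.mem_filter, Finset.mem_offDiag, not_lt, Prod.fst_swap, Prod.snd_swap] at hp ⊢
    exact ⟨⟨hp.1.2.1, hp.1.1, hp.1.2.2.symm⟩, lt_of_le_of_ne hp.2 hp.1.2.2.symm⟩
  · intro p hp
    simp only [Finset.mem_filter, Finset.mem_offDiag, not_lt, Prod.fst_swap, Prod.snd_swap] at hp ⊢
    exact ⟨⟨hp.1.2.1, hp.1.1, hp.1.2.2.symm⟩, hp.2.le⟩
  · intro p _; simp
  · intro p _; simp
  · intro p _; simp

/-- number of ordered pairs of distinct elements of `L` in the same `a`-class -/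
def Neq (L : Finset (Fin n)) (a : Fin n → ℕ) : ℕ := (L.offDiag.filter (fun w => a w.1 = a w.2)).card

lemma Neq_le (L : Finset (Fin n)) (a : Fin n → ℕ) (bL : ℕ)
    (h : ∀ e ∈ L, (L.filter (fun e' => a e' = a e)).card ≤ bL) :
    Neq L a + L.card ≤ L.card * bL := by
  classical
  have h1 : Neq L a = ∑ e ∈ L, ((L.filter (fun e' => a e' = a e)).card - 1) := by
    unfold Neq
    rw [Finset.card_eq_sum_card_fiberwise (f := Prod.fst) (t := L)]
    · apply Finset.sum_congr rfl
      intro e he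
      have : (L.filter (fun e' => a e' = a e)).card - 1 =
          ((L.filter (fun e' => a e' = a e)).erase e).card := by
        rw [Finset.card_erase_of_mem]
        exact Finset.mem_filter.2 ⟨he, rfl⟩
      rw [this]
      refine Finset.card_nbij' (fun w => w.2) (fun e' => (e, e')) ?_ ?_ ?_ ?_
      · intro w hw
        have hw' := Finset.mem_coe.1 hw
        simp only [Finset.mem_filter, Finset.mem_offDiag] at hw'
        obtain ⟨⟨⟨hw1, hw2, hw3⟩, hw4⟩, hw5⟩ := hw'
        rw [Finset.mem_coe, Finset.mem_erase, Finset.mem_filter]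
        refine ⟨?_, hw2, ?_⟩
        · rw [← hw5]; exact hw3.symm
        · rw [← hw5]; exact hw4.symm
      · intro e' he'
        have he2 := Finset.mem_coe.1 he'
        rw [Finset.mem_erase, Finset.mem_filter] at he2
        rw [Finset.mem_coe, Finset.mem_filter, Finset.mem_filter, Finset.mem_offDiag]
        exact ⟨⟨⟨he, he2.2.1, fun h => he2.1 h.symm⟩, he2.2.2.symm⟩, rfl⟩
      · intro w hw
        have hw' := (Finset.mem_filter.1 (Finset.mem_coe.1 hw)).2
        exact Prod.ext hw'.symm rfl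
      · intro e' _; rfl
    · intro w hw
      have hw' := (Finset.mem_filter.1 (Finset.mem_coe.1 hw)).1
      exact (Finset.mem_offDiag.1 hw').1
  rw [h1]
  have h2 : ∑ e ∈ L, ((L.filter (fun e' => a e' = a e)).card - 1) + L.card =
      ∑ e ∈ L, (((L.filter (fun e' => a e' = a e)).card - 1) + 1) := by
    rw [Finset.sum_add_distrib]; simp
  rw [h2]
  calc ∑ e ∈ L, (((L.filter (fun e' => a e' = a e)).card - 1) + 1) ≤ ∑ _e ∈ L, bL := by
        apply Finset.sum_le_sum
        intro e he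
        have h3 : 0 < (L.filter (fun e' => a e' = a e)).card :=
          Finset.card_pos.2 ⟨e, Finset.mem_filter.2 ⟨he, rfl⟩⟩
        have := h e he
        omega
    _ = L.card * bL := by rw [Finset.sum_const, smul_eq_mul]

lemma Ncol_sum (m : ℕ) [NeZero m] (L : Finset (Fin n)) (a b : Fin n → ℕ) :
    ∑ δ : ZMod m, Ncol m L a b δ = Neq L a := by
  classical
  unfold Ncol Neq
  rw [Finset.card_eq_sum_card_fiberwise (s := L.offDiag.filter (fun w => a w.1 = a w.2))
    (f := fun w => ((b w.2 : ZMod m) - (b w.1 : ZMod m))) (t := Finset.univ)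
    (fun _ _ => Finset.mem_coe.2 (Finset.mem_univ _))]
  apply Finset.sum_congr rfl
  intro δ _
  rw [Finset.filter_filter]

lemma Ncol_le (m : ℕ) (L : Finset (Fin n)) (a b : Fin n → ℕ) (δ : ZMod m) :
    Ncol m L a b δ ≤ Neq L a := by
  unfold Ncol Neq
  apply Finset.card_le_card
  intro w hw
  rw [Finset.mem_filter] at hw ⊢
  exact ⟨hw.1, hw.2.1⟩

lemma Nrow_le (L : Finset (Fin n)) (a b : Fin n → ℕ) (s t : ℕ) :
    Nrow L a b s t ≤ Neq L b := by
  unfold Nrow Neq
  apply Finset.card_le_card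
  intro w hw
  rw [Finset.mem_filter] at hw ⊢
  exact ⟨hw.1, hw.2.1⟩

lemma FF_le (m q : ℕ) (L : Finset (Fin n)) (a b c : Fin n → ℕ) (bL : ℕ)
    (hLa : ∀ e ∈ L, (L.filter (fun e' => a e' = a e)).card ≤ bL)
    (hLb : ∀ e ∈ L, (L.filter (fun e' => b e' = b e)).card ≤ bL) (j k : Fin n) (u v : ℕ) :
    FF m q L a b c j k u v ≤ 2 * (L.card * bL) := by
  have h1 := Neq_le L a bL hLa
  have h2 := Neq_le L b bL hLb
  have h3 := Ncol_le m L a b (((v / q : ℕ) : ZMod m) - ((u / q : ℕ) : ZMod m))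
  have h4 := Nrow_le L a b (c j) (c k)
  unfold FF
  split_ifs <;> omega

/-- the normalised mean of `FF` times `m` -/
def MM (L : Finset (Fin n)) (a b c : Fin n → ℕ) (j k : Fin n) : ℕ :=
  (if c j = c k then L.card else 0) + Nrow L a b (c j) (c k) + (if c j = c k then Neq L a else 0)

lemma sum_MM (L S : Finset (Fin n)) (a b c : Fin n → ℕ) (bL bS : ℕ)
    (hLa : ∀ e ∈ L, (L.filter (fun e' => a e' = a e)).card ≤ bL)
    (hLb : ∀ e ∈ L, (L.filter (fun e' => b e' = b e)).card ≤ bL)
    (hS : ∀ t, (S.filter (fun k => c k = t)).card ≤ bS) :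
    ∑ p ∈ S.offDiag, MM L a b c p.1 p.2 ≤ 2 * (L.card * bL * (S.card * bS)) := by
  classical
  have h1 := Neq_le L a bL hLa
  have h2 := Neq_le L b bL hLb
  have h3 := Neq_le S c bS (fun e _ => hS (c e))
  have e1 : ∑ p ∈ S.offDiag, (if c p.1 = c p.2 then L.card else 0) = Neq S c * L.card := by
    rw [← Finset.sum_filter, Finset.sum_const, smul_eq_mul]; rfl
  have e2 : ∑ p ∈ S.offDiag, (if c p.1 = c p.2 then Neq L a else 0) = Neq S c * Neq L a := by
    rw [← Finset.sum_filter, Finset.sum_const, smul_eq_mul]; rfl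
  have e3 : ∑ p ∈ S.offDiag, Nrow L a b (c p.1) (c p.2) ≤ Neq L b * (S.card * bS) := by
    have : ∀ p ∈ S.offDiag, Nrow L a b (c p.1) (c p.2) =
        ∑ w ∈ L.offDiag.filter (fun w => b w.1 = b w.2),
          if a w.2 + c p.1 = a w.1 + c p.2 then 1 else 0 := by
      intro p _
      rw [← Finset.sum_filter, Finset.sum_const, smul_eq_mul, mul_one, Finset.filter_filter]
      rfl
    rw [Finset.sum_congr rfl this, Finset.sum_comm]
    unfold Neq
    rw [← smul_eq_mul, ← Finset.sum_const]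
    apply Finset.sum_le_sum
    intro w _
    calc ∑ p ∈ S.offDiag, (if a w.2 + c p.1 = a w.1 + c p.2 then 1 else 0)
        ≤ ∑ p ∈ S ×ˢ S, (if a w.2 + c p.1 = a w.1 + c p.2 then 1 else 0) := by
          apply Finset.sum_le_sum_of_subset
          intro p hp
          rw [Finset.mem_offDiag] at hp
          exact Finset.mem_product.2 ⟨hp.1, hp.2.1⟩
      _ = ∑ j ∈ S, ∑ k ∈ S, (if a w.2 + c j = a w.1 + c k then 1 else 0) := by
          rw [Finset.sum_product]
      _ ≤ ∑ _j ∈ S, bS := by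
          apply Finset.sum_le_sum
          intro j _
          rw [← Finset.sum_filter, Finset.sum_const, smul_eq_mul, mul_one]
          by_cases hle : a w.1 ≤ a w.2 + c j
          · refine le_trans (Finset.card_le_card ?_) (hS (a w.2 + c j - a w.1))
            intro k hk
            rw [Finset.mem_filter] at hk ⊢
            exact ⟨hk.1, by omega⟩
          · have : S.filter (fun k => a w.2 + c j = a w.1 + c k) = ∅ := by
              apply Finset.filter_false_of_mem
              intro k _ h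
              omega
            rw [this]; simp
      _ = S.card * bS := by rw [Finset.sum_const, smul_eq_mul]
  unfold MM
  rw [Finset.sum_add_distrib, Finset.sum_add_distrib, e1, e2]
  have k1 : Neq S c * L.card ≤ (S.card * bS) * L.card := Nat.mul_le_mul_right _ (by omega)
  have k2 : Neq S c * Neq L a ≤ (S.card * bS) * Neq L a := Nat.mul_le_mul_right _ (by omega)
  have k3 : (S.card * bS) * L.card + (S.card * bS) * Neq L a ≤ (S.card * bS) * (L.card * bL) := by
    rw [← Nat.mul_add]; exact Nat.mul_le_mul_left _ (by omega)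
  have k4 : Neq L b * (S.card * bS) ≤ L.card * bL * (S.card * bS) :=
    Nat.mul_le_mul_right _ (by omega)
  have k5 : (S.card * bS) * (L.card * bL) = L.card * bL * (S.card * bS) := Nat.mul_comm _ _
  omega

lemma sum_FF_right {M m q : ℕ} [NeZero m] (hM : m * q = M) (L : Finset (Fin n))
    (a b c : Fin n → ℕ) (j k : Fin n) (u : Fin M) :
    ∑ v : Fin M, (FF m q L a b c j k u v : ℝ) = M * ((MM L a b c j k : ℝ) / m) := by
  classical
  have hm0 : (m : ℝ) ≠ 0 := by exact_mod_cast NeZero.ne m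
  have hlt : ∀ v : Fin M, (v : ℕ) / q < m := by
    intro v
    rw [Nat.div_lt_iff_lt_mul (Nat.pos_of_ne_zero (by
      rintro rfl
      have := v.2
      rw [mul_zero] at hM
      omega))]
    rw [hM]; exact v.2
  have heq : ∀ v : Fin M, ((u : ℕ) / q = (v : ℕ) / q) ↔
      ((((v : ℕ) / q : ℕ) : ZMod m) = (((u : ℕ) / q : ℕ) : ZMod m)) := by
    intro v
    rw [ZMod.natCast_eq_natCast_iff', Nat.mod_eq_of_lt (hlt u), Nat.mod_eq_of_lt (hlt v)]
    exact eq_comm
  set G1 : ℕ := (if c j = c k then L.card else 0) + Nrow L a b (c j) (c k) with hG1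
  have e1 : ∀ v : Fin M, (FF m q L a b c j k u v : ℝ) =
      (fun δ : ZMod m => if δ = (((u : ℕ) / q : ℕ) : ZMod m) then (G1 : ℝ) else 0)
        (((v : ℕ) / q : ℕ) : ZMod m) +
      (fun δ : ZMod m => if c j = c k then
        (Ncol m L a b (δ - (((u : ℕ) / q : ℕ) : ZMod m)) : ℝ) else 0)
        (((v : ℕ) / q : ℕ) : ZMod m) := by
    intro v
    unfold FF
    simp only [heq v, ← hG1]
    push_cast
    rfl
  simp only [e1]
  rw [Finset.sum_add_distrib, sum_row hM (fun δ : ZMod m =>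
    if δ = (((u : ℕ) / q : ℕ) : ZMod m) then (G1 : ℝ) else 0),
    sum_row hM (fun δ : ZMod m => if c j = c k then
        (Ncol m L a b (δ - (((u : ℕ) / q : ℕ) : ZMod m)) : ℝ) else 0)]
  rw [Finset.sum_ite_eq' Finset.univ, if_pos (Finset.mem_univ _)]
  have e2 : ∑ δ : ZMod m, (if c j = c k then
      (Ncol m L a b (δ - (((u : ℕ) / q : ℕ) : ZMod m)) : ℝ) else 0) =
      if c j = c k then (Neq L a : ℝ) else 0 := by
    split_ifs
    · rw [← Ncol_sum m L a b]
      push_cast
      exact (Equiv.subRight ((((u : ℕ) / q : ℕ) : ZMod m))).sum_comp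
        (fun δ => (Ncol m L a b δ : ℝ))
    · simp
  rw [e2]
  have hMM : (MM L a b c j k : ℝ) = (G1 : ℝ) + (if c j = c k then (Neq L a : ℝ) else 0) := by
    unfold MM
    rw [← hG1]
    push_cast
    rfl
  rw [hMM, ← hM]
  push_cast
  field_simp

lemma sum_FF_left {M m q : ℕ} [NeZero m] (hM : m * q = M) (L : Finset (Fin n))
    (a b c : Fin n → ℕ) (j k : Fin n) (v : Fin M) :
    ∑ u : Fin M, (FF m q L a b c j k u v : ℝ) = M * ((MM L a b c j k : ℝ) / m) := by
  classical
  have hm0 : (m : ℝ) ≠ 0 := by exact_mod_cast NeZero.ne m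
  have hlt : ∀ v : Fin M, (v : ℕ) / q < m := by
    intro v
    rw [Nat.div_lt_iff_lt_mul (Nat.pos_of_ne_zero (by
      rintro rfl
      have := v.2
      rw [mul_zero] at hM
      omega))]
    rw [hM]; exact v.2
  have heq : ∀ u : Fin M, ((u : ℕ) / q = (v : ℕ) / q) ↔
      ((((u : ℕ) / q : ℕ) : ZMod m) = (((v : ℕ) / q : ℕ) : ZMod m)) := by
    intro u
    rw [ZMod.natCast_eq_natCast_iff', Nat.mod_eq_of_lt (hlt u), Nat.mod_eq_of_lt (hlt v)]
  set G1 : ℕ := (if c j = c k then L.card else 0) + Nrow L a b (c j) (c k) with hG1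
  have e1 : ∀ u : Fin M, (FF m q L a b c j k u v : ℝ) =
      (fun δ : ZMod m => if δ = (((v : ℕ) / q : ℕ) : ZMod m) then (G1 : ℝ) else 0)
        (((u : ℕ) / q : ℕ) : ZMod m) +
      (fun δ : ZMod m => if c j = c k then
        (Ncol m L a b ((((v : ℕ) / q : ℕ) : ZMod m) - δ) : ℝ) else 0)
        (((u : ℕ) / q : ℕ) : ZMod m) := by
    intro u
    unfold FF
    simp only [heq u, ← hG1]
    push_cast
    rfl
  simp only [e1]
  rw [Finset.sum_add_distrib, sum_row hM (fun δ : ZMod m =>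
    if δ = (((v : ℕ) / q : ℕ) : ZMod m) then (G1 : ℝ) else 0),
    sum_row hM (fun δ : ZMod m => if c j = c k then
        (Ncol m L a b ((((v : ℕ) / q : ℕ) : ZMod m) - δ) : ℝ) else 0)]
  rw [Finset.sum_ite_eq' Finset.univ, if_pos (Finset.mem_univ _)]
  have e2 : ∑ δ : ZMod m, (if c j = c k then
      (Ncol m L a b ((((v : ℕ) / q : ℕ) : ZMod m) - δ) : ℝ) else 0) =
      if c j = c k then (Neq L a : ℝ) else 0 := by
    split_ifs
    · rw [← Ncol_sum m L a b]
      push_cast
      exact (Equiv.subLeft ((((v : ℕ) / q : ℕ) : ZMod m))).sum_comp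
        (fun δ => (Ncol m L a b δ : ℝ))
    · simp
  rw [e2]
  have hMM : (MM L a b c j k : ℝ) = (G1 : ℝ) + (if c j = c k then (Neq L a : ℝ) else 0) := by
    unfold MM
    rw [← hG1]
    push_cast
    rfl
  rw [hMM, ← hM]
  push_cast
  field_simp

/-- Probability bound for many conflicts. -/
theorem conf_prob {M m q : ℕ} (hm : 0 < m) (hq : 0 < q) (hM : m * q = M) (L S : Finset (Fin n))
    (a b c : Fin n → ℕ) (bL bS : ℕ)
    (hinj : ∀ e ∈ L, ∀ e' ∈ L, a e = a e' → b e = b e' → e = e')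
    (hLa : ∀ e ∈ L, (L.filter (fun e' => a e' = a e)).card ≤ bL)
    (hLb : ∀ e ∈ L, (L.filter (fun e' => b e' = b e)).card ≤ bL)
    (hS : ∀ t, (S.filter (fun k => c k = t)).card ≤ bS)
    (hL0 : 0 < L.card) (hS0 : 0 < S.card) (hbL : 0 < bL) (hbS : 0 < bS) :
    ((Finset.univ.filter (fun r : Fin n → Fin M =>
      4 * ((L.card : ℝ) * bL * (S.card * bS)) / m <
        ((conf a b c (fun i => (r i : ℕ) / q) L S).card : ℝ))).card : ℝ) ≤
      2 * m / (S.card * bS) * Fintype.card (Fin n → Fin M) := by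
  classical
  have : NeZero m := ⟨hm.ne'⟩
  have hMpos : 0 < M := by rw [← hM]; positivity
  have : Nonempty (Fin M) := ⟨⟨0, hMpos⟩⟩
  have hmr : (0 : ℝ) < m := by exact_mod_cast hm
  set J : Finset (Fin n × Fin n) := S.offDiag.filter (fun p => p.1 < p.2) with hJ
  set f : Fin n × Fin n → Fin M → Fin M → ℝ := fun p u v =>
    (FF m q L a b c p.1 p.2 u v : ℝ) + (FF m q L a b c p.2 p.1 v u : ℝ) with hf
  set μ : Fin n × Fin n → ℝ := fun p => (MM L a b c p.1 p.2 : ℝ) / m + (MM L a b c p.2 p.1 : ℝ) / m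
    with hμ
  set X : ℝ := (L.card : ℝ) * bL * (S.card * bS) with hX
  have hXpos : 0 < X := by
    have h1 : (0 : ℝ) < L.card := by exact_mod_cast hL0
    have h2 : (0 : ℝ) < S.card := by exact_mod_cast hS0
    have h3 : (0 : ℝ) < bL := by exact_mod_cast hbL
    have h4 : (0 : ℝ) < bS := by exact_mod_cast hbS
    positivity
  have hμtot : ∑ p ∈ J, μ p ≤ 2 * X / m := by
    have e1 : ∑ p ∈ J, μ p = (∑ p ∈ S.offDiag, (MM L a b c p.1 p.2 : ℝ)) / m := by
      rw [sum_offDiag_eq, Finset.sum_div]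
      apply Finset.sum_congr rfl
      intro p _
      simp only [hμ, Prod.fst_swap, Prod.snd_swap]
      ring
    rw [e1]
    apply div_le_div_of_nonneg_right _ hmr.le
    have := sum_MM L S a b c bL bS hLa hLb hS
    rw [hX]
    exact_mod_cast this
  have hcheb := chebyshev (ι := Fin n) (K := Fin M) J (fun p hp => (Finset.mem_filter.1 hp).2) f μ
    (4 * ((L.card : ℝ) * bL)) (fun p _ u v => by simp only [hf]; positivity)
    (fun p _ u v => by
      have h1 : (FF m q L a b c p.1 p.2 u v : ℝ) ≤ 2 * ((L.card : ℝ) * bL) := by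
        exact_mod_cast FF_le m q L a b c bL hLa hLb p.1 p.2 u v
      have h2 : (FF m q L a b c p.2 p.1 v u : ℝ) ≤ 2 * ((L.card : ℝ) * bL) := by
        exact_mod_cast FF_le m q L a b c bL hLa hLb p.2 p.1 v u
      simp only [hf]
      linarith)
    (fun p _ u => by
      simp only [hf, hμ, Fintype.card_fin]
      rw [Finset.sum_add_distrib, sum_FF_right hM, sum_FF_left hM]
      ring)
    (fun p _ v => by
      simp only [hf, hμ, Fintype.card_fin]
      rw [Finset.sum_add_distrib, sum_FF_left hM, sum_FF_right hM]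
      ring)
    (2 * X / m) (by positivity)
  set Om : ℝ := ((Fintype.card (Fin n → Fin M) : ℕ) : ℝ) with hOm
  have hOm0 : 0 ≤ Om := by positivity
  have hsub : ((Finset.univ.filter (fun r : Fin n → Fin M => 4 * X / m <
        ((conf a b c (fun i => (r i : ℕ) / q) L S).card : ℝ))).card : ℝ) ≤
      ((Finset.univ.filter (fun r : Fin n → Fin M =>
      (∑ p ∈ J, μ p) + 2 * X / m ≤ ∑ p ∈ J, f p (r p.1) (r p.2))).card : ℝ) := by
    apply Nat.cast_le.2
    apply Finset.card_le_card
    intro r hr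
    rw [Finset.mem_filter] at hr ⊢
    refine ⟨hr.1, ?_⟩
    have h1 : ((conf a b c (fun i => (r i : ℕ) / q) L S).card : ℝ) ≤
        ∑ p ∈ S.offDiag, (FF m q L a b c p.1 p.2 (r p.1) (r p.2) : ℝ) := by
      exact_mod_cast conf_le m q L S a b c (fun i => (r i : ℕ)) hinj
    rw [sum_offDiag_eq S (fun p => (FF m q L a b c p.1 p.2 (r p.1) (r p.2) : ℝ))] at h1
    have h2 : ∑ p ∈ S.offDiag.filter (fun p => p.1 < p.2),
        ((FF m q L a b c p.1 p.2 (r p.1) (r p.2) : ℝ) +
          (FF m q L a b c p.swap.1 p.swap.2 (r p.swap.1) (r p.swap.2) : ℝ)) =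
        ∑ p ∈ J, f p (r p.1) (r p.2) := rfl
    rw [h2] at h1
    have h3 := hr.2
    have h4 : 4 * X / m = 2 * X / m + 2 * X / m := by ring
    linarith
  refine hsub.trans ?_
  have hpos2 : (0 : ℝ) < (2 * X / m) ^ 2 := by positivity
  have hLb0 : (0 : ℝ) ≤ 4 * ((L.card : ℝ) * bL) := by positivity
  have hbound : 4 * ((L.card : ℝ) * bL) * (∑ p ∈ J, μ p) * Om ≤
      4 * ((L.card : ℝ) * bL) * (2 * X / m) * Om := by
    apply mul_le_mul_of_nonneg_right _ hOm0
    exact mul_le_mul_of_nonneg_left hμtot hLb0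
  have hcheb' := hcheb.trans hbound
  rw [← le_div_iff₀ hpos2] at hcheb'
  refine hcheb'.trans (le_of_eq ?_)
  have h1 : (L.card : ℝ) ≠ 0 := by exact_mod_cast hL0.ne'
  have h2 : (S.card : ℝ) ≠ 0 := by exact_mod_cast hS0.ne'
  have h3 : (bL : ℝ) ≠ 0 := by exact_mod_cast hbL.ne'
  have h4 : (bS : ℝ) ≠ 0 := by exact_mod_cast hbS.ne'
  rw [hX]
  field_simp
  ring

end

end Pool.Agent.Helper99.Perm
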