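import Pool.Agent.Helper99.Perm.Basic

set_option autoImplicit false

namespace Pool.Agent.Helper99.Perm

open Finset

variable {n : ℕ} {K : Type*} [LinearOrder K]

/-- Conflicts between pairs having the same displacement: equal row or equal column. -/
def conf (a b a' b' : Fin n → ℕ) (U V : Finset (Fin n)) :
    Finset ((Fin n × Fin n) × (Fin n × Fin n)) :=
  ((U ×ˢ V) ×ˢ (U ×ˢ V)).filter (fun w =>
    w.1 ≠ w.2 ∧ a' w.2.2 + a w.1.1 = a' w.1.2 + a w.2.1 ∧
      b' w.2.2 + b w.1.1 = b' w.1.2 + b w.2.1 ∧ (a w.1.1 = a w.2.1 ∨ b w.1.1 = b w.2.1))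

lemma conf_mono {a b a' b' : Fin n → ℕ} {U V U' V' : Finset (Fin n)} (hU : U ⊆ U') (hV : V ⊆ V') :
    (conf a b a' b' U V).card ≤ (conf a b a' b' U' V').card := by
  apply Finset.card_le_card
  unfold conf
  apply Finset.filter_subset_filter
  exact Finset.product_subset_product (Finset.product_subset_product hU hV)
    (Finset.product_subset_product hU hV)

theorem extract {x y : Fin n → K} (a b a' b' : Fin n → ℕ) (U V : Finset (Fin n)) (m : ℕ)
    (hm : 0 < m)
    (ha : ∀ e ∈ U, ∀ e' ∈ U, a e < a e' → e < e')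
    (hb : ∀ e ∈ U, ∀ e' ∈ U, b e < b e' → x e < x e')
    (ha' : ∀ e ∈ V, ∀ e' ∈ V, a' e < a' e' → e < e')
    (hb' : ∀ e ∈ V, ∀ e' ∈ V, b' e < b' e' → y e < y e')
    (hU : ∀ e ∈ U, a e < m ∧ b e < m) (hV : ∀ e ∈ V, a' e < m ∧ b' e < m) :
    ∃ U' ⊆ U, ∃ V' ⊆ V, Sim x y U' V' 1 ∧
      U.card * V.card ≤ (conf a b a' b' U V).card + 4 * m ^ 2 * U'.card := by
  classical
  set P : Finset (Fin n × Fin n) := U ×ˢ V with hP
  set Gd : Finset (Fin n × Fin n) := P.filter (fun p => ∀ q ∈ P, (p, q) ∉ conf a b a' b' U V)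
    with hGd
  have hcard : P.card ≤ (conf a b a' b' U V).card + Gd.card := by
    have h1 : P ⊆ (conf a b a' b' U V).image Prod.fst ∪ Gd := by
      intro p hp
      by_cases h : ∀ q ∈ P, (p, q) ∉ conf a b a' b' U V
      · exact Finset.mem_union_right _ (Finset.mem_filter.2 ⟨hp, h⟩)
      · push Not at h
        obtain ⟨q, -, hq⟩ := h
        exact Finset.mem_union_left _ (Finset.mem_image.2 ⟨(p, q), hq, rfl⟩)
    calc P.card ≤ _ := Finset.card_le_card h1
      _ ≤ ((conf a b a' b' U V).image Prod.fst).card + Gd.card := Finset.card_union_le _ _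
      _ ≤ _ := Nat.add_le_add_right Finset.card_image_le _
  let f : Fin n × Fin n → ℕ × ℕ := fun p => (a' p.2 + m - a p.1, b' p.2 + m - b p.1)
  let T : Finset (ℕ × ℕ) := Finset.range (2 * m) ×ˢ Finset.range (2 * m)
  have hmem : ∀ p ∈ Gd, p.1 ∈ U ∧ p.2 ∈ V := fun p hp =>
    Finset.mem_product.1 (Finset.mem_filter.1 hp).1
  have hmaps : ∀ p ∈ Gd, f p ∈ T := by
    intro p hp
    have h1 := hU _ (hmem p hp).1
    have h2 := hV _ (hmem p hp).2
    simp only [f, T, Finset.mem_product, Finset.mem_range]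
    constructor <;> omega
  have hTcard : T.card = 4 * m ^ 2 := by
    simp only [T, Finset.card_product, Finset.card_range]; ring
  have hTne : T.Nonempty := by
    rw [← Finset.card_pos, hTcard]; positivity
  obtain ⟨v, -, hv⟩ := Finset.exists_le_card_fiber_of_nsmul_le_card_of_maps_to
    (s := Gd) (t := T) (f := f) (b := (Gd.card : ℚ) / T.card) hmaps hTne (by
      rw [nsmul_eq_mul, mul_div_cancel₀]
      have : (0 : ℚ) < T.card := by exact_mod_cast hTne.card_pos
      exact this.ne')
  set G : Finset (Fin n × Fin n) := Gd.filter (fun p => f p = v) with hG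
  have hGG : Gd.card ≤ 4 * m ^ 2 * G.card := by
    have hpos : (0 : ℚ) < T.card := by exact_mod_cast hTne.card_pos
    rw [div_le_iff₀ hpos] at hv
    have : (Gd.card : ℚ) ≤ ((G.card * T.card : ℕ) : ℚ) := by push_cast; exact hv
    have h2 : Gd.card ≤ G.card * T.card := by exact_mod_cast this
    rw [hTcard] at h2
    linarith [h2, Nat.mul_comm G.card (4 * m ^ 2)]
  have hGmem : ∀ p ∈ G, p.1 ∈ U ∧ p.2 ∈ V := fun p hp => hmem p (Finset.mem_filter.1 hp).1
  -- difference equations
  have hdiff : ∀ p ∈ G, ∀ q ∈ G, a' q.2 + a p.1 = a' p.2 + a q.1 ∧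
      b' q.2 + b p.1 = b' p.2 + b q.1 := by
    intro p hp q hq
    have h1 := hU _ (hGmem p hp).1
    have h2 := hU _ (hGmem q hq).1
    have e : f p = f q := (Finset.mem_filter.1 hp).2.trans (Finset.mem_filter.1 hq).2.symm
    have e1 : a' p.2 + m - a p.1 = a' q.2 + m - a q.1 := congrArg Prod.fst e
    have e2 : b' p.2 + m - b p.1 = b' q.2 + m - b q.1 := congrArg Prod.snd e
    constructor <;> omega
  have hne : ∀ p ∈ G, ∀ q ∈ G, p ≠ q → a p.1 ≠ a q.1 ∧ b p.1 ≠ b q.1 := by
    intro p hp q hq hpq
    have hq' : q ∈ P := (Finset.mem_filter.1 (Finset.mem_filter.1 hq).1).1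
    have hp' : p ∈ P := (Finset.mem_filter.1 (Finset.mem_filter.1 hp).1).1
    have h := (Finset.mem_filter.1 (Finset.mem_filter.1 hp).1).2 q hq'
    have hd := hdiff p hp q hq
    by_contra hcon
    apply h
    unfold conf
    rw [Finset.mem_filter]
    refine ⟨Finset.mem_product.2 ⟨hp', hq'⟩, hpq, hd.1, hd.2, ?_⟩
    by_contra h'
    push Not at h'
    exact hcon h'
  have hinj1 : Set.InjOn Prod.fst (G : Set (Fin n × Fin n)) := by
    intro p hp q hq hpq
    by_contra h
    exact (hne p hp q hq h).1 (by rw [hpq])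
  have hinj2 : Set.InjOn Prod.snd (G : Set (Fin n × Fin n)) := by
    intro p hp q hq hpq
    by_contra h
    have hd := (hdiff p hp q hq).1
    have : a p.1 = a q.1 := by
      have hpq' : p.2 = q.2 := hpq
      rw [hpq'] at hd
      omega
    exact (hne p hp q hq h).1 this
  refine ⟨G.image Prod.fst, ?_, G.image Prod.snd, ?_, ?_, ?_⟩
  · intro e he
    obtain ⟨p, hp, rfl⟩ := Finset.mem_image.1 he
    exact (hGmem p hp).1
  · intro e he
    obtain ⟨p, hp, rfl⟩ := Finset.mem_image.1 he
    exact (hGmem p hp).2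
  · refine ⟨G, fun _ => 0, rfl, rfl, hinj1, hinj2, fun _ _ => Nat.zero_lt_one, ?_⟩
    intro p hp q hq _
    by_cases hpq : p = q
    · subst hpq; simp
    · have hn := hne p hp q hq hpq
      have hd := hdiff p hp q hq
      have mp := hGmem p hp
      have mq := hGmem q hq
      constructor
      · constructor
        · intro hlt
          apply ha' _ mp.2 _ mq.2
          have : a p.1 < a q.1 := by
            rcases lt_or_ge (a p.1) (a q.1) with h | h
            · exact h
            · exact absurd (ha _ mq.1 _ mp.1 (lt_of_le_of_ne h hn.1.symm)) (not_lt.2 hlt.le)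
          omega
        · intro hlt
          apply ha _ mp.1 _ mq.1
          have : a' p.2 < a' q.2 := by
            rcases lt_trichotomy (a' p.2) (a' q.2) with h | h | h
            · exact h
            · exfalso; apply hn.1; omega
            · exact absurd (ha' _ mq.2 _ mp.2 h) (not_lt.2 hlt.le)
          omega
      · constructor
        · intro hlt
          apply hb' _ mp.2 _ mq.2
          have : b p.1 < b q.1 := by
            rcases lt_or_ge (b p.1) (b q.1) with h | h
            · exact h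
            · exact absurd (hb _ mq.1 _ mp.1 (lt_of_le_of_ne h hn.2.symm)) (not_lt.2 hlt.le)
          omega
        · intro hlt
          apply hb _ mp.1 _ mq.1
          have : b' p.2 < b' q.2 := by
            rcases lt_trichotomy (b' p.2) (b' q.2) with h | h | h
            · exact h
            · exfalso; apply hn.2; omega
            · exact absurd (hb' _ mq.2 _ mp.2 h) (not_lt.2 hlt.le)
          omega
  · rw [Finset.card_image_of_injOn hinj1]
    have : U.card * V.card = P.card := by rw [hP, Finset.card_product]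
    rw [this]
    exact hcard.trans (Nat.add_le_add_left hGG _)

/-- Iterated extraction. -/
theorem extract_iter {x y : Fin n → K} (a b a' b' : Fin n → ℕ) (L S : Finset (Fin n)) (m : ℕ)
    (hm : 0 < m) (lam : ℝ) (hlam : 0 < lam)
    (ha : ∀ e ∈ L, ∀ e' ∈ L, a e < a e' → e < e')
    (hb : ∀ e ∈ L, ∀ e' ∈ L, b e < b e' → x e < x e')
    (ha' : ∀ e ∈ S, ∀ e' ∈ S, a' e < a' e' → e < e')
    (hb' : ∀ e ∈ S, ∀ e' ∈ S, b' e < b' e' → y e < y e')
    (hU : ∀ e ∈ L, a e < m ∧ b e < m) (hV : ∀ e ∈ S, a' e < m ∧ b' e < m)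
    (hL : 5 * lam / 18 ≤ L.card) (hS : lam ≤ 4 * S.card)
    (hconf : ((conf a b a' b' L S).card : ℝ) ≤ lam * S.card / 54) (t : ℕ) :
    ∃ U ⊆ L, ∃ V ⊆ S, Sim x y U V t ∧
      (lam / 6 ≤ U.card ∨ t * (lam * S.card / (216 * (m : ℝ) ^ 2)) ≤ U.card) := by
  classical
  induction t with
  | zero => exact ⟨∅, by simp, ∅, by simp, Sim.empty x y, Or.inr (by simp)⟩
  | succ t ih =>
    obtain ⟨U, hUL, V, hVS, hsim, hor⟩ := ih
    by_cases hbig : lam / 6 ≤ U.card
    · exact ⟨U, hUL, V, hVS, hsim.mono (Nat.le_succ t), Or.inl hbig⟩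
    · push Not at hbig
      have hcardUV : U.card = V.card := hsim.card_eq
      have hor' : t * (lam * S.card / (216 * (m : ℝ) ^ 2)) ≤ U.card := by
        rcases hor with h | h
        · exact absurd h (not_le.2 hbig)
        · exact h
      obtain ⟨U', hU', V', hV', hsim', hc⟩ := extract (x := x) (y := y) a b a' b' (L \ U) (S \ V) m hm
        (fun e he e' he' => ha e (Finset.sdiff_subset he) e' (Finset.sdiff_subset he'))
        (fun e he e' he' => hb e (Finset.sdiff_subset he) e' (Finset.sdiff_subset he'))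
        (fun e he e' he' => ha' e (Finset.sdiff_subset he) e' (Finset.sdiff_subset he'))
        (fun e he e' he' => hb' e (Finset.sdiff_subset he) e' (Finset.sdiff_subset he'))
        (fun e he => hU e (Finset.sdiff_subset he)) (fun e he => hV e (Finset.sdiff_subset he))
      have hd1 : Disjoint U U' := (Finset.disjoint_sdiff).mono_right hU'
      have hd2 : Disjoint V V' := (Finset.disjoint_sdiff).mono_right hV'
      refine ⟨U ∪ U', Finset.union_subset hUL (hU'.trans Finset.sdiff_subset), V ∪ V',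
        Finset.union_subset hVS (hV'.trans Finset.sdiff_subset), hsim.union hsim' hd1 hd2,
        Or.inr ?_⟩
      rw [Finset.card_union_of_disjoint hd1]
      have hmpos : (0 : ℝ) < m := by exact_mod_cast hm
      have hc1 : (((L \ U).card : ℝ)) = L.card - U.card := by
        rw [Finset.card_sdiff_of_subset hUL, Nat.cast_sub (Finset.card_le_card hUL)]
      have hc2 : (((S \ V).card : ℝ)) = S.card - U.card := by
        rw [Finset.card_sdiff_of_subset hVS, Nat.cast_sub (Finset.card_le_card hVS), hcardUV]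
      have h3 : lam / 9 ≤ ((L \ U).card : ℝ) := by rw [hc1]; linarith
      have h4 : (S.card : ℝ) / 3 ≤ ((S \ V).card : ℝ) := by rw [hc2]; linarith
      have h5 : lam / 9 * ((S.card : ℝ) / 3) ≤ ((L \ U).card : ℝ) * ((S \ V).card : ℝ) := by
        apply mul_le_mul h3 h4 (by positivity) (le_trans (by positivity) h3)
      have h6 : ((L \ U).card : ℝ) * ((S \ V).card : ℝ) ≤
          ((conf a b a' b' (L \ U) (S \ V)).card : ℝ) + 4 * (m : ℝ) ^ 2 * U'.card := by
        exact_mod_cast hc
      have h7 : ((conf a b a' b' (L \ U) (S \ V)).card : ℝ) ≤ (conf a b a' b' L S).card := by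
        exact_mod_cast conf_mono Finset.sdiff_subset Finset.sdiff_subset
      have h8 : lam * S.card / 54 ≤ 4 * (m : ℝ) ^ 2 * U'.card := by
        have e1 : lam / 9 * ((S.card : ℝ) / 3) = lam * S.card / 54 + lam * S.card / 54 := by ring
        linarith
      have h9 : lam * S.card / (216 * (m : ℝ) ^ 2) ≤ U'.card := by
        rw [div_le_iff₀ (by positivity)]
        linarith
      push_cast
      linarith

end Pool.Agent.Helper99.Perm
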