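import Pool.Agent.Helper99.Perm.Absorb

set_option autoImplicit false

namespace Pool.Agent.Helper99.Perm

open Finset

variable {n : ℕ}

def tau (l : ℕ → ℕ) (k : ℕ) : ℕ := 2 * ∑ j ∈ range k, l j + l k

def st (l : ℕ → ℕ) : ℕ → ℕ
  | 0 => 0
  | (k + 1) => tau l k

def fs (l : ℕ → ℕ) : ℕ → ℕ
  | 0 => l 0
  | (k + 1) => l k + l (k + 1)

lemma st_add_fs (l : ℕ → ℕ) (k : ℕ) : st l k + fs l k = tau l k := by
  cases k with
  | zero => simp [st, fs, tau]
  | succ k =>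
    simp only [st, fs, tau, Finset.sum_range_succ]
    ring

lemma st_succ (l : ℕ → ℕ) (k : ℕ) : st l (k + 1) = tau l k := rfl

lemma tau_mono (l : ℕ → ℕ) {k k' : ℕ} (h : k ≤ k') : tau l k ≤ tau l k' := by
  induction k' with
  | zero => simp_all
  | succ k' ih =>
    rcases Nat.lt_or_ge k (k' + 1) with h' | h'
    · have := ih (by omega)
      refine this.trans ?_
      rw [← st_add_fs l (k' + 1), st_succ]
      omega
    · have : k = k' + 1 := by omega
      rw [this]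

noncomputable def cst (l : ℕ) : ℕ := ⌊1000000 * (l : ℝ) ^ (1 / 3 : ℝ)⌋₊

/-- few clusters of four points -/
def GoodQ {M : ℕ} (T : Finset (Fin n)) (t0 l : ℕ) (x : Fin n → Fin M) : Prop :=
  ((quads T t0 (w0f l) (M / Df l) x).card : ℝ) ≤ (l : ℝ) ^ (1 / 3 : ℝ)

lemma quads_congr {M : ℕ} (T : Finset (Fin n)) (t0 w0 q : ℕ) (x x' : Fin n → Fin M)
    (h : ∀ p ∈ T, x p = x' p) : quads T t0 w0 q x = quads T t0 w0 q x' := by
  unfold quads
  apply Finset.filter_congr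
  rintro ⟨p1, p2, p3, p4⟩ hp
  have hm := (Finset.mem_filter.1 hp).1
  simp only [Finset.mem_product] at hm
  simp only [h p1 hm.1, h p2 hm.2.1, h p3 hm.2.2.1, h p4 hm.2.2.2]

lemma GoodQ_congr {M : ℕ} (T : Finset (Fin n)) (t0 l : ℕ) (x x' : Fin n → Fin M)
    (h : ∀ p ∈ T, x p = x' p) : GoodQ T t0 l x ↔ GoodQ T t0 l x' := by
  unfold GoodQ
  rw [quads_congr T t0 _ _ x x' h]

lemma goodQ_prob {M l : ℕ} (hl : Large l) (hdiv : ∀ d, 0 < d → d ≤ n → d ∣ M) (hM : 0 < M)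
    (t0 f : ℕ) (hf : f ≤ 3 * l) (hln : l ≤ n) (htf : t0 + f ≤ n) :
    Pr (fun x : Fin n → Fin M => ¬ GoodQ (Blk t0 f : Finset (Fin n)) t0 l x) ≤
      24 * (l : ℝ) ^ (-(1 / 12) : ℝ) := by
  have hlp := l_pos hl
  have hDf_le : Df l ≤ n := by
    have h1 := mf_ge2 hl 0
    have h2 : mf l 0 ≤ l := by exact_mod_cast mf_le_l hl 0
    omega
  have hDf_dvd : Df l ∣ M := hdiv _ (Df_one hl) hDf_le
  have h := quads_prob (n := n) (M := M) (m := Df l) (q := M / Df l) (Df_one hl)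
    (Nat.div_pos (Nat.le_of_dvd hM hDf_dvd) (Df_one hl)) (Nat.mul_div_cancel' hDf_dvd)
    (Blk t0 f) t0 (w0f l) (w0f_one hl) (fun p hp => (mem_Blk.1 hp).1)
    ((l : ℝ) ^ (1 / 3 : ℝ)) (by positivity)
  refine le_trans (Pr_mono ?_) (h.trans ?_)
  · intro x hx
    unfold GoodQ at hx
    exact not_le.1 hx
  · rw [card_Blk htf]
    have hD : (0 : ℝ) < Df l := by exact_mod_cast Df_one hl
    have e1 : (f : ℝ) ≤ 3 * l := by exact_mod_cast hf
    have e2 : (w0f l : ℝ) ≤ 2 * (l : ℝ) ^ (3 / 8 : ℝ) := by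
      have := w0f_le hl
      have := one_le_pow hl (a := 3 / 8) (by norm_num)
      linarith
    have e3 : (w0f l : ℝ) ^ 3 ≤ 8 * (l : ℝ) ^ (9 / 8 : ℝ) := by
      calc (w0f l : ℝ) ^ 3 ≤ (2 * (l : ℝ) ^ (3 / 8 : ℝ)) ^ 3 :=
            pow_le_pow_left₀ (by positivity) e2 3
        _ = 8 * ((l : ℝ) ^ (3 / 8 : ℝ)) ^ 3 := by ring
        _ = 8 * (l : ℝ) ^ (9 / 8 : ℝ) := by
            rw [← Real.rpow_natCast, ← Real.rpow_mul hlp.le]; norm_num
    have e4 : (l : ℝ) ^ (15 / 8 : ℝ) ≤ (Df l : ℝ) ^ 3 := by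
      calc (l : ℝ) ^ (15 / 8 : ℝ) = ((l : ℝ) ^ (5 / 8 : ℝ)) ^ 3 := by
            rw [← Real.rpow_natCast, ← Real.rpow_mul hlp.le]; norm_num
        _ ≤ (Df l : ℝ) ^ 3 := pow_le_pow_left₀ (by positivity) (Df_ge hl) 3
    have e5 : (f : ℝ) * (w0f l : ℝ) ^ 3 ≤ (3 * l) * (8 * (l : ℝ) ^ (9 / 8 : ℝ)) :=
      mul_le_mul e1 e3 (by positivity) (by positivity)
    have e6 : (l : ℝ) * (l : ℝ) ^ (9 / 8 : ℝ) = (l : ℝ) ^ (17 / 8 : ℝ) := by
      have := mulpow hl 1 (9 / 8)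
      rw [Real.rpow_one] at this
      rw [this]; norm_num
    rw [div_div, div_le_iff₀ (by positivity)]
    have e7 : (l : ℝ) ^ (17 / 8 : ℝ) =
        (l : ℝ) ^ (-(1 / 12) : ℝ) * ((l : ℝ) ^ (15 / 8 : ℝ) * (l : ℝ) ^ (1 / 3 : ℝ)) := by
      rw [mulpow hl, mulpow hl]; norm_num
    calc (f : ℝ) * (w0f l : ℝ) ^ 3 ≤ (3 * l) * (8 * (l : ℝ) ^ (9 / 8 : ℝ)) := e5
      _ = 24 * (l : ℝ) ^ (17 / 8 : ℝ) := by rw [← e6]; ring
      _ = 24 * (l : ℝ) ^ (-(1 / 12) : ℝ) *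
          ((l : ℝ) ^ (15 / 8 : ℝ) * (l : ℝ) ^ (1 / 3 : ℝ)) := by rw [e7]; ring
      _ ≤ 24 * (l : ℝ) ^ (-(1 / 12) : ℝ) * ((Df l : ℝ) ^ 3 * (l : ℝ) ^ (1 / 3 : ℝ)) := by
          apply mul_le_mul_of_nonneg_left _ (by positivity)
          exact mul_le_mul_of_nonneg_right e4 (by positivity)

/-- The state after round `k`. -/
def State (M : ℕ) (l : ℕ → ℕ) (k : ℕ) (x y : Fin n → Fin M) : Prop :=
  ∃ L1 L2 : Finset (Fin n), L1 ⊆ Blk (st l k) (fs l k) ∧ L2 ⊆ Blk (st l k) (fs l k) ∧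
    L1.card = l k ∧ L2.card = l k ∧
    Sim x y (Blk 0 (tau l k) \ L1) (Blk 0 (tau l k) \ L2) (∑ j ∈ range k, 2 * cst (l j)) ∧
    GoodQ (Blk (st l k) (fs l k)) (st l k) (l k) x ∧ GoodQ (Blk (st l k) (fs l k)) (st l k) (l k) y

lemma State.congr {M : ℕ} {l : ℕ → ℕ} {k : ℕ} {x y x' y' : Fin n → Fin M}
    (h : State M l k x y) (hx : ∀ p : Fin n, (p : ℕ) < tau l k → x p = x' p)
    (hy : ∀ p : Fin n, (p : ℕ) < tau l k → y p = y' p) : State M l k x' y' := by
  obtain ⟨L1, L2, h1, h2, h3, h4, h5, h6, h7⟩ := h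
  have hB : ∀ p ∈ (Blk (st l k) (fs l k) : Finset (Fin n)), (p : ℕ) < tau l k := by
    intro p hp
    have := (mem_Blk.1 hp).2
    rwa [st_add_fs] at this
  refine ⟨L1, L2, h1, h2, h3, h4, h5.congr ?_ ?_, ?_, ?_⟩
  · intro a ha
    have := (mem_Blk.1 (Finset.mem_sdiff.1 ha).1).2
    exact hx a (by omega)
  · intro a ha
    have := (mem_Blk.1 (Finset.mem_sdiff.1 ha).1).2
    exact hy a (by omega)
  · exact (GoodQ_congr _ _ _ _ _ (fun p hp => hx p (hB p hp))).1 h6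
  · exact (GoodQ_congr _ _ _ _ _ (fun p hp => hy p (hB p hp))).1 h7

theorem round {M : ℕ} (hdiv : ∀ d, 0 < d → d ≤ n → d ∣ M) (hM : 0 < M) (l : ℕ → ℕ) (k : ℕ)
    (hl : Large (l k)) (hl' : Large (l (k + 1))) (hratio1 : 0.55 * (l k : ℝ) ≤ l (k + 1))
    (hratio2 : l k ≤ 2 * l (k + 1)) (hf : fs l k ≤ 3 * l k) (htau : tau l (k + 1) ≤ n) :
    Pr (fun w : (Fin n → Fin M) × (Fin n → Fin M) =>
      (Function.Injective w.1 ∧ Function.Injective w.2) ∧ State M l k w.1 w.2 ∧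
        ¬ State M l (k + 1) w.1 w.2) ≤
      48 * (l (k + 1) : ℝ) ^ (-(1 / 12) : ℝ) + 2 * (l k : ℝ) ^ (-(1 / 2) : ℝ) := by
  classical
  have hne : Nonempty (Fin M) := ⟨⟨0, hM⟩⟩
  have htf : st l (k + 1) + fs l (k + 1) ≤ n := by rw [st_add_fs]; exact htau
  set T : Finset (Fin n) := Blk (st l (k + 1)) (fs l (k + 1)) with hT
  have hTmem : ∀ p ∈ T, tau l k ≤ (p : ℕ) := fun p hp => (mem_Blk.1 hp).1
  have hgl : 1.55 * (l k : ℝ) ≤ (fs l (k + 1) : ℕ) := by
    simp only [fs]; push_cast; linarith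
  have hlk1 : l (k + 1) ≤ n := by
    have : l (k + 1) ≤ tau l (k + 1) := by unfold tau; omega
    omega
  set P : (Fin n → Fin M) × (Fin n → Fin M) → Prop := fun w =>
      (Function.Injective w.1 ∧ Function.Injective w.2) ∧ State M l k w.1 w.2 ∧
        ¬ State M l (k + 1) w.1 w.2 with hP
  apply resample (fun w w' => (ov T w.1 w'.1, ov T w.2 w'.2)) (ov_mix2_injective T) P
  rintro ⟨x, y⟩
  have hposp : (0 : ℝ) ≤ 48 * (l (k + 1) : ℝ) ^ (-(1 / 12) : ℝ) +
      2 * (l k : ℝ) ^ (-(1 / 2) : ℝ) := by positivity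
  by_cases hcase : ∃ r s : Fin n → Fin M, (Function.Injective (ov T x r) ∧
      Function.Injective (ov T y s)) ∧ State M l k (ov T x r) (ov T y s)
  swap
  · rw [Pr_false]
    · exact hposp
    · rintro ⟨r, s⟩ ⟨h1, h2, -⟩
      exact hcase ⟨r, s, h1, h2⟩
  obtain ⟨r0, s0, ⟨hix, hiy⟩, hst⟩ := hcase
  have hovx : ∀ (r : Fin n → Fin M) (p : Fin n), (p : ℕ) < tau l k → ov T x r p = x p := by
    intro r p hp
    apply ov_notMem
    intro hpT
    have := hTmem p hpT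
    omega
  have hovy : ∀ (r : Fin n → Fin M) (p : Fin n), (p : ℕ) < tau l k → ov T y r p = y p := by
    intro r p hp
    apply ov_notMem
    intro hpT
    have := hTmem p hpT
    omega
  have hst' : State M l k x y := hst.congr (hovx r0) (hovy s0)
  obtain ⟨L1, L2, hL1, hL2, hc1, hc2, hsim, hq1, hq2⟩ := hst'
  have hBt : ∀ p ∈ (Blk (st l k) (fs l k) : Finset (Fin n)), (p : ℕ) < tau l k := by
    intro p hp
    have := (mem_Blk.1 hp).2
    rwa [st_add_fs] at this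
  have hxinj : Set.InjOn x (L1 : Set (Fin n)) := by
    intro p hp p' hp' h
    apply hix
    rw [hovx r0 p (hBt p (hL1 hp)), hovx r0 p' (hBt p' (hL1 hp'))]
    exact h
  have hyinj : Set.InjOn y (L2 : Set (Fin n)) := by
    intro p hp p' hp' h
    apply hiy
    rw [hovy s0 p (hBt p (hL2 hp)), hovy s0 p' (hBt p' (hL2 hp'))]
    exact h
  have hA1 := absorb hl hdiv hM x (st l k) (fs l k) hf L1 hL1 hc1.le hxinj hq1
    (st l (k + 1)) (fs l (k + 1)) htf hgl
  have hA2 := absorb hl hdiv hM y (st l k) (fs l k) hf L2 hL2 hc2.le hyinj hq2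
    (st l (k + 1)) (fs l (k + 1)) htf hgl
  have hfs' : fs l (k + 1) ≤ 3 * l (k + 1) := by simp only [fs]; omega
  have hG := goodQ_prob (n := n) hl' hdiv hM (st l (k + 1)) (fs l (k + 1)) hfs' hlk1 htf
  rw [← hT] at hA1 hA2 hG
  set EA1 : (Fin n → Fin M) → Prop := fun s => ¬ ∃ V ⊆ T, Sim x s L1 V
    ⌊1000000 * (l k : ℝ) ^ (1 / 3 : ℝ)⌋₊ with hEA1
  set EA2 : (Fin n → Fin M) → Prop := fun r => ¬ ∃ V ⊆ T, Sim y r L2 V
    ⌊1000000 * (l k : ℝ) ^ (1 / 3 : ℝ)⌋₊ with hEA2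
  set EG : (Fin n → Fin M) → Prop := fun r => ¬ GoodQ T (st l (k + 1)) (l (k + 1)) r with hEG
  have hsub : ∀ w : (Fin n → Fin M) × (Fin n → Fin M), P (ov T x w.1, ov T y w.2) →
      (EA1 w.2 ∨ EA2 w.1) ∨ (EG w.1 ∨ EG w.2) := by
    rintro ⟨r, s⟩ ⟨-, -, hns⟩
    by_contra hcon
    push Not at hcon
    obtain ⟨⟨hn1, hn2⟩, hn3, hn4⟩ := hcon
    simp only [hEA1, hEA2, hEG, not_not] at hn1 hn2 hn3 hn4
    obtain ⟨V1, hV1, hs1⟩ := hn1
    obtain ⟨V2, hV2, hs2⟩ := hn2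
    apply hns
    have hcV1 : V1.card = l k := by rw [← hs1.card_eq, hc1]
    have hcV2 : V2.card = l k := by rw [← hs2.card_eq, hc2]
    have hTcard : T.card = l k + l (k + 1) := by
      rw [hT, card_Blk htf]; rfl
    have hL1T : L1 ⊆ Blk 0 (tau l k) := by
      intro p hp; rw [mem_Blk]; have := hBt p (hL1 hp); omega
    have hL2T : L2 ⊆ Blk 0 (tau l k) := by
      intro p hp; rw [mem_Blk]; have := hBt p (hL2 hp); omega
    have hTB : T ⊆ Blk 0 (tau l (k + 1)) := by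
      intro p hp
      rw [mem_Blk]
      have := (mem_Blk.1 hp).2
      rw [st_add_fs] at this
      omega
    have hBB : (Blk 0 (tau l (k + 1)) : Finset (Fin n)) = Blk 0 (tau l k) ∪ T := by
      ext p
      rw [Finset.mem_union, mem_Blk, mem_Blk, hT, mem_Blk, st_add_fs, st_succ]
      have : tau l k ≤ tau l (k + 1) := tau_mono l (Nat.le_succ k)
      omega
    have hdTB : ∀ p, p ∈ T → p ∉ (Blk 0 (tau l k) : Finset (Fin n)) := by
      intro p hp hp'
      have h1 := hTmem p hp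
      have h2 := (mem_Blk.1 hp').2
      omega
    -- the three pieces
    have s0' : Sim (ov T x r) (ov T y s) (Blk 0 (tau l k) \ L1) (Blk 0 (tau l k) \ L2)
        (∑ j ∈ range k, 2 * cst (l j)) :=
      hsim.congr
        (fun p hp => (hovx r p (by have := (mem_Blk.1 (Finset.mem_sdiff.1 hp).1).2; omega)).symm)
        (fun p hp => (hovy s p (by have := (mem_Blk.1 (Finset.mem_sdiff.1 hp).1).2; omega)).symm)
    have s1' : Sim (ov T x r) (ov T y s) L1 V1 (cst (l k)) :=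
      hs1.congr (fun p hp => (hovx r p (hBt p (hL1 hp))).symm)
        (fun p hp => (ov_mem (hV1 hp)).symm)
    have s2' : Sim (ov T x r) (ov T y s) V2 L2 (cst (l k)) :=
      (hs2.congr (fun p hp => (hovy s p (hBt p (hL2 hp))).symm)
        (fun p hp => (ov_mem (hV2 hp)).symm)).symm
    have hu1 := s0'.union s1' Finset.sdiff_disjoint (by
      rw [Finset.disjoint_left]
      intro p hp hp'
      exact hdTB p (hV1 hp') (Finset.mem_sdiff.1 hp).1)
    have hu2 := hu1.union s2' (by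
      rw [Finset.disjoint_left]
      intro p hp hp'
      rcases Finset.mem_union.1 hp with h | h
      · exact hdTB p (hV2 hp') (Finset.mem_sdiff.1 h).1
      · exact hdTB p (hV2 hp') (hL1T h)) (by
      rw [Finset.disjoint_left]
      intro p hp hp'
      rcases Finset.mem_union.1 hp with h | h
      · exact (Finset.mem_sdiff.1 h).2 hp'
      · exact hdTB p (hV1 h) (hL2T hp'))
    refine ⟨T \ V2, T \ V1, Finset.sdiff_subset, Finset.sdiff_subset, ?_, ?_, ?_, ?_, ?_⟩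
    · rw [Finset.card_sdiff_of_subset hV2, hTcard, hcV2]; omega
    · rw [Finset.card_sdiff_of_subset hV1, hTcard, hcV1]; omega
    · have eA : (Blk 0 (tau l k) \ L1) ∪ L1 ∪ V2 =
          (Blk 0 (tau l (k + 1)) : Finset (Fin n)) \ (T \ V2) := by
        ext p
        rw [hBB]
        simp only [Finset.mem_union, Finset.mem_sdiff]
        constructor
        · rintro ((⟨h1, h2⟩ | h1) | h1)
          · exact ⟨Or.inl h1, fun h => hdTB p h.1 h1⟩
          · exact ⟨Or.inl (hL1T h1), fun h => hdTB p h.1 (hL1T h1)⟩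
          · exact ⟨Or.inr (hV2 h1), fun h => h.2 h1⟩
        · rintro ⟨h1 | h1, h2⟩
          · by_cases h3 : p ∈ L1
            · exact Or.inl (Or.inr h3)
            · exact Or.inl (Or.inl ⟨h1, h3⟩)
          · right
            by_contra h3
            exact h2 ⟨h1, h3⟩
      have eB : (Blk 0 (tau l k) \ L2) ∪ V1 ∪ L2 =
          (Blk 0 (tau l (k + 1)) : Finset (Fin n)) \ (T \ V1) := by
        ext p
        rw [hBB]
        simp only [Finset.mem_union, Finset.mem_sdiff]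
        constructor
        · rintro ((⟨h1, h2⟩ | h1) | h1)
          · exact ⟨Or.inl h1, fun h => hdTB p h.1 h1⟩
          · exact ⟨Or.inr (hV1 h1), fun h => h.2 h1⟩
          · exact ⟨Or.inl (hL2T h1), fun h => hdTB p h.1 (hL2T h1)⟩
        · rintro ⟨h1 | h1, h2⟩
          · by_cases h3 : p ∈ L2
            · exact Or.inr h3
            · exact Or.inl (Or.inl ⟨h1, h3⟩)
          · left; right
            by_contra h3
            exact h2 ⟨h1, h3⟩
      rw [eA, eB] at hu2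
      refine hu2.mono ?_
      rw [Finset.sum_range_succ]
      omega
    · exact (GoodQ_congr _ _ _ _ _ (fun p hp => (ov_mem hp).symm)).1 hn3
    · exact (GoodQ_congr _ _ _ _ _ (fun p hp => (ov_mem hp).symm)).1 hn4
  have b1 : Pr (fun w : (Fin n → Fin M) × (Fin n → Fin M) => EA1 w.2) ≤
      (l k : ℝ) ^ (-(1 / 2) : ℝ) := by rw [Pr_snd]; exact hA1
  have b2 : Pr (fun w : (Fin n → Fin M) × (Fin n → Fin M) => EA2 w.1) ≤
      (l k : ℝ) ^ (-(1 / 2) : ℝ) := by rw [Pr_fst]; exact hA2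
  have b3 : Pr (fun w : (Fin n → Fin M) × (Fin n → Fin M) => EG w.1) ≤
      24 * (l (k + 1) : ℝ) ^ (-(1 / 12) : ℝ) := by rw [Pr_fst]; exact hG
  have b4 : Pr (fun w : (Fin n → Fin M) × (Fin n → Fin M) => EG w.2) ≤
      24 * (l (k + 1) : ℝ) ^ (-(1 / 12) : ℝ) := by rw [Pr_snd]; exact hG
  have c1 := Pr_add (W := (Fin n → Fin M) × (Fin n → Fin M)) (P := fun w => P (ov T x w.1, ov T y w.2))
    (Q := fun w => EA1 w.2 ∨ EA2 w.1) (R := fun w => EG w.1 ∨ EG w.2) hsub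
  have c2 := Pr_add (W := (Fin n → Fin M) × (Fin n → Fin M)) (P := fun w => EA1 w.2 ∨ EA2 w.1)
    (Q := fun w => EA1 w.2) (R := fun w => EA2 w.1) (fun w h => h)
  have c3 := Pr_add (W := (Fin n → Fin M) × (Fin n → Fin M)) (P := fun w => EG w.1 ∨ EG w.2)
    (Q := fun w => EG w.1) (R := fun w => EG w.2) (fun w h => h)
  have c1' : Pr (fun w : (Fin n → Fin M) × (Fin n → Fin M) => P (ov T x w.1, ov T y w.2)) ≤
    48 * (l (k + 1) : ℝ) ^ (-(1 / 12) : ℝ) + 2 * (l k : ℝ) ^ (-(1 / 2) : ℝ) := by linarith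
  exact c1'

theorem state_zero {M : ℕ} (hdiv : ∀ d, 0 < d → d ≤ n → d ∣ M) (hM : 0 < M) (l : ℕ → ℕ)
    (hl : Large (l 0)) (htau : l 0 ≤ n) :
    Pr (fun w : (Fin n → Fin M) × (Fin n → Fin M) => ¬ State M l 0 w.1 w.2) ≤
      48 * (l 0 : ℝ) ^ (-(1 / 12) : ℝ) := by
  have hne : Nonempty (Fin M) := ⟨⟨0, hM⟩⟩
  have hG := goodQ_prob (n := n) hl hdiv hM 0 (l 0) (by omega) htau (by omega)
  set EG : (Fin n → Fin M) → Prop := fun r => ¬ GoodQ (Blk 0 (l 0)) 0 (l 0) r with hEG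
  have b3 : Pr (fun w : (Fin n → Fin M) × (Fin n → Fin M) => EG w.1) ≤
      24 * (l 0 : ℝ) ^ (-(1 / 12) : ℝ) := by rw [Pr_fst]; exact hG
  have b4 : Pr (fun w : (Fin n → Fin M) × (Fin n → Fin M) => EG w.2) ≤
      24 * (l 0 : ℝ) ^ (-(1 / 12) : ℝ) := by rw [Pr_snd]; exact hG
  have c1 := Pr_add (W := (Fin n → Fin M) × (Fin n → Fin M))
    (P := fun w => ¬ State M l 0 w.1 w.2)
    (Q := fun w => EG w.1) (R := fun w => EG w.2) (by
      rintro ⟨x, y⟩ h
      by_contra hcon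
      push Not at hcon
      obtain ⟨h1, h2⟩ := hcon
      simp only [hEG, not_not] at h1 h2
      apply h
      have e : tau l 0 = l 0 := by simp [tau]
      refine ⟨Blk 0 (l 0), Blk 0 (l 0), Finset.Subset.refl _, Finset.Subset.refl _,
        card_Blk (by omega), card_Blk (by omega), ?_, h1, h2⟩
      rw [e, Finset.sdiff_self]
      simpa using Sim.empty x y)
  linarith

theorem rounds {M : ℕ} (hdiv : ∀ d, 0 < d → d ≤ n → d ∣ M) (hM : 0 < M) (l : ℕ → ℕ) (K : ℕ)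
    (hl : ∀ k ≤ K, Large (l k)) (hratio1 : ∀ k < K, 0.55 * (l k : ℝ) ≤ l (k + 1))
    (hratio2 : ∀ k < K, l k ≤ 2 * l (k + 1)) (htau : tau l K ≤ n) :
    Pr (fun w : (Fin n → Fin M) × (Fin n → Fin M) =>
      (Function.Injective w.1 ∧ Function.Injective w.2) ∧ ¬ State M l K w.1 w.2) ≤
      ∑ k ∈ range (K + 1), 48 * (l k : ℝ) ^ (-(1 / 12) : ℝ) +
        ∑ k ∈ range K, 2 * (l k : ℝ) ^ (-(1 / 2) : ℝ) := by
  induction K with
  | zero =>
    have h := state_zero (n := n) hdiv hM l (hl 0 le_rfl) (by simpa [tau] using htau)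
    refine le_trans (Pr_mono (fun w h => h.2)) (h.trans ?_)
    simp
  | succ K ih =>
    have ih' := ih (fun k hk => hl k (by omega)) (fun k hk => hratio1 k (by omega))
      (fun k hk => hratio2 k (by omega)) ((tau_mono l (Nat.le_succ K)).trans htau)
    have hr := round (n := n) hdiv hM l K (hl K (by omega)) (hl (K + 1) le_rfl)
      (hratio1 K (by omega)) (hratio2 K (by omega)) (by
        cases K with
        | zero => simp only [fs]; omega
        | succ K =>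
          simp only [fs]
          have := hratio2 K (by omega)
          omega) htau
    have c := Pr_add (W := (Fin n → Fin M) × (Fin n → Fin M))
      (P := fun w => (Function.Injective w.1 ∧ Function.Injective w.2) ∧
        ¬ State M l (K + 1) w.1 w.2)
      (Q := fun w => (Function.Injective w.1 ∧ Function.Injective w.2) ∧ ¬ State M l K w.1 w.2)
      (R := fun w => (Function.Injective w.1 ∧ Function.Injective w.2) ∧ State M l K w.1 w.2 ∧
        ¬ State M l (K + 1) w.1 w.2) (by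
        rintro w ⟨h1, h2⟩
        by_cases h : State M l K w.1 w.2
        · exact Or.inr ⟨h1, h, h2⟩
        · exact Or.inl ⟨h1, h⟩)
    rw [Finset.sum_range_succ (fun k => 48 * (l k : ℝ) ^ (-(1 / 12) : ℝ)) (K + 1),
      Finset.sum_range_succ (fun k => 2 * (l k : ℝ) ^ (-(1 / 2) : ℝ)) K]
    linarith

end Pool.Agent.Helper99.Perm
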