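import Pool.Agent.Helper99.Perm.Rounds

set_option autoImplicit false

namespace Pool.Agent.Helper99.Perm

open Finset

lemma eventually_log (C ε : ℝ) (hε : 0 < ε) (hC : 0 < C) :
    ∀ᶠ n : ℕ in Filter.atTop, C * ((Nat.log 2 n : ℝ) + 1) ≤ (n : ℝ) ^ ε := by
  have h1 : ∀ᶠ x : ℝ in Filter.atTop, Real.log x ≤ (1 / (4 * C)) * x ^ ε := by
    have h := (isLittleO_log_rpow_atTop (r := ε) hε).bound (c := 1 / (4 * C)) (by positivity)
    filter_upwards [h, Filter.eventually_ge_atTop (1 : ℝ)] with x hx hx1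
    rw [Real.norm_of_nonneg (Real.log_nonneg hx1), Real.norm_of_nonneg (by positivity)] at hx
    exact hx
  have h2 : ∀ᶠ x : ℝ in Filter.atTop, 2 * C ≤ x ^ ε :=
    (tendsto_rpow_atTop hε).eventually_ge_atTop _
  have h1' := (tendsto_natCast_atTop_atTop (R := ℝ)).eventually h1
  have h2' := (tendsto_natCast_atTop_atTop (R := ℝ)).eventually h2
  filter_upwards [h1', h2', Filter.eventually_ge_atTop 1] with l hl1 hl2 hl3
  have hlpos : (0 : ℝ) < l := by exact_mod_cast hl3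
  have h3 : ((Nat.log 2 l : ℕ) : ℝ) ≤ 2 * Real.log l := by
    have h4 : ((2 : ℝ)) ^ (Nat.log 2 l) ≤ l := by
      exact_mod_cast Nat.pow_log_le_self 2 (by omega)
    have h5 : (Nat.log 2 l : ℝ) * Real.log 2 ≤ Real.log l := by
      rw [← Real.log_pow]
      exact Real.log_le_log (by positivity) h4
    have h6 : (1 / 2 : ℝ) ≤ Real.log 2 := by
      have := Real.log_two_gt_d9
      linarith
    have h7 : (0 : ℝ) ≤ (Nat.log 2 l : ℝ) := by positivity
    nlinarith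
  have h8 : C * ((Nat.log 2 l : ℕ) : ℝ) ≤ (l : ℝ) ^ ε / 2 := by
    calc C * ((Nat.log 2 l : ℕ) : ℝ) ≤ C * (2 * ((1 / (4 * C)) * (l : ℝ) ^ ε)) := by
          apply mul_le_mul_of_nonneg_left _ hC.le
          linarith
      _ = (l : ℝ) ^ ε / 2 := by field_simp; ring
  linarith

noncomputable def Xf (n k : ℕ) : ℝ := (n : ℝ) / 5 * (3 / 5) ^ k
noncomputable def lf (n k : ℕ) : ℕ := ⌊Xf n k⌋₊

lemma Xf_nonneg (n k : ℕ) : 0 ≤ Xf n k := by unfold Xf; positivity
lemma Xf_succ (n k : ℕ) : Xf n (k + 1) = 3 / 5 * Xf n k := by unfold Xf; rw [pow_succ]; ring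
lemma lf_le (n k : ℕ) : (lf n k : ℝ) ≤ Xf n k := Nat.floor_le (Xf_nonneg n k)
lemma lf_ge (n k : ℕ) : Xf n k - 1 ≤ lf n k := (Nat.sub_one_lt_floor _).le

lemma sum_Xf (n K : ℕ) : 2 * ∑ j ∈ range K, Xf n j = n - 5 * Xf n K := by
  induction K with
  | zero => simp [Xf]; ring
  | succ K ih =>
    rw [Finset.sum_range_succ, mul_add, ih, Xf_succ]; ring

lemma tau_lf_le (n K : ℕ) : tau (lf n) K ≤ n := by
  have h : ((tau (lf n) K : ℕ) : ℝ) ≤ n := by
    unfold tau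
    push_cast
    have h1 : (∑ j ∈ range K, (lf n j : ℝ)) ≤ ∑ j ∈ range K, Xf n j :=
      Finset.sum_le_sum (fun j _ => lf_le n j)
    have h2 := sum_Xf n K
    have h3 := lf_le n K
    have h4 := Xf_nonneg n K
    linarith
  exact_mod_cast h

lemma tau_lf_ge (n K : ℕ) : (n : ℝ) - 4 * Xf n K - 2 * K - 1 ≤ tau (lf n) K := by
  unfold tau
  push_cast
  have h1 : ∑ j ∈ range K, (Xf n j - 1) ≤ (∑ j ∈ range K, (lf n j : ℝ)) :=
    Finset.sum_le_sum (fun j _ => lf_ge n j)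
  rw [Finset.sum_sub_distrib, Finset.sum_const, Finset.card_range, nsmul_eq_mul, mul_one] at h1
  have h2 := sum_Xf n K
  have h3 := lf_ge n K
  linarith

lemma Xf_cuberoot (n j : ℕ) : (Xf n j) ^ (1 / 3 : ℝ) ≤ (n : ℝ) ^ (1 / 3 : ℝ) * (9 / 10) ^ j := by
  have h : Xf n j ≤ n * ((9 / 10 : ℝ) ^ j) ^ 3 := by
    unfold Xf
    have h1 : ((3 : ℝ) / 5) ^ j ≤ ((9 / 10 : ℝ) ^ j) ^ 3 := by
      rw [← pow_mul, mul_comm, pow_mul]
      apply pow_le_pow_left₀ (by norm_num)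
      norm_num
    have h2 : (n : ℝ) / 5 ≤ n := by
      have : (0 : ℝ) ≤ n := by positivity
      linarith
    exact mul_le_mul h2 h1 (by positivity) (by positivity)
  calc (Xf n j) ^ (1 / 3 : ℝ) ≤ (n * ((9 / 10 : ℝ) ^ j) ^ 3) ^ (1 / 3 : ℝ) :=
        Real.rpow_le_rpow (Xf_nonneg n j) h (by norm_num)
    _ = (n : ℝ) ^ (1 / 3 : ℝ) * (9 / 10) ^ j := by
        rw [Real.mul_rpow (by positivity) (by positivity)]
        congr 1
        rw [← Real.rpow_natCast, ← Real.rpow_mul (by positivity)]; norm_num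

lemma sum_cst (n K : ℕ) : ((∑ j ∈ range K, 2 * cst (lf n j) : ℕ) : ℝ) ≤
    20000000 * (n : ℝ) ^ (1 / 3 : ℝ) := by
  push_cast
  have h1 : ∀ j ∈ range K, 2 * (cst (lf n j) : ℝ) ≤
      2000000 * ((n : ℝ) ^ (1 / 3 : ℝ) * (9 / 10) ^ j) := by
    intro j _
    have h2 : (cst (lf n j) : ℝ) ≤ 1000000 * (lf n j : ℝ) ^ (1 / 3 : ℝ) :=
      Nat.floor_le (by positivity)
    have h3 : (lf n j : ℝ) ^ (1 / 3 : ℝ) ≤ (Xf n j) ^ (1 / 3 : ℝ) :=
      Real.rpow_le_rpow (by positivity) (lf_le n j) (by norm_num)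
    have h4 := Xf_cuberoot n j
    linarith
  refine (Finset.sum_le_sum h1).trans ?_
  rw [← Finset.mul_sum, ← Finset.mul_sum]
  have h2 : ∑ i ∈ range K, ((9 : ℝ) / 10) ^ i ≤ 10 := by
    rw [geom_sum_eq (by norm_num)]
    have h : (0 : ℝ) < (9 / 10 : ℝ) ^ K := by positivity
    rw [div_le_iff_of_neg (by norm_num)]
    linarith
  have h3 : 0 ≤ (n : ℝ) ^ (1 / 3 : ℝ) := by positivity
  nlinarith

lemma exists_K (n : ℕ) (hn : 1 ≤ n) : ∃ k, Xf n k ≤ (n : ℝ) ^ (1 / 3 : ℝ) := by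
  have hn' : (1 : ℝ) ≤ n := by exact_mod_cast hn
  have h1 : (1 : ℝ) ≤ (n : ℝ) ^ (1 / 3 : ℝ) := Real.one_le_rpow hn' (by norm_num)
  obtain ⟨k, hk⟩ := exists_pow_lt_of_lt_one (show (0 : ℝ) < 1 / n by positivity)
    (show (3 / 5 : ℝ) < 1 by norm_num)
  refine ⟨k, le_trans ?_ h1⟩
  unfold Xf
  have h2 : (n : ℝ) * (3 / 5) ^ k ≤ 1 := by
    have := mul_le_mul_of_nonneg_left hk.le (show (0 : ℝ) ≤ n by positivity)
    rwa [mul_one_div_cancel (by positivity)] at this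
  have h3 : (0 : ℝ) ≤ n * (3 / 5) ^ k := by positivity
  have h4 : (n : ℝ) / 5 * (3 / 5) ^ k = (n * (3 / 5) ^ k) / 5 := by ring
  rw [h4]; linarith

/-- From the final state to a full colouring. -/
lemma State.full {n M : ℕ} {l : ℕ → ℕ} {K : ℕ} {x y : Fin n → Fin M} (h : State M l K x y)
    (htau : tau l K ≤ n) :
    Sim x y Finset.univ Finset.univ (∑ j ∈ range K, 2 * cst (l j) + (n - tau l K + l K)) := by
  classical
  obtain ⟨L1, L2, h1, h2, h3, h4, h5, -, -⟩ := h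
  have hBt : (Blk (st l K) (fs l K) : Finset (Fin n)) ⊆ Blk 0 (tau l K) := by
    intro p hp
    rw [mem_Blk] at hp ⊢
    rw [st_add_fs] at hp
    omega
  have hB : (Blk 0 (tau l K) : Finset (Fin n)).card = tau l K := card_Blk (by omega)
  have hlK : l K ≤ tau l K := by unfold tau; omega
  have c1 : (Blk 0 (tau l K) \ L1)ᶜ.card = n - tau l K + l K := by
    rw [Finset.card_compl, Finset.card_sdiff_of_subset (h1.trans hBt), hB, h3, Fintype.card_fin]
    omega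
  have c2 : (Blk 0 (tau l K) \ L2)ᶜ.card = n - tau l K + l K := by
    rw [Finset.card_compl, Finset.card_sdiff_of_subset (h2.trans hBt), hB, h4, Fintype.card_fin]
    omega
  have hs := Sim.of_card_eq x y (c1.trans c2.symm)
  rw [c1] at hs
  have hu := h5.union hs (disjoint_compl_right) (disjoint_compl_right)
  rwa [Finset.union_compl, Finset.union_compl] at hu

theorem main_keys : ∀ᶠ n : ℕ in Filter.atTop, ∀ M : ℕ, (∀ d, 0 < d → d ≤ n → d ∣ M) → 0 < M →
    Pr (fun w : (Fin n → Fin M) × (Fin n → Fin M) =>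
      (Function.Injective w.1 ∧ Function.Injective w.2) ∧
        ¬ Sim w.1 w.2 Finset.univ Finset.univ ⌊30000000 * (n : ℝ) ^ (1 / 3 : ℝ)⌋₊) ≤
      (n : ℝ) ^ (-(1 / 72) : ℝ) := by
  obtain ⟨N0, hN0⟩ := Filter.eventually_atTop.1 eventually_large
  have e1 := eventually_log 1000 (1 / 72) (by norm_num) (by norm_num)
  have e2 : ∀ᶠ n : ℕ in Filter.atTop, (2 * (N0 : ℝ) + 1000) ≤ (n : ℝ) ^ (1 / 3 : ℝ) :=
    (tendsto_natCast_atTop_atTop (R := ℝ)).eventually
      ((tendsto_rpow_atTop (by norm_num : (0 : ℝ) < 1 / 3)).eventually_ge_atTop _)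
  filter_upwards [e1, e2, Filter.eventually_ge_atTop 1] with n hn1 hn2 hn3 M hdiv hM
  have hnr : (1 : ℝ) ≤ n := by exact_mod_cast hn3
  have hnp : (0 : ℝ) < n := by linarith
  set c : ℝ := (n : ℝ) ^ (1 / 3 : ℝ) with hc
  have hc1000 : 1000 ≤ c := by
    have : (0 : ℝ) ≤ N0 := by positivity
    linarith
  have hc3 : c ^ 3 = n := by
    rw [hc, ← Real.rpow_natCast, ← Real.rpow_mul hnp.le]; norm_num
  have hex := exists_K n hn3
  set K := Nat.find hex with hK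
  have hKle : Xf n K ≤ c := Nat.find_spec hex
  have hKlt : ∀ k < K, c < Xf n k := fun k hk => not_le.1 (Nat.find_min hex hk)
  have hK1 : 1 ≤ K := by
    by_contra h
    have h0 : K = 0 := by omega
    rw [h0] at hKle
    unfold Xf at hKle
    have h1 : (c ^ 3) / 5 ≤ c := by rw [hc3]; simpa using hKle
    have h2 : (1000000 : ℝ) ≤ c ^ 2 := by
      calc (1000000 : ℝ) = 1000 ^ 2 := by norm_num
        _ ≤ c ^ 2 := pow_le_pow_left₀ (by norm_num) hc1000 2
    have h3 : c ^ 3 = c ^ 2 * c := by ring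
    have h4 : 1000000 * c ≤ c ^ 2 * c := mul_le_mul_of_nonneg_right h2 (by linarith)
    linarith
  -- lower bound for all k ≤ K
  have hXge : ∀ k ≤ K, 3 / 5 * c ≤ Xf n k := by
    intro k hk
    rcases Nat.lt_or_ge k K with h | h
    · have := hKlt k h; linarith
    · have hkK : k = K := by omega
      rw [hkK]
      have h1 := hKlt (K - 1) (by omega)
      have h2 := Xf_succ n (K - 1)
      rw [Nat.sub_add_cancel hK1] at h2
      rw [h2]; linarith
  have hlge : ∀ k ≤ K, c / 2 ≤ (lf n k : ℝ) := by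
    intro k hk
    have h1 := hXge k hk
    have h2 := lf_ge n k
    linarith
  have hlarge : ∀ k ≤ K, Large (lf n k) := by
    intro k hk
    apply hN0
    have h1 := hlge k hk
    have : (N0 : ℝ) ≤ lf n k := by linarith
    exact_mod_cast this
  have hr1 : ∀ k < K, 0.55 * (lf n k : ℝ) ≤ lf n (k + 1) := by
    intro k hk
    have h1 := hKlt k hk
    have h2 := lf_ge n (k + 1)
    have h3 := lf_le n k
    rw [Xf_succ] at h2
    linarith
  have hr2 : ∀ k < K, lf n k ≤ 2 * lf n (k + 1) := by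
    intro k hk
    have h1 := hKlt k hk
    have h2 := lf_ge n (k + 1)
    have h3 := lf_le n k
    rw [Xf_succ] at h2
    have : (lf n k : ℝ) ≤ 2 * (lf n (k + 1) : ℝ) := by linarith
    exact_mod_cast this
  have htau := tau_lf_le n K
  have hmain := rounds (n := n) hdiv hM (lf n) K hlarge hr1 hr2 htau
  -- bound for K
  have hKbound : (K : ℝ) ≤ 2 * (Nat.log 2 n : ℝ) + 2 := by
    have h1 := hKlt (K - 1) (by omega)
    have h2 : (1 : ℝ) < Xf n (K - 1) := by linarith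
    unfold Xf at h2
    set j := (K - 1) / 2 with hj
    have h3 : ((3 : ℝ) / 5) ^ (K - 1) ≤ (1 / 2) ^ j := by
      calc ((3 : ℝ) / 5) ^ (K - 1) ≤ (3 / 5) ^ (2 * j) :=
            pow_le_pow_of_le_one (by norm_num) (by norm_num) (by omega)
        _ ≤ (1 / 2) ^ j := by
            rw [pow_mul]
            apply pow_le_pow_left₀ (by norm_num)
            norm_num
    have h4 : (2 : ℝ) ^ j < n := by
      have h5 : (1 : ℝ) < n / 5 * (1 / 2) ^ j :=
        lt_of_lt_of_le h2 (mul_le_mul_of_nonneg_left h3 (by positivity))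
      have h6 : (1 / 2 : ℝ) ^ j * 2 ^ j = 1 := by rw [← mul_pow]; norm_num
      have h7 : (0 : ℝ) < 2 ^ j := by positivity
      have h8 : 1 * (2 : ℝ) ^ j < n / 5 * (1 / 2) ^ j * 2 ^ j := mul_lt_mul_of_pos_right h5 h7
      rw [mul_assoc, h6] at h8
      linarith
    have h5 : 2 ^ j < n := by exact_mod_cast h4
    have h6 : j ≤ Nat.log 2 n := Nat.le_log_of_pow_le (by norm_num) h5.le
    have h7 : K ≤ 2 * Nat.log 2 n + 2 := by omega
    exact_mod_cast h7
  have hsum : ∑ k ∈ range (K + 1), 48 * (lf n k : ℝ) ^ (-(1 / 12) : ℝ) +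
        ∑ k ∈ range K, 2 * (lf n k : ℝ) ^ (-(1 / 2) : ℝ) ≤ (n : ℝ) ^ (-(1 / 72) : ℝ) := by
    have b1 : ∀ k ≤ K, (lf n k : ℝ) ^ (-(1 / 12) : ℝ) ≤ 2 * (n : ℝ) ^ (-(1 / 36) : ℝ) := by
      intro k hk
      have h1 := hlge k hk
      have h2 : (lf n k : ℝ) ^ (-(1 / 12) : ℝ) ≤ (c / 2) ^ (-(1 / 12) : ℝ) :=
        Real.rpow_le_rpow_of_nonpos (by positivity) h1 (by norm_num)
      refine h2.trans ?_
      rw [Real.div_rpow (by positivity) (by norm_num), hc, ← Real.rpow_mul hnp.le]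
      have h3 : (1 / 3 : ℝ) * (-(1 / 12)) = -(1 / 36) := by norm_num
      rw [h3, Real.rpow_neg (by norm_num : (0 : ℝ) ≤ 2), div_inv_eq_mul, mul_comm]
      apply mul_le_mul_of_nonneg_right _ (by positivity)
      calc (2 : ℝ) ^ (1 / 12 : ℝ) ≤ 2 ^ (1 : ℝ) :=
            Real.rpow_le_rpow_of_exponent_le (by norm_num) (by norm_num)
        _ = 2 := by norm_num
    have b2 : ∀ k ≤ K, (lf n k : ℝ) ^ (-(1 / 2) : ℝ) ≤ 2 * (n : ℝ) ^ (-(1 / 36) : ℝ) := by
      intro k hk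
      refine le_trans ?_ (b1 k hk)
      apply Real.rpow_le_rpow_of_exponent_le _ (by norm_num)
      have := hlge k hk
      linarith
    have s1 : ∑ k ∈ range (K + 1), 48 * (lf n k : ℝ) ^ (-(1 / 12) : ℝ) ≤
        ∑ _k ∈ range (K + 1), 96 * (n : ℝ) ^ (-(1 / 36) : ℝ) := by
      apply Finset.sum_le_sum
      intro k hk
      have := b1 k (by have := Finset.mem_range.1 hk; omega)
      linarith
    have s2 : ∑ k ∈ range K, 2 * (lf n k : ℝ) ^ (-(1 / 2) : ℝ) ≤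
        ∑ _k ∈ range K, 4 * (n : ℝ) ^ (-(1 / 36) : ℝ) := by
      apply Finset.sum_le_sum
      intro k hk
      have := b2 k (by have := Finset.mem_range.1 hk; omega)
      linarith
    rw [Finset.sum_const, Finset.card_range, nsmul_eq_mul] at s1 s2
    have hp : (0 : ℝ) < (n : ℝ) ^ (-(1 / 36) : ℝ) := by positivity
    have e3 : (n : ℝ) ^ (-(1 / 72) : ℝ) = (n : ℝ) ^ (1 / 72 : ℝ) * (n : ℝ) ^ (-(1 / 36) : ℝ) := by
      rw [← Real.rpow_add hnp]; norm_num
    rw [e3]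
    have h5 : ((K + 1 : ℕ) : ℝ) * (96 * (n : ℝ) ^ (-(1 / 36) : ℝ)) +
        (K : ℝ) * (4 * (n : ℝ) ^ (-(1 / 36) : ℝ)) =
        (100 * K + 96) * (n : ℝ) ^ (-(1 / 36) : ℝ) := by push_cast; ring
    have h6 : (100 * (K : ℝ) + 96) ≤ (n : ℝ) ^ (1 / 72 : ℝ) := by
      have : (0 : ℝ) ≤ (Nat.log 2 n : ℝ) := by positivity
      linarith
    have h7 := mul_le_mul_of_nonneg_right h6 hp.le
    linarith
  refine le_trans (Pr_mono ?_) (hmain.trans hsum)
  rintro ⟨x, y⟩ ⟨hinj, hns⟩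
  refine ⟨hinj, fun hst => hns ?_⟩
  refine (hst.full htau).mono ?_
  apply Nat.le_floor
  have h1 := sum_cst n K
  have h2 : (((n - tau (lf n) K + lf n K : ℕ)) : ℝ) ≤ 6 * c := by
    rw [Nat.cast_add, Nat.cast_sub htau]
    have h3 := tau_lf_ge n K
    have h4 := lf_le n K
    have h5 : 2 * (K : ℝ) + 1 ≤ c := by
      have h6 : (n : ℝ) ^ (1 / 72 : ℝ) ≤ c :=
        Real.rpow_le_rpow_of_exponent_le hnr (by norm_num)
      have : (0 : ℝ) ≤ (Nat.log 2 n : ℝ) := by positivity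
      linarith
    linarith
  rw [Nat.cast_add]
  linarith

end Pool.Agent.Helper99.Perm
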