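import Pool.Agent.Helper99.Perm.ConfProb2

set_option autoImplicit false

namespace Pool.Agent.Helper99.Perm

open Finset
open scoped Classical

variable {n : ℕ}

lemma add_eq_of_le {a b c d : ℕ} (h1 : a ≤ c) (h2 : b ≤ d) (h : a + b = c + d) : a = c ∧ b = d := by
  omega

lemma card_filter_div_le {α : Type*} (L : Finset α) (ρ : α → ℕ) (hρ : Set.InjOn ρ (L : Set α))
    (b k : ℕ) (hb : 0 < b) : (L.filter (fun e => ρ e / b = k)).card ≤ b := by
  classical
  have h : (L.filter (fun e => ρ e / b = k)).card ≤ (Finset.Ico (k * b) (k * b + b)).card := by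
    apply Finset.card_le_card_of_injOn ρ
    · intro e he
      have he' := (Finset.mem_filter.1 (Finset.mem_coe.1 he)).2
      rw [Finset.mem_coe, Finset.mem_Ico]
      have h1 : ρ e / b * b ≤ ρ e := Nat.div_mul_le_self _ _
      have h2 : ρ e < ρ e / b * b + b := by
        have := Nat.lt_div_mul_add (a := ρ e) hb
        exact this
      rw [he'] at h1 h2
      exact ⟨h1, h2⟩
    · intro e he e' he' h
      exact hρ (Finset.mem_coe.2 (Finset.mem_filter.1 (Finset.mem_coe.1 he)).1)
        (Finset.mem_coe.2 (Finset.mem_filter.1 (Finset.mem_coe.1 he')).1) h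
  simpa using h

/-- The rank of a point among the elements of `L`, w.r.t. the injective labelling `y`. -/
def rk {K : Type*} [LinearOrder K] (L : Finset (Fin n)) (y : Fin n → K) (p : Fin n) : ℕ :=
  (L.filter (fun e => y e < y p)).card

lemma rk_mono {K : Type*} [LinearOrder K] (L : Finset (Fin n)) (y : Fin n → K) {p p' : Fin n}
    (h : y p ≤ y p') : rk L y p ≤ rk L y p' := by
  apply Finset.card_le_card
  intro e he
  rw [Finset.mem_filter] at he ⊢
  exact ⟨he.1, lt_of_lt_of_le he.2 h⟩

lemma rk_lt {K : Type*} [LinearOrder K] (L : Finset (Fin n)) (y : Fin n → K) {p p' : Fin n}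
    (hp : p ∈ L) (h : y p < y p') : rk L y p < rk L y p' := by
  apply Finset.card_lt_card
  rw [Finset.ssubset_iff_of_subset]
  · exact ⟨p, Finset.mem_filter.2 ⟨hp, h⟩, by simp⟩
  · intro e he
    rw [Finset.mem_filter] at he ⊢
    exact ⟨he.1, he.2.trans h⟩

lemma rk_injOn {K : Type*} [LinearOrder K] (L : Finset (Fin n)) (y : Fin n → K)
    (hy : Set.InjOn y (L : Set (Fin n))) : Set.InjOn (rk L y) (L : Set (Fin n)) := by
  intro p hp p' hp' h
  rcases lt_trichotomy (y p) (y p') with h1 | h1 | h1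
  · exact absurd h (rk_lt L y hp h1).ne
  · exact hy hp hp' h1
  · exact absurd h (rk_lt L y hp' h1).ne'

lemma rk_lt_card {K : Type*} [LinearOrder K] (L : Finset (Fin n)) (y : Fin n → K) {p : Fin n}
    (hp : p ∈ L) : rk L y p < L.card := by
  apply Finset.card_lt_card
  rw [Finset.ssubset_iff_of_subset (Finset.filter_subset _ _)]
  exact ⟨p, hp, by simp⟩

theorem step {M m q mA qA : ℕ} (hm : 0 < m) (hq : 0 < q) (hM : m * q = M)
    (hmA : 0 < mA) (hqA : 0 < qA) (hMA : mA * qA = M)
    (x : Fin n → Fin M) (L : Finset (Fin n)) (hx : Set.InjOn x (L : Set (Fin n)))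
    (t0 w0 f : ℕ) (hw0 : 0 < w0) (hLblock : ∀ p ∈ L, t0 ≤ (p : ℕ) ∧ (p : ℕ) < t0 + f)
    (hmult : ∀ i j : ℕ,
      (L.filter (fun p : Fin n => ((p : ℕ) - t0) / w0 = i ∧ (x p : ℕ) / qA = j)).card ≤ 3)
    (lam : ℝ) (hlam : 0 < lam) (hLlam : (L.card : ℝ) ≤ lam)
    (S : Finset (Fin n)) (u0 s : ℕ) (hS : ∀ p ∈ S, u0 ≤ (p : ℕ) ∧ (p : ℕ) < u0 + s)
    (hScard : S.card = s) (hs : 0 < s)
    (bL bS : ℕ) (hbL : 0 < bL) (hbS : 0 < bS)
    (N1 : (f : ℝ) / w0 + lam / bL + 1 ≤ m) (N2 : (mA : ℝ) + lam / bL ≤ m)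
    (N3 : s ≤ m * bS) (N4 : lam ≤ 4 * s) (N5 : 216 * (bL * bS) ≤ m)
    (c : ℕ) (hc : 36 * (m : ℝ) ^ 2 / s ≤ c) :
    ((Finset.univ.filter (fun r : Fin n → Fin M =>
      ¬ ∃ U ⊆ L, ∃ V ⊆ S, Sim x r U V c ∧ (L.card : ℝ) - U.card ≤ 5 * lam / 6)).card : ℝ) ≤
      2 * m / (s * bS) * Fintype.card (Fin n → Fin M) := by
  classical
  have hmr : (0 : ℝ) < m := by exact_mod_cast hm
  have hsr : (0 : ℝ) < s := by exact_mod_cast hs
  have hbSr : (0 : ℝ) < bS := by exact_mod_cast hbS
  have hbLr : (0 : ℝ) < bL := by exact_mod_cast hbL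
  by_cases hbig : (L.card : ℝ) ≤ 5 * lam / 6
  · have : (Finset.univ.filter (fun r : Fin n → Fin M =>
      ¬ ∃ U ⊆ L, ∃ V ⊆ S, Sim x r U V c ∧ (L.card : ℝ) - U.card ≤ 5 * lam / 6)) = ∅ := by
      apply Finset.filter_false_of_mem
      intro r _
      rw [not_not]
      exact ⟨∅, by simp, ∅, by simp, (Sim.empty x r).mono (Nat.zero_le _), by simpa using hbig⟩
    rw [this]
    simp only [Finset.card_empty, Nat.cast_zero]
    positivity
  push Not at hbig
  -- choose a box-free subset
  set box : Fin n → ℕ × ℕ := fun p => (((p : ℕ) - t0) / w0, (x p : ℕ) / qA) with hbox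
  obtain ⟨L', hL'L, hL'img, hL'inj⟩ : ∃ L' ⊆ L, L'.image box = L.image box ∧
      Set.InjOn box (L' : Set (Fin n)) := by
    have h := Finset.exists_subset_injOn_image_eq_of_surjOn (f := box) (s := L) (t := L.image box)
      (by rw [Finset.coe_image]; exact Set.surjOn_image _ _)
    obtain ⟨u, hu1, hu2, hu3⟩ := h
    exact ⟨u, hu1, hu3, hu2⟩
  have hcard3 : L.card ≤ 3 * L'.card := by
    have h1 : L.card ≤ 3 * (L.image box).card := by
      apply Finset.card_le_mul_card_image
      rintro ⟨i, j⟩ _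
      have := hmult i j
      have e : L.filter (fun p => box p = (i, j)) =
          L.filter (fun p : Fin n => ((p : ℕ) - t0) / w0 = i ∧ (x p : ℕ) / qA = j) := by
        apply Finset.filter_congr
        intro p _
        simp only [hbox, Prod.mk.injEq]
      rw [e]; exact this
    rw [← hL'img, Finset.card_image_of_injOn hL'inj] at h1
    exact h1
  have hL'lam : 5 * lam / 18 ≤ (L'.card : ℝ) := by
    have : (L.card : ℝ) ≤ 3 * L'.card := by exact_mod_cast hcard3
    linarith
  have hL'lam2 : (L'.card : ℝ) ≤ lam := by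
    have : (L'.card : ℝ) ≤ L.card := by exact_mod_cast Finset.card_le_card hL'L
    linarith
  have hL'0 : 0 < L'.card := by
    have : (0 : ℝ) < L'.card := by linarith
    exact_mod_cast this
  have hx' : Set.InjOn x (L' : Set (Fin n)) := hx.mono (Finset.coe_subset.2 hL'L)
  -- coordinates
  set a : Fin n → ℕ := fun p => rk L' (id : Fin n → Fin n) p / bL + ((p : ℕ) - t0) / w0 with ha
  set b : Fin n → ℕ := fun p => rk L' x p / bL + (x p : ℕ) / qA with hb
  set cc : Fin n → ℕ := fun p => ((p : ℕ) - u0) / bS with hcc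
  have amono : ∀ e e' : Fin n, e ≤ e' → rk L' (id : Fin n → Fin n) e / bL ≤
      rk L' (id : Fin n → Fin n) e' / bL ∧ ((e : ℕ) - t0) / w0 ≤ ((e' : ℕ) - t0) / w0 := by
    intro e e' h
    refine ⟨Nat.div_le_div_right (rk_mono L' id h), Nat.div_le_div_right ?_⟩
    have : (e : ℕ) ≤ e' := h
    omega
  have bmono : ∀ e e' : Fin n, x e ≤ x e' → rk L' x e / bL ≤
      rk L' x e' / bL ∧ (x e : ℕ) / qA ≤ (x e' : ℕ) / qA := by
    intro e e' h
    exact ⟨Nat.div_le_div_right (rk_mono L' x h), Nat.div_le_div_right h⟩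
  have aeq : ∀ e e' : Fin n, a e = a e' → rk L' (id : Fin n → Fin n) e / bL =
      rk L' (id : Fin n → Fin n) e' / bL ∧ ((e : ℕ) - t0) / w0 = ((e' : ℕ) - t0) / w0 := by
    intro e e' h
    rcases le_total e e' with h' | h'
    · exact add_eq_of_le (amono e e' h').1 (amono e e' h').2 h
    · have := add_eq_of_le (amono e' e h').1 (amono e' e h').2 h.symm
      exact ⟨this.1.symm, this.2.symm⟩
  have beq : ∀ e e' : Fin n, b e = b e' → rk L' x e / bL =
      rk L' x e' / bL ∧ (x e : ℕ) / qA = (x e' : ℕ) / qA := by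
    intro e e' h
    rcases le_total (x e) (x e') with h' | h'
    · exact add_eq_of_le (bmono e e' h').1 (bmono e e' h').2 h
    · have := add_eq_of_le (bmono e' e h').1 (bmono e' e h').2 h.symm
      exact ⟨this.1.symm, this.2.symm⟩
  have hinj : ∀ e ∈ L', ∀ e' ∈ L', a e = a e' → b e = b e' → e = e' := by
    intro e he e' he' h1 h2
    apply hL'inj he he'
    simp only [hbox]
    rw [(aeq e e' h1).2, (beq e e' h2).2]
  have hLa : ∀ e ∈ L', (L'.filter (fun e' => a e' = a e)).card ≤ bL := by
    intro e _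
    refine le_trans (Finset.card_le_card ?_) (card_filter_div_le L' (rk L' (id : Fin n → Fin n))
      (rk_injOn L' id (Set.injOn_id _)) bL (rk L' (id : Fin n → Fin n) e / bL) hbL)
    intro e' he'
    rw [Finset.mem_filter] at he' ⊢
    exact ⟨he'.1, (aeq e' e he'.2).1⟩
  have hLb : ∀ e ∈ L', (L'.filter (fun e' => b e' = b e)).card ≤ bL := by
    intro e _
    refine le_trans (Finset.card_le_card ?_) (card_filter_div_le L' (rk L' x)
      (rk_injOn L' x hx') bL (rk L' x e / bL) hbL)
    intro e' he'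
    rw [Finset.mem_filter] at he' ⊢
    exact ⟨he'.1, (beq e' e he'.2).1⟩
  have hSc : ∀ t, (S.filter (fun k => cc k = t)).card ≤ bS := by
    intro t
    apply card_filter_div_le S (fun p : Fin n => (p : ℕ) - u0) _ bS t hbS
    intro p hp p' hp' h
    have h1 := hS p hp
    have h2 := hS p' hp'
    apply Fin.ext
    simp only at h
    omega
  have hprob := conf_prob hm hq hM L' S a b cc bL bS hinj hLa hLb hSc hL'0 (by omega) hbL hbS
  rw [hScard] at hprob
  refine le_trans ?_ hprob
  apply Nat.cast_le.2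
  apply Finset.card_le_card
  intro r hr
  rw [Finset.mem_filter] at hr ⊢
  refine ⟨hr.1, ?_⟩
  by_contra hcon
  push Not at hcon
  apply hr.2
  have hconf : ((conf a b cc (fun i => (r i : ℕ) / q) L' S).card : ℝ) ≤ lam * S.card / 54 := by
    refine hcon.trans ?_
    rw [hScard, div_le_div_iff₀ hmr (by norm_num)]
    have h5 : (216 : ℝ) * (bL * bS) ≤ m := by exact_mod_cast N5
    have h6 : 4 * ((L'.card : ℝ) * bL * (s * bS)) * 54 = (L'.card * s) * (216 * (bL * bS)) := by
      ring
    rw [h6]
    have h7 : (L'.card * s : ℝ) * (216 * (bL * bS)) ≤ (lam * s) * m := by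
      apply mul_le_mul _ h5 (by positivity) (by positivity)
      exact mul_le_mul_of_nonneg_right hL'lam2 hsr.le
    exact h7
  obtain ⟨U, hU, V, hV, hsim, hor⟩ := extract_iter (x := x) (y := r) a b cc
    (fun i => (r i : ℕ) / q) L' S m hm lam hlam
    (by
      intro e _ e' _ h
      by_contra h'
      have := amono e' e (not_lt.1 h')
      simp only [ha] at h
      omega)
    (by
      intro e _ e' _ h
      by_contra h'
      have := bmono e' e (not_lt.1 h')
      simp only [hb] at h
      omega)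
    (by
      intro e _ e' _ h
      by_contra h'
      have h2 : (e' : ℕ) ≤ e := (not_lt.1 h')
      have := Nat.div_le_div_right (c := bS) (Nat.sub_le_sub_right h2 u0)
      simp only [hcc] at h
      omega)
    (by
      intro e _ e' _ h
      by_contra h'
      have h2 : (r e' : ℕ) ≤ r e := (not_lt.1 h')
      have := Nat.div_le_div_right (c := q) h2
      omega)
    (by
      intro e he
      have hr1 : rk L' (id : Fin n → Fin n) e < L'.card := rk_lt_card L' id he
      have hr2 : rk L' x e < L'.card := rk_lt_card L' x he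
      have hd : ∀ k : ℕ, k < L'.card → ((k / bL : ℕ) : ℝ) < lam / bL := by
        intro k hk
        have h1 : ((k / bL : ℕ) : ℝ) ≤ (k : ℝ) / bL := Nat.cast_div_le
        have h2 : (k : ℝ) / bL < lam / bL := by
          apply div_lt_div_of_pos_right _ hbLr
          have : (k : ℝ) < L'.card := by exact_mod_cast hk
          linarith
        linarith
      constructor
      · have h1 := hd _ hr1
        have h2 : ((((e : ℕ) - t0) / w0 : ℕ) : ℝ) ≤ (f : ℝ) / w0 := by
          have h3 : ((((e : ℕ) - t0) / w0 : ℕ) : ℝ) ≤ (((e : ℕ) - t0 : ℕ) : ℝ) / w0 :=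
            Nat.cast_div_le
          have h4 : (((e : ℕ) - t0 : ℕ) : ℝ) ≤ f := by
            have := hLblock e (hL'L he)
            exact_mod_cast (by omega : (e : ℕ) - t0 ≤ f)
          have h5 : (((e : ℕ) - t0 : ℕ) : ℝ) / w0 ≤ (f : ℝ) / w0 :=
            div_le_div_of_nonneg_right h4 (by positivity)
          linarith
        have h6 : ((a e : ℕ) : ℝ) < m := by
          simp only [ha]
          push_cast at h1 h2 ⊢
          linarith
        exact_mod_cast h6
      · have h1 := hd _ hr2
        have h2 : (x e : ℕ) / qA < mA := by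
          rw [Nat.div_lt_iff_lt_mul hqA, hMA]
          exact (x e).2
        have h2' : (((x e : ℕ) / qA : ℕ) : ℝ) + 1 ≤ mA := by exact_mod_cast h2
        have h6 : ((b e : ℕ) : ℝ) < m := by
          simp only [hb]
          push_cast at h1 h2' ⊢
          linarith
        exact_mod_cast h6)
    (by
      intro e he
      constructor
      · simp only [hcc]
        rw [Nat.div_lt_iff_lt_mul hbS]
        have := hS e he
        omega
      · skip
        rw [Nat.div_lt_iff_lt_mul hq, hM]
        exact (r e).2)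
    hL'lam (by rw [hScard]; exact N4) hconf c
  have hUbig : lam / 6 ≤ (U.card : ℝ) := by
    rcases hor with h | h
    · exact h
    · refine le_trans ?_ h
      rw [hScard]
      have h1 : 36 * (m : ℝ) ^ 2 / s * (lam * s / (216 * (m : ℝ) ^ 2)) = lam / 6 := by
        field_simp
        ring
      rw [← h1]
      apply mul_le_mul_of_nonneg_right hc
      positivity
  exact ⟨U, hU.trans hL'L, V, hV, hsim, by linarith⟩

end Pool.Agent.Helper99.Perm
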