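import Pool.Agent.Helper99.Perm.Seq

set_option autoImplicit false

namespace Pool.Agent.Helper99.Perm

open Finset

variable {n : ℕ} {M : ℕ}

/-- the coloured matching property for general keys -/
def Nice {K : Type*} [LinearOrder K] (N : ℕ) (x y : Fin n → K) : Prop :=
  ∃ c : Fin n → Fin N, ∃ g : Equiv.Perm (Fin n), ∀ a a' : Fin n, c a = c a' →
    ((a < a' ↔ g a < g a') ∧ (x a < x a' ↔ y (g a) < y (g a')))

lemma Sim.nice {K : Type*} [LinearOrder K] {x y : Fin n → K} {c N : ℕ}
    (h : Sim x y Finset.univ Finset.univ c) (hN : c ≤ N) : Nice N x y := by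
  obtain ⟨col, g, h1, h2⟩ := h.exists_perm
  refine ⟨fun a => ⟨col a, lt_of_lt_of_le (h1 a) hN⟩, g, ?_⟩
  intro a a' haa'
  exact h2 a a' (congrArg Fin.val haa')

lemma Nice.congr {K K' : Type*} [LinearOrder K] [LinearOrder K'] {N : ℕ} {x y : Fin n → K}
    {x' y' : Fin n → K'} (hx : ∀ a b, x a < x b ↔ x' a < x' b) (hy : ∀ a b, y a < y b ↔ y' a < y' b)
    (h : Nice N x y) : Nice N x' y' := by
  obtain ⟨c, g, h1⟩ := h
  refine ⟨c, g, fun a a' haa' => ?_⟩
  have := h1 a a' haa'
  rw [← hx a a', ← hy (g a) (g a')]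
  exact this

lemma exists_pattern (x : Fin n → Fin M) (hx : Function.Injective x) :
    ∃ σ : Equiv.Perm (Fin n), ∀ a b, x a < x b ↔ σ a < σ b := by
  have hlt : ∀ a, rk (Finset.univ : Finset (Fin n)) x a < n := by
    intro a
    have := rk_lt_card (Finset.univ : Finset (Fin n)) x (Finset.mem_univ a)
    simpa using this
  have hinj : Function.Injective (fun a => (⟨rk Finset.univ x a, hlt a⟩ : Fin n)) := by
    intro a b h
    have h' : rk Finset.univ x a = rk Finset.univ x b := congrArg Fin.val h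
    exact rk_injOn Finset.univ x (hx.injOn) (by simp) (by simp) h'
  refine ⟨Equiv.ofBijective _ (Finite.injective_iff_bijective.1 hinj), ?_⟩
  intro a b
  constructor
  · intro h
    exact rk_lt Finset.univ x (Finset.mem_univ a) h
  · intro h
    by_contra h'
    have := rk_mono (Finset.univ : Finset (Fin n)) x (not_lt.1 h')
    have h2 : rk Finset.univ x a < rk Finset.univ x b := h
    omega

open Classical in
theorem count_eq (N : ℕ) :
    ((Finset.univ.filter (fun p : Equiv.Perm (Fin n) × Equiv.Perm (Fin n) =>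
      ¬ Nice N p.1 p.2)).card : ℝ) *
      ((Finset.univ.filter (fun w : (Fin n → Fin M) × (Fin n → Fin M) =>
        Function.Injective w.1 ∧ Function.Injective w.2)).card : ℝ) =
      (n.factorial : ℝ) ^ 2 *
      ((Finset.univ.filter (fun w : (Fin n → Fin M) × (Fin n → Fin M) =>
        (Function.Injective w.1 ∧ Function.Injective w.2) ∧ ¬ Nice N w.1 w.2)).card : ℝ) := by
  set W := (Fin n → Fin M) × (Fin n → Fin M) with hW
  set PP := Equiv.Perm (Fin n) × Equiv.Perm (Fin n) with hPP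
  set I : Finset W := Finset.univ.filter (fun w : W =>
        Function.Injective w.1 ∧ Function.Injective w.2) with hI
  -- double sum
  have key1 : ∀ w ∈ I, ∑ t : PP, (if ¬ Nice N (w.1 ∘ t.1) (w.2 ∘ t.2) then (1 : ℝ) else 0) =
      ((Finset.univ.filter (fun p : PP => ¬ Nice N p.1 p.2)).card : ℝ) := by
    intro w hw
    obtain ⟨-, h1, h2⟩ := Finset.mem_filter.1 hw
    obtain ⟨σ, hσ⟩ := exists_pattern w.1 h1
    obtain ⟨π, hπ⟩ := exists_pattern w.2 h2
    rw [Finset.card_filter]
    push_cast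
    apply Fintype.sum_equiv ((Equiv.mulLeft σ).prodCongr (Equiv.mulLeft π))
    rintro ⟨t1, t2⟩
    have hiff : Nice N (w.1 ∘ t1) (w.2 ∘ t2) ↔
        Nice N (⇑(((Equiv.mulLeft σ).prodCongr (Equiv.mulLeft π)) (t1, t2)).1)
          (⇑(((Equiv.mulLeft σ).prodCongr (Equiv.mulLeft π)) (t1, t2)).2) := by
      constructor
      · exact Nice.congr (fun a b => hσ (t1 a) (t1 b)) (fun a b => hπ (t2 a) (t2 b))
      · exact Nice.congr (fun a b => (hσ (t1 a) (t1 b)).symm) (fun a b => (hπ (t2 a) (t2 b)).symm)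
    simp only [hiff]
  have key2 : ∀ t : PP, ∑ w ∈ I, (if ¬ Nice N (w.1 ∘ t.1) (w.2 ∘ t.2) then (1 : ℝ) else 0) =
      ((Finset.univ.filter (fun w : W =>
        (Function.Injective w.1 ∧ Function.Injective w.2) ∧ ¬ Nice N w.1 w.2)).card : ℝ) := by
    rintro ⟨t1, t2⟩
    rw [Finset.card_filter]
    push_cast
    rw [hI, Finset.sum_filter]
    apply Fintype.sum_equiv ((Equiv.arrowCongr t1.symm (Equiv.refl (Fin M))).prodCongr
      (Equiv.arrowCongr t2.symm (Equiv.refl (Fin M))))
    rintro ⟨x, y⟩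
    have e1 : ((Equiv.arrowCongr t1.symm (Equiv.refl (Fin M))).prodCongr
      (Equiv.arrowCongr t2.symm (Equiv.refl (Fin M)))) (x, y) = (x ∘ t1, y ∘ t2) := by
      rfl
    rw [e1]
    have i1 : Function.Injective x ↔ Function.Injective (x ∘ t1) :=
      (Equiv.injective_comp t1 x).symm
    have i2 : Function.Injective y ↔ Function.Injective (y ∘ t2) :=
      (Equiv.injective_comp t2 y).symm
    simp only [i1, i2]
    by_cases h1 : Function.Injective (x ∘ t1) ∧ Function.Injective (y ∘ t2)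
    · simp only [h1, if_true, true_and, and_self]
    · simp only [h1, if_false, false_and]
  have hswap : ∑ w ∈ I, ∑ t : PP, (if ¬ Nice N (w.1 ∘ t.1) (w.2 ∘ t.2) then (1 : ℝ) else 0) =
      ∑ t : PP, ∑ w ∈ I, (if ¬ Nice N (w.1 ∘ t.1) (w.2 ∘ t.2) then (1 : ℝ) else 0) :=
    Finset.sum_comm
  rw [Finset.sum_congr rfl key1, Finset.sum_congr rfl (fun t _ => key2 t)] at hswap
  rw [Finset.sum_const, Finset.sum_const, nsmul_eq_mul, nsmul_eq_mul] at hswap
  have hc : ((Finset.univ : Finset PP).card : ℝ) = (n.factorial : ℝ) ^ 2 := by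
    have h : Fintype.card (Equiv.Perm (Fin n) × Equiv.Perm (Fin n)) =
        n.factorial * n.factorial := by
      rw [Fintype.card_prod, Fintype.card_perm, Fintype.card_fin]
    rw [Finset.card_univ]
    change ((Fintype.card (Equiv.Perm (Fin n) × Equiv.Perm (Fin n)) : ℕ) : ℝ) = _
    rw [h]
    push_cast; ring
  rw [hc] at hswap
  rw [← hswap]; ring

open Classical in
theorem card_inj (hM : 2 * n ^ 2 ≤ M) (hM0 : 0 < M) :
    ((M : ℝ) ^ n) ^ 2 ≤ 4 * ((Finset.univ.filter (fun w : (Fin n → Fin M) × (Fin n → Fin M) =>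
        Function.Injective w.1 ∧ Function.Injective w.2)).card : ℝ) := by
  have h1 : (Finset.univ.filter (fun x : Fin n → Fin M => Function.Injective x)).card =
      M.descFactorial n := by
    have h2 := Fintype.card_embedding_eq (α := Fin n) (β := Fin M)
    rw [Fintype.card_fin, Fintype.card_fin] at h2
    rw [← h2, ← Fintype.card_subtype]
    exact Fintype.card_congr (Equiv.subtypeInjectiveEquivEmbedding (Fin n) (Fin M))
  have h2 : (Finset.univ.filter (fun w : (Fin n → Fin M) × (Fin n → Fin M) =>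
        Function.Injective w.1 ∧ Function.Injective w.2)).card =
      M.descFactorial n * M.descFactorial n := by
    have e : (Finset.univ.filter (fun w : (Fin n → Fin M) × (Fin n → Fin M) =>
        Function.Injective w.1 ∧ Function.Injective w.2)) =
      (Finset.univ.filter (fun x : Fin n → Fin M => Function.Injective x)) ×ˢ
      (Finset.univ.filter (fun x : Fin n → Fin M => Function.Injective x)) := by
      ext w
      simp only [Finset.mem_filter, Finset.mem_univ, true_and, Finset.mem_product]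
    rw [e, Finset.card_product, h1]
  rw [h2]
  push_cast
  have hMr : (0 : ℝ) < M := by exact_mod_cast hM0
  have h3 : (M : ℝ) ^ n ≤ 2 * (M.descFactorial n : ℝ) := by
    have hnM : n ≤ M := by nlinarith
    have h4 : (M + 1 - n) ^ n ≤ M.descFactorial n := Nat.pow_sub_le_descFactorial M n
    have h5 : ((M : ℝ) - n) ^ n ≤ (M.descFactorial n : ℝ) := by
      have h6 : ((M - n : ℕ) : ℝ) ^ n ≤ (M.descFactorial n : ℝ) := by
        have : (M - n) ^ n ≤ (M + 1 - n) ^ n := Nat.pow_le_pow_left (by omega) n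
        exact_mod_cast this.trans h4
      rwa [Nat.cast_sub hnM] at h6
    have h7 : (1 : ℝ) / 2 ≤ (1 + (-(n : ℝ) / M)) ^ n := by
      have hb := one_add_mul_le_pow (a := (-(n : ℝ) / M)) (by
        rw [le_div_iff₀ hMr]
        have : (n : ℝ) ≤ M := by exact_mod_cast hnM
        linarith) n
      refine le_trans ?_ hb
      have h8 : (2 : ℝ) * (n : ℝ) ^ 2 ≤ M := by exact_mod_cast hM
      have h9 : (n : ℝ) * (-(n : ℝ) / M) = - ((n : ℝ) ^ 2 / M) := by ring
      rw [h9]
      have h10 : (n : ℝ) ^ 2 / M ≤ 1 / 2 := by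
        rw [div_le_iff₀ hMr]; linarith
      linarith
    have h8 : ((M : ℝ) - n) ^ n = (M : ℝ) ^ n * (1 + (-(n : ℝ) / M)) ^ n := by
      rw [← mul_pow]; congr 1; field_simp; ring
    rw [h8] at h5
    have h9 : (0 : ℝ) < (M : ℝ) ^ n := by positivity
    nlinarith
  have h4 : (0 : ℝ) ≤ (M : ℝ) ^ n := by positivity
  nlinarith [mul_le_mul h3 h3 h4 (by positivity)]

open Classical in
theorem final_bound : ∀ᶠ n : ℕ in Filter.atTop,
    1 - 4 * (n : ℝ) ^ (-(1 / 72) : ℝ) ≤
      ((Finset.univ.filter (fun p : Equiv.Perm (Fin n) × Equiv.Perm (Fin n) =>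
        Nice ⌈(30000000 : ℝ) * (n : ℝ) ^ ((1 : ℝ) / 3)⌉₊ p.1 p.2)).card : ℝ) /
        ((n.factorial : ℝ) ^ 2) := by
  filter_upwards [main_keys] with n hn
  set M : ℕ := n.factorial * (2 * n ^ 2 + 1) with hM
  have hM0 : 0 < M := by rw [hM]; exact Nat.mul_pos (Nat.factorial_pos n) (by omega)
  have hM2 : 2 * n ^ 2 ≤ M := by
    rw [hM]
    have := Nat.factorial_pos n
    nlinarith
  have hdiv : ∀ d, 0 < d → d ≤ n → d ∣ M := by
    intro d h1 h2
    exact Dvd.dvd.mul_right (Nat.dvd_factorial h1 h2) _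
  have hmain := hn M hdiv hM0
  set N := ⌈(30000000 : ℝ) * (n : ℝ) ^ ((1 : ℝ) / 3)⌉₊ with hN
  have hfl : ⌊(30000000 : ℝ) * (n : ℝ) ^ ((1 : ℝ) / 3)⌋₊ ≤ N := Nat.floor_le_ceil _
  set W := (Fin n → Fin M) × (Fin n → Fin M) with hW
  have hne : Nonempty (Fin M) := ⟨⟨0, hM0⟩⟩
  have hPr : Pr (fun w : W => (Function.Injective w.1 ∧ Function.Injective w.2) ∧
      ¬ Nice N w.1 w.2) ≤ (n : ℝ) ^ (-(1 / 72) : ℝ) := by
    refine le_trans (Pr_mono ?_) hmain
    rintro w ⟨h1, h2⟩
    exact ⟨h1, fun h => h2 (h.nice hfl)⟩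
  rw [Pr_le_iff] at hPr
  have hcardW : (Fintype.card W : ℝ) = ((M : ℝ) ^ n) ^ 2 := by
    have h : Fintype.card ((Fin n → Fin M) × (Fin n → Fin M)) = M ^ n * M ^ n := by
      rw [Fintype.card_prod, Fintype.card_fun, Fintype.card_fin, Fintype.card_fin]
    change ((Fintype.card ((Fin n → Fin M) × (Fin n → Fin M)) : ℕ) : ℝ) = _
    rw [h]
    push_cast; ring
  rw [hcardW] at hPr
  have hc := count_eq (n := n) (M := M) N
  have hi := card_inj (n := n) (M := M) hM2 hM0
  set B : ℝ := ((Finset.univ.filter (fun p : Equiv.Perm (Fin n) × Equiv.Perm (Fin n) =>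
      ¬ Nice N p.1 p.2)).card : ℝ) with hB
  set J : ℝ := ((Finset.univ.filter (fun w : (Fin n → Fin M) × (Fin n → Fin M) =>
        Function.Injective w.1 ∧ Function.Injective w.2)).card : ℝ) with hJ
  set F : ℝ := (n.factorial : ℝ) ^ 2 with hF
  set G : ℝ := ((Finset.univ.filter (fun p : Equiv.Perm (Fin n) × Equiv.Perm (Fin n) =>
        Nice N p.1 p.2)).card : ℝ) with hG
  have hFpos : 0 < F := by
    rw [hF]
    have : (0 : ℝ) < n.factorial := by exact_mod_cast Nat.factorial_pos n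
    positivity
  have hGB : G + B = F := by
    rw [hG, hB, hF]
    have h1 : (Finset.univ.filter (fun p : Equiv.Perm (Fin n) × Equiv.Perm (Fin n) =>
        Nice N p.1 p.2)).card + (Finset.univ.filter
          (fun p : Equiv.Perm (Fin n) × Equiv.Perm (Fin n) => ¬ Nice N p.1 p.2)).card =
        n.factorial * n.factorial := by
      rw [Finset.card_filter_add_card_filter_not, Finset.card_univ, Fintype.card_prod,
        Fintype.card_perm, Fintype.card_fin]
    have h2 : ((Finset.univ.filter (fun p : Equiv.Perm (Fin n) × Equiv.Perm (Fin n) =>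
        Nice N p.1 p.2)).card : ℝ) + ((Finset.univ.filter
          (fun p : Equiv.Perm (Fin n) × Equiv.Perm (Fin n) => ¬ Nice N p.1 p.2)).card : ℝ) =
        n.factorial * n.factorial := by exact_mod_cast h1
    rw [h2]; ring
  have hM2n : (0 : ℝ) < ((M : ℝ) ^ n) ^ 2 := by
    have : (0 : ℝ) < M := by exact_mod_cast hM0
    positivity
  have hJpos : 0 < J := by linarith
  have hε0 : (0 : ℝ) ≤ (n : ℝ) ^ (-(1 / 72) : ℝ) := by positivity
  -- B ≤ 4 ε F
  have hBle : B ≤ 4 * (n : ℝ) ^ (-(1 / 72) : ℝ) * F := by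
    have h1 : B * J ≤ (4 * (n : ℝ) ^ (-(1 / 72) : ℝ) * F) * J := by
      rw [hc]
      calc F * ((Finset.univ.filter (fun w : (Fin n → Fin M) × (Fin n → Fin M) =>
        (Function.Injective w.1 ∧ Function.Injective w.2) ∧ ¬ Nice N w.1 w.2)).card : ℝ)
          ≤ F * ((n : ℝ) ^ (-(1 / 72) : ℝ) * ((M : ℝ) ^ n) ^ 2) :=
            mul_le_mul_of_nonneg_left hPr hFpos.le
        _ ≤ F * ((n : ℝ) ^ (-(1 / 72) : ℝ) * (4 * J)) := by
            apply mul_le_mul_of_nonneg_left _ hFpos.le
            exact mul_le_mul_of_nonneg_left hi hε0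
        _ = _ := by ring
    exact le_of_mul_le_mul_right h1 hJpos
  rw [le_div_iff₀ hFpos]
  linarith

end Pool.Agent.Helper99.Perm
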